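import Pool.Agent.W294.MZ.ExStmts

/-!
# MP_aa8fd2_nt, part EX-H1: finite subextensions of `F_S` are unramified outside `S` (helper413)
-/

set_option autoImplicit false
set_option linter.style.haveILetI false

namespace MZ413

open NumberField IsDedekindDomain MZ

section core

variable {F K E : Type} [Field F] [NumberField F] [Field K] [NumberField K] [Field E]
  [NumberField E] [Algebra F K] [Algebra K E] [Algebra F E] [IsScalarTower F K E]

/-- `g` lies in the inertia group of `P`. -/
def InInertia (P : Ideal (𝓞 E)) (g : E ≃ₐ[F] E) : Prop :=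
  ∀ x y : 𝓞 E, (y : E) = g (x : E) → y - x ∈ P

lemma card_inertia [IsGalois F E] (P : Ideal (𝓞 E)) [P.IsPrime] :
    Nat.card {g : E ≃ₐ[F] E // InInertia P g} = P.ramificationIdx (𝓞 F) := by
  classical
  letI : MulSemiringAction Gal(E/F) (𝓞 E) := IsIntegralClosure.MulSemiringAction (𝓞 F) F E (𝓞 E)
  haveI : IsGaloisGroup Gal(E/F) (𝓞 F) (𝓞 E) :=
    IsGaloisGroup.of_isFractionRing Gal(E/F) (𝓞 F) (𝓞 E) F E
  have hact : ∀ (g : Gal(E/F)) (x : 𝓞 E), ((g • x : 𝓞 E) : E) = g (x : E) := by
    intro g x
    exact algebraMap_galRestrict_apply (𝓞 F) g x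
  have key := Ideal.card_inertia_eq_ramificationIdxIn (G := Gal(E/F)) (P.under (𝓞 F)) P
  have key2 := Ideal.ramificationIdxIn_eq_ramificationIdx (P.under (𝓞 F)) P Gal(E/F)
  rw [← key2, ← key]
  apply Nat.card_congr
  refine Equiv.subtypeEquivRight fun g => ?_
  change _ ↔ g ∈ P.toAddSubgroup.inertia Gal(E/F)
  rw [AddSubgroup.mem_inertia]
  constructor
  · intro h x
    exact h x (g • x) (hact g x)
  · intro h x y hy
    have : y = g • x := by
      apply RingOfIntegers.ext
      rw [hact, hy]
    rw [this]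
    exact h x

/-- Unramifiedness of `P ∩ K` over `F` in terms of the inertia group of `P` in `Gal(E/F)`. -/
theorem unram_iff_inertia [IsGalois F E] (P : Ideal (𝓞 E)) [P.IsPrime] (hP : P ≠ ⊥) :
    Algebra.IsUnramifiedAt (𝓞 F) (P.under (𝓞 K)) ↔
      ∀ g : E ≃ₐ[F] E, InInertia P g → ∀ x : K, g (algebraMap K E x) = algebraMap K E x := by
  classical
  haveI : FiniteDimensional K E := FiniteDimensional.right F K E
  haveI : IsGalois K E := IsGalois.tower_top_of_isGalois F K E
  haveI : Algebra.IsIntegral (𝓞 K) (𝓞 E) := inferInstance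
  haveI hPm : P.IsMaximal := ‹P.IsPrime›.isMaximal hP
  haveI : (P.under (𝓞 K)).IsMaximal := Ideal.IsMaximal.under (𝓞 K) P
  have c1 := card_inertia (F := F) P
  have c2 := card_inertia (F := K) P
  have tower := Ideal.ramificationIdx_tower (R := 𝓞 F) (P.under (𝓞 K)) P
  rw [← c1, ← c2] at tower
  -- the restriction of scalars map
  let r : {g : E ≃ₐ[K] E // InInertia P g} → {g : E ≃ₐ[F] E // InInertia P g} := fun g =>
    ⟨g.1.restrictScalars F, fun x y h => g.2 x y h⟩
  have hr : Function.Injective r := by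
    intro a b hab
    apply Subtype.ext
    have := congrArg Subtype.val hab
    exact AlgEquiv.restrictScalars_injective F this
  haveI : Finite (E ≃ₐ[F] E) := inferInstance
  haveI : Finite {g : E ≃ₐ[F] E // InInertia P g} := inferInstance
  haveI : Finite {g : E ≃ₐ[K] E // InInertia P g} := inferInstance
  have hpos : 0 < Nat.card {g : E ≃ₐ[K] E // InInertia P g} := by
    haveI : Nonempty {g : E ≃ₐ[K] E // InInertia P g} :=
      ⟨1, fun x y h => by
        have : y = x := RingOfIntegers.ext h
        rw [this, sub_self]; exact P.zero_mem⟩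
    exact Nat.card_pos
  rw [← Ideal.ramificationIdx_eq_one_iff]
  constructor
  · intro h g hg x
    rw [h, one_mul] at tower
    have hb : Function.Bijective r :=
      (Nat.bijective_iff_injective_and_card r).mpr ⟨hr, tower.symm⟩
    obtain ⟨g', hg'⟩ := hb.2 ⟨g, hg⟩
    have : g'.1.restrictScalars F = g := congrArg Subtype.val hg'
    rw [← this]
    exact g'.1.commutes x
  · intro h
    have hb : Function.Bijective r := by
      refine ⟨hr, fun g => ?_⟩
      refine ⟨⟨{ g.1.toRingEquiv with commutes' := fun x => h g.1 g.2 x }, fun x y hx => g.2 x y hx⟩, ?_⟩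
      apply Subtype.ext
      ext x
      rfl
    have hc := Nat.card_eq_of_bijective r hb
    rw [← hc] at tower
    have : Ideal.ramificationIdx (P.under (𝓞 K)) (𝓞 F) *
        Nat.card {g : E ≃ₐ[K] E // InInertia P g} =
        1 * Nat.card {g : E ≃ₐ[K] E // InInertia P g} := by
      rw [one_mul, ← tower]
    exact Nat.eq_of_mul_eq_mul_right hpos this

end core

section tower

variable {F Ω : Type} [Field F] [NumberField F] [Field Ω] [Algebra F Ω]

/-- Intermediate fields inside `Ω`: `UnramifiedOutside S K` in terms of inertia groups in a finite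
Galois extension `E`. -/
theorem fix_of_unram (S : Set (HeightOneSpectrum (𝓞 F))) (K E : IntermediateField F Ω)
    [FiniteDimensional F K] [FiniteDimensional F E] [IsGalois F E] [NumberField E] (h : K ≤ E)
    (hK : UnramifiedOutside S K) (P : Ideal (𝓞 E)) [P.IsPrime] (hP : P ≠ ⊥)
    (hPS : ∀ v ∈ S, P.comap (algebraMap (𝓞 F) (𝓞 E)) ≠ v.asIdeal) (g : E ≃ₐ[F] E)
    (hg : InInertia P g) (x : Ω) (hx : x ∈ K) : ((g ⟨x, h hx⟩ : E) : Ω) = x := by
  haveI : NumberField K := NumberField.of_module_finite F K
  letI : Algebra K E := (IntermediateField.inclusion h).toRingHom.toAlgebra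
  haveI : IsScalarTower F K E := IsScalarTower.of_algebraMap_eq' rfl
  haveI : FiniteDimensional K E := FiniteDimensional.right F K E
  haveI : IsScalarTower (𝓞 F) (𝓞 K) (𝓞 E) := inferInstance
  haveI hPm : P.IsMaximal := ‹P.IsPrime›.isMaximal hP
  haveI hQm : (P.under (𝓞 K)).IsMaximal := Ideal.IsMaximal.under (𝓞 K) P
  have hQ : P.under (𝓞 K) ≠ ⊥ := Ideal.under_ne_bot (𝓞 K) hP
  have hu := hK ⟨P.under (𝓞 K), hQm.isPrime, hQ⟩ (by
    intro v hv heq
    apply hPS v hv
    rw [← heq]
    rw [IsScalarTower.algebraMap_eq (𝓞 F) (𝓞 K) (𝓞 E), ← Ideal.comap_comap])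
  have := (unram_iff_inertia (F := F) (K := K) P hP).mp hu g hg ⟨x, hx⟩
  exact congrArg (fun z : E => (z : Ω)) this

theorem unram_of_fix (S : Set (HeightOneSpectrum (𝓞 F))) (K E : IntermediateField F Ω)
    [FiniteDimensional F K] [FiniteDimensional F E] [IsGalois F E] [NumberField E] (h : K ≤ E)
    (hfix : ∀ (P : Ideal (𝓞 E)) [P.IsPrime], P ≠ ⊥ →
      (∀ v ∈ S, P.comap (algebraMap (𝓞 F) (𝓞 E)) ≠ v.asIdeal) → ∀ g : E ≃ₐ[F] E,
      InInertia P g → ∀ (x : Ω) (hx : x ∈ K), ((g ⟨x, h hx⟩ : E) : Ω) = x) :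
    UnramifiedOutside S K := by
  haveI : NumberField K := NumberField.of_module_finite F K
  letI : Algebra K E := (IntermediateField.inclusion h).toRingHom.toAlgebra
  haveI : IsScalarTower F K E := IsScalarTower.of_algebraMap_eq' rfl
  haveI : FiniteDimensional K E := FiniteDimensional.right F K E
  haveI : IsScalarTower (𝓞 F) (𝓞 K) (𝓞 E) := inferInstance
  intro w hw
  haveI := w.isPrime
  haveI := w.isMaximal
  obtain ⟨P, hP1, hP2⟩ := Ideal.exists_maximal_ideal_liesOver_of_isIntegral w.asIdeal (S := 𝓞 E)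
  haveI := hP1
  haveI := hP2
  haveI : P.IsPrime := hP1.isPrime
  have hPbot : P ≠ ⊥ := Ideal.ne_bot_of_liesOver_of_ne_bot w.ne_bot P
  have hov : w.asIdeal = P.under (𝓞 K) := hP2.over
  have hk := (unram_iff_inertia (F := F) (K := K) P hPbot).mpr (by
    intro g hg x
    apply Subtype.ext
    refine hfix P hPbot ?_ g hg x x.2
    intro u hu heq
    apply hw u hu
    rw [← heq]
    rw [IsScalarTower.algebraMap_eq (𝓞 F) (𝓞 K) (𝓞 E), ← Ideal.comap_comap]
    congr 1)
  have key : ∀ (Q : Ideal (𝓞 K)) [Q.IsPrime], Q = P.under (𝓞 K) →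
      Algebra.IsUnramifiedAt (𝓞 F) Q := by
    intro Q _ hQ
    subst hQ
    exact hk
  exact key w.asIdeal hov

end tower

/-- EX-H1. -/
theorem stmExH1 : MZEX.StmExH1 := by
  intro F Ω _ _ _ _ _ S K hKfin hK
  classical
  haveI := hKfin
  haveI : CharZero Ω := charZero_of_injective_algebraMap (algebraMap F Ω).injective
  -- a primitive element
  obtain ⟨x, hx⟩ := Field.exists_primitive_element F K
  have hKx : K = IntermediateField.adjoin F {(x : Ω)} := by
    have := congrArg (IntermediateField.map K.val) hx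
    rw [IntermediateField.adjoin_map] at this
    have h2 : IntermediateField.map K.val ⊤ = K := by
      rw [← AlgHom.fieldRange_eq_map]
      exact K.fieldRange_val
    rw [h2, Set.image_singleton] at this
    exact this.symm
  have hxF : (x : Ω) ∈ FSmax S := hK x.2
  obtain ⟨s, hs⟩ := IntermediateField.exists_finset_of_mem_iSup hxF
  -- the finite compositum
  let T : IntermediateField F Ω := K ⊔ ⨆ i ∈ s, (i : {K : IntermediateField F Ω //
    FiniteDimensional F K ∧ UnramifiedOutside S K}).1
  haveI : ∀ i : {K : IntermediateField F Ω // FiniteDimensional F K ∧ UnramifiedOutside S K},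
    FiniteDimensional F i.1 := fun i => i.2.1
  haveI hTfin : FiniteDimensional F T := by
    haveI : FiniteDimensional F (⨆ i ∈ s, (i : {K : IntermediateField F Ω //
      FiniteDimensional F K ∧ UnramifiedOutside S K}).1 : IntermediateField F Ω) := by
      exact IntermediateField.finiteDimensional_iSup_of_finset
    exact IntermediateField.finiteDimensional_sup _ _
  haveI : IsAlgClosed Ω := IsAlgClosure.isAlgClosed F
  haveI : Algebra.IsAlgebraic F Ω := IsAlgClosure.isAlgebraic
  haveI : IsGalois F Ω := ⟨⟩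
  let E : IntermediateField F Ω := IntermediateField.normalClosure F T Ω
  haveI : FiniteDimensional F E := inferInstance
  haveI : IsGalois F E := IsGalois.normalClosure F T Ω
  haveI : NumberField E := NumberField.of_module_finite F E
  have hTE : T ≤ E := IntermediateField.le_normalClosure T
  have hKE : K ≤ E := le_trans le_sup_left hTE
  have hiE : ∀ i ∈ s, (i : {K : IntermediateField F Ω //
    FiniteDimensional F K ∧ UnramifiedOutside S K}).1 ≤ E := fun i hi =>
    le_trans (le_trans (le_iSup₂_of_le i hi le_rfl) le_sup_right) hTE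
  refine unram_of_fix S K E hKE ?_
  intro P hPp hP hPS g hg
  let FF : IntermediateField F E := IntermediateField.fixedField (Subgroup.zpowers g)
  have hmem : ∀ (z : Ω) (hz : z ∈ E), ((g ⟨z, hz⟩ : E) : Ω) = z → z ∈ IntermediateField.lift FF := by
    intro z hz h
    have : (⟨z, hz⟩ : E) ∈ FF := by
      rw [IntermediateField.mem_fixedField_iff]
      intro f hf
      have hg' : g ⟨z, hz⟩ = ⟨z, hz⟩ := Subtype.ext h
      have : f ∈ MulAction.stabilizer (E ≃ₐ[F] E) (⟨z, hz⟩ : E) := by
        have h3 : Subgroup.zpowers g ≤ MulAction.stabilizer (E ≃ₐ[F] E) (⟨z, hz⟩ : E) := by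
          rw [Subgroup.zpowers_le, MulAction.mem_stabilizer_iff]
          exact hg'
        exact h3 hf
      exact this
    exact (IntermediateField.mem_lift (⟨z, hz⟩ : E)).mpr this
  have hmem' : ∀ (z : Ω) (hz : z ∈ E), z ∈ IntermediateField.lift FF → ((g ⟨z, hz⟩ : E) : Ω) = z := by
    intro z hz h
    have h2 : (⟨z, hz⟩ : E) ∈ FF := (IntermediateField.mem_lift (⟨z, hz⟩ : E)).mp h
    rw [IntermediateField.mem_fixedField_iff] at h2
    exact congrArg Subtype.val (h2 g (Subgroup.mem_zpowers g))
  have hle : (⨆ i ∈ s, (i : {K : IntermediateField F Ω //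
      FiniteDimensional F K ∧ UnramifiedOutside S K}).1 : IntermediateField F Ω) ≤
      IntermediateField.lift FF := by
    refine iSup₂_le fun i hi => ?_
    intro z hz
    apply hmem z (hiE i hi hz)
    exact fix_of_unram S i.1 E (hiE i hi) i.2.2 P hP hPS g hg z hz
  have hxl : (x : Ω) ∈ IntermediateField.lift FF := hle hs
  have hKl : K ≤ IntermediateField.lift FF := by
    rw [hKx]
    rw [IntermediateField.adjoin_le_iff, Set.singleton_subset_iff]
    exact hxl
  intro z hz
  exact hmem' z (hKE hz) (hKl hz)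

end MZ413
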