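import Mathlib
import Pool.Agent.W294.MZ.Field

/-!
# MP_aa8fd2_nt, FIELD: the criterion
If `𝓞 X` is a PID, `2 = ε π ^ m` with `π` prime and `m` odd, and totally positive units are
squares, then `TwoRat X`.
-/

namespace MZ413

open NumberField IsDedekindDomain MZ294 WithZero

variable {X : Type} [Field X] [NumberField X]

/-- valuations at height one primes not above 2 are even -/
def Ev (b : 𝓞 X) : Prop :=
  ∀ v : HeightOneSpectrum (𝓞 X), (2 : 𝓞 X) ∉ v.asIdeal → IsSquare (v.intValuation b)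

theorem not_isSquare_exp : ¬ IsSquare (exp (-1 : ℤ) : WithZero (Multiplicative ℤ)) := by
  rintro ⟨r, hr⟩
  have hr0 : r ≠ 0 := by
    rintro rfl
    simp at hr
  obtain ⟨n, rfl⟩ : ∃ n : ℤ, r = exp n := ⟨log r, by rw [exp_log hr0]⟩
  rw [← exp_add, exp_inj] at hr
  omega

theorem isSquare_of_mul {a b : WithZero (Multiplicative ℤ)} (ha : a ≠ 0) (h : IsSquare (a * a * b)) :
    IsSquare b := by
  obtain ⟨r, hr⟩ := h
  refine ⟨r / a, ?_⟩
  rw [div_mul_div_comm, ← hr, mul_comm (a * a) b, mul_div_assoc, div_self (mul_ne_zero ha ha), mul_one]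

theorem decomp [IsPrincipalIdealRing (𝓞 X)] (π ε : 𝓞 X) (m : ℕ) (hπ : Prime π)
    (hm : m ≠ 0) (h2 : (2 : 𝓞 X) = ε * π ^ m) (hε : IsUnit ε) (b : 𝓞 X) :
    b ≠ 0 → Ev b → ∃ (w : (𝓞 X)ˣ) (k : ℕ) (j : 𝓞 X), b = w * π ^ k * j ^ 2 := by
  have hπv : ∀ v : HeightOneSpectrum (𝓞 X), (2 : 𝓞 X) ∉ v.asIdeal → v.intValuation π = 1 := by
    intro v hv
    rw [HeightOneSpectrum.intValuation_eq_one_iff]
    intro hmem
    apply hv
    rw [h2]
    exact Ideal.mul_mem_left _ _ (Ideal.pow_mem_of_mem _ hmem m (Nat.pos_of_ne_zero hm))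
  induction b using (IsWellFounded.wf (r := DvdNotUnit (α := 𝓞 X))).induction with
  | _ b ih => ?_
  intro hb0 hb
  by_cases hu : IsUnit b
  · obtain ⟨w, hw⟩ := hu
    exact ⟨w, 0, 1, by simp [hw]⟩
  obtain ⟨q, hq, b', rfl⟩ := WfDvdMonoid.exists_irreducible_factor hu hb0
  have hqp : Prime q := hq.prime
  have hb'0 : b' ≠ 0 := right_ne_zero_of_mul hb0
  by_cases hqπ : Associated π q
  · obtain ⟨c, hc⟩ := hqπ
    have hev : Ev b' := by
      intro v hv
      have h1 := hb v hv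
      have h3 : v.intValuation q = 1 := by
        have h4 : v.intValuation ((c : (𝓞 X)ˣ) : 𝓞 X) = 1 := by
          rw [HeightOneSpectrum.intValuation_eq_one_iff]
          intro h
          exact v.isPrime.ne_top (Ideal.eq_top_of_isUnit_mem _ h c.isUnit)
        rw [← hc, map_mul, hπv v hv, h4, one_mul]
      rwa [map_mul, h3, one_mul] at h1
    obtain ⟨w, k, j, hwk⟩ := ih b' ⟨hb'0, q, hqp.not_unit, mul_comm _ _⟩ hb'0 hev
    refine ⟨c * w, k + 1, j, ?_⟩
    rw [hwk, ← hc]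
    push_cast
    ring
  · -- q is coprime to 2
    have hq0 : q ≠ 0 := hqp.ne_zero
    let v : HeightOneSpectrum (𝓞 X) :=
      ⟨Ideal.span {q}, (Ideal.span_singleton_prime hq0).2 hqp, by simpa using hq0⟩
    have hv2 : (2 : 𝓞 X) ∉ v.asIdeal := by
      intro h
      have h' : q ∣ 2 := Ideal.mem_span_singleton.1 h
      rw [h2] at h'
      rcases hqp.dvd_or_dvd h' with h3 | h3
      · exact hqp.not_unit (isUnit_of_dvd_unit h3 hε)
      · exact hqπ ((hqp.associated_of_dvd hπ (hqp.dvd_of_dvd_pow h3)).symm)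
    have hdvd : q ∣ b' := by
      by_contra hnd
      have h1 := hb v hv2
      rw [map_mul, HeightOneSpectrum.intValuation_singleton v hq0 rfl] at h1
      have h3 : v.intValuation b' = 1 := by
        rw [HeightOneSpectrum.intValuation_eq_one_iff]
        intro h
        exact hnd (Ideal.mem_span_singleton.1 h)
      rw [h3, mul_one] at h1
      exact not_isSquare_exp h1
    obtain ⟨b'', rfl⟩ := hdvd
    have hb''0 : b'' ≠ 0 := right_ne_zero_of_mul hb'0
    have hev : Ev b'' := by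
      intro v' hv'
      have h1 := hb v' hv'
      rw [map_mul, map_mul, ← mul_assoc] at h1
      exact isSquare_of_mul (HeightOneSpectrum.intValuation_ne_zero v' q hq0) h1
    have hdn : DvdNotUnit b'' (q * (q * b'')) :=
      ⟨hb''0, q * q, fun h => hqp.not_unit (isUnit_of_mul_isUnit_left h), by ring⟩
    obtain ⟨w, k, j, hwk⟩ := ih b'' hdn hb''0 hev
    refine ⟨w, k, q * j, ?_⟩
    rw [hwk]
    ring

/-- The criterion. -/
theorem twoRat_of [IsPrincipalIdealRing (𝓞 X)] (π ε : 𝓞 X) (m : ℕ) (hπ : Prime π)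
    (hm : Odd m) (h2 : (2 : 𝓞 X) = ε * π ^ m) (hε : IsUnit ε)
    (hU : ∀ u : (𝓞 X)ˣ, (∀ f : X →+* ℝ, 0 < f ((u : 𝓞 X) : X)) → IsSquare u) : TwoRat X := by
  intro a ha hpos hev
  obtain ⟨x, y, hy, rfl⟩ := IsFractionRing.div_surjective (A := 𝓞 X) a
  have hy0 : y ≠ 0 := nonZeroDivisors.ne_zero hy
  have hyX : (algebraMap (𝓞 X) X y) ≠ 0 := by simpa using hy0
  have hx0 : x ≠ 0 := by
    rintro rfl
    simp at ha
  set b : 𝓞 X := x * y with hb
  have hb0 : b ≠ 0 := mul_ne_zero hx0 hy0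
  have hba : (algebraMap (𝓞 X) X b) = (algebraMap (𝓞 X) X x / algebraMap (𝓞 X) X y) *
      (algebraMap (𝓞 X) X y) ^ 2 := by
    rw [hb, map_mul]
    field_simp
  have hEv : Ev b := by
    intro v hv
    have h1 := hev v hv
    rw [← HeightOneSpectrum.valuation_of_algebraMap (K := X)]
    change IsSquare (v.valuation X (algebraMap (𝓞 X) X b))
    rw [hba, map_mul, map_pow]
    exact h1.mul (IsSquare.sq _)
  obtain ⟨w, k, j, hw⟩ := decomp π ε m hπ (Nat.pos_iff_ne_zero.1 hm.pos) h2 hε b hb0 hEv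
  have hj0 : j ≠ 0 := by
    rintro rfl
    simp at hw
    exact hb0 hw
  have hπ0 : π ≠ 0 := hπ.ne_zero
  have hfpos : ∀ f : X →+* ℝ, 0 < f (algebraMap (𝓞 X) X b) := by
    intro f
    rw [hba, map_mul, map_pow]
    have : f (algebraMap (𝓞 X) X y) ≠ 0 := by
      rw [Ne, map_eq_zero]; exact hyX
    have := hpos f
    positivity
  have key : ∀ (c : 𝓞 X), c ≠ 0 → ∀ u : (𝓞 X)ˣ, (∀ f : X →+* ℝ, 0 < f (algebraMap (𝓞 X) X (u * c ^ 2))) →
      ∃ r : 𝓞 X, (u : 𝓞 X) * c ^ 2 = r * r := by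
    intro c hc u hu
    have h1 : ∀ f : X →+* ℝ, 0 < f ((u : 𝓞 X) : X) := by
      intro f
      have h3 := hu f
      rw [map_mul, map_mul, map_pow, map_pow] at h3
      have h4 : f (algebraMap (𝓞 X) X c) ≠ 0 := by
        rw [Ne, map_eq_zero]; simpa using hc
      have h5 : 0 < f (algebraMap (𝓞 X) X c) ^ 2 := by positivity
      exact pos_of_mul_pos_left h3 h5.le
    obtain ⟨r, hr⟩ := hU u h1
    refine ⟨r * c, ?_⟩
    rw [hr]
    push_cast
    ring
  -- transfer to a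
  have fin : ∀ t : X, (∃ r : 𝓞 X, t * algebraMap (𝓞 X) X b = algebraMap (𝓞 X) X (r * r)) →
      IsSquare (t * (algebraMap (𝓞 X) X x / algebraMap (𝓞 X) X y)) := by
    rintro t ⟨r, hr⟩
    refine ⟨algebraMap (𝓞 X) X r / algebraMap (𝓞 X) X y, ?_⟩
    rw [hba, map_mul] at hr
    field_simp at hr ⊢
    linear_combination hr
  rcases Nat.even_or_odd k with ⟨l, hl⟩ | ⟨l, hl⟩
  · left
    have hbe : b = w * (π ^ l * j) ^ 2 := by rw [hw, hl]; ring
    obtain ⟨r, hr⟩ := key (π ^ l * j) (mul_ne_zero (pow_ne_zero _ hπ0) hj0) w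
      (by rw [← hbe]; exact hfpos)
    have := fin 1 ⟨r, by rw [one_mul, hbe, hr]⟩
    simpa using this
  · right
    obtain ⟨n, hn⟩ := hm
    obtain ⟨e, he⟩ := hε
    have hbe : 2 * b = ((e * w : (𝓞 X)ˣ) : 𝓞 X) * (π ^ (l + n + 1) * j) ^ 2 := by
      rw [hw, h2, hl, hn, ← he]
      push_cast
      ring
    obtain ⟨r, hr⟩ := key (π ^ (l + n + 1) * j) (mul_ne_zero (pow_ne_zero _ hπ0) hj0) (e * w)
      (by
        intro f
        rw [← hbe, map_mul, map_mul]
        have := hfpos f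
        simp only [map_ofNat]
        positivity)
    exact fin 2 ⟨r, by rw [← hr, ← hbe, map_mul (algebraMap (𝓞 X) X) 2 b, map_ofNat]⟩

end MZ413
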