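import Mathlib

/-!
# MP_aa8fd2_nt, FIELD: discriminants from an integral ℚ-basis
-/

namespace MZ413

open NumberField Module Matrix

variable {X : Type} [Field X] [NumberField X] {ι : Type} [Fintype ι] [DecidableEq ι]

/-- An integral `ℚ`-basis `b` with discriminant `D`: there is an integer `m` with
`m ^ 2 * discr X = D` and `m • 𝓞 X ⊆ ℤ-span b`. -/
theorem exists_index (b : Basis ι ℚ X) (b' : ι → 𝓞 X) (hb : ∀ i, b i = algebraMap (𝓞 X) X (b' i))
    (D : ℤ) (hD : Algebra.discr ℚ b = D) :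
    ∃ m : ℤ, m ^ 2 * discr X = D ∧ m ≠ 0 ∧
      ∀ z : 𝓞 X, ∃ c : ι → ℤ, (m : 𝓞 X) * z = ∑ i, (c i : 𝓞 X) * b' i := by
  classical
  have hcard : Fintype.card (Free.ChooseBasisIndex ℤ (𝓞 X)) = Fintype.card ι := by
    rw [← finrank_eq_card_basis (integralBasis X), finrank_eq_card_basis b]
  let e := Fintype.equivOfCardEq hcard
  let ω : Basis ι ℤ (𝓞 X) := (RingOfIntegers.basis X).reindex e
  let P : Matrix ι ι ℤ := fun i j => ω.repr (b' j) i
  have hP : ∀ j, b' j = ∑ i, (P i j : 𝓞 X) * ω i := by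
    intro j
    conv_lhs => rw [← ω.sum_repr (b' j)]
    exact Finset.sum_congr rfl fun i _ => by rw [zsmul_eq_mul]
  have hdX : (discr X : ℚ) = Algebra.discr ℚ (fun i => algebraMap (𝓞 X) X (ω i)) := by
    rw [coe_discr, ← Algebra.discr_reindex ℚ (integralBasis X) e]
    congr 1
    ext i
    simp [ω, integralBasis_apply]
  have hbv : (fun i => algebraMap (𝓞 X) X (ω i)) ᵥ*
      ((P.map (Int.castRingHom ℚ)).map (algebraMap ℚ X)) = (b : ι → X) := by
    ext j
    rw [hb, hP]
    simp only [Matrix.vecMul, dotProduct, Matrix.map_apply, map_sum, map_mul]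
    refine Finset.sum_congr rfl fun i _ => ?_
    simp [mul_comm]
  have hdet : ((P.det : ℤ) : ℚ) ^ 2 * (discr X : ℚ) = D := by
    have h1 := Algebra.discr_of_matrix_vecMul (A := ℚ) (fun i => algebraMap (𝓞 X) X (ω i))
      (P.map (Int.castRingHom ℚ))
    rw [hbv, hD] at h1
    rw [hdX, h1]
    congr 2
    rw [← RingHom.mapMatrix_apply, ← RingHom.map_det]
    simp
  have hD0 : D ≠ 0 := by
    have h1 := Algebra.discr_not_zero_of_basis ℚ b
    rw [hD] at h1
    exact_mod_cast h1
  have hint : P.det ^ 2 * discr X = D := by exact_mod_cast hdet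
  refine ⟨P.det, hint, ?_, ?_⟩
  · intro h0
    rw [h0] at hint
    simp at hint
    exact hD0 hint.symm
  · intro z
    refine ⟨P.adjugate *ᵥ (ω.repr z), ?_⟩
    have h1 : z = ∑ i, ((ω.repr z i : ℤ) : 𝓞 X) * ω i := by
      conv_lhs => rw [← ω.sum_repr z]
      exact Finset.sum_congr rfl fun i _ => by rw [zsmul_eq_mul]
    have h2 : P *ᵥ (P.adjugate *ᵥ (ω.repr z)) = P.det • (ω.repr z : ι → ℤ) := by
      rw [Matrix.mulVec_mulVec, Matrix.mul_adjugate, Matrix.smul_mulVec, Matrix.one_mulVec]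
    have h3 : ∀ i, ∑ j, P i j * (P.adjugate *ᵥ (ω.repr z)) j = P.det * ω.repr z i := by
      intro i
      have := congrFun h2 i
      simpa [Matrix.mulVec, dotProduct] using this
    calc (P.det : 𝓞 X) * z = ∑ i, ((P.det * ω.repr z i : ℤ) : 𝓞 X) * ω i := by
          conv_lhs => rw [h1, Finset.mul_sum]
          refine Finset.sum_congr rfl fun i _ => ?_
          push_cast
          ring
      _ = ∑ i, ((∑ j, P i j * (P.adjugate *ᵥ (ω.repr z)) j : ℤ) : 𝓞 X) * ω i := by
          refine Finset.sum_congr rfl fun i _ => ?_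
          rw [h3]
      _ = ∑ j, ((P.adjugate *ᵥ (ω.repr z)) j : 𝓞 X) * ∑ i, (P i j : 𝓞 X) * ω i := by
          simp only [Int.cast_sum, Int.cast_mul, Finset.sum_mul, Finset.mul_sum]
          rw [Finset.sum_comm]
          refine Finset.sum_congr rfl fun j _ => Finset.sum_congr rfl fun i _ => ?_
          ring
      _ = ∑ j, ((P.adjugate *ᵥ (ω.repr z)) j : 𝓞 X) * b' j := by
          refine Finset.sum_congr rfl fun j _ => ?_
          rw [← hP]

/-- Discriminant from structure constants. -/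
theorem discr_of_struct (b : Basis ι ℚ X) (c : ι → ι → ι → ℤ)
    (h : ∀ i j, b i * b j = ∑ k, (c i j k : X) * b k) :
    Algebra.discr ℚ b =
      ((Matrix.of fun i j => ∑ k, c i j k * ∑ l, c k l l : Matrix ι ι ℤ).det : ℤ) := by
  classical
  have hc : ∀ i j, b i * b j = ∑ k, (c i j k : ℚ) • b k := by
    intro i j
    rw [h]
    refine Finset.sum_congr rfl fun k _ => ?_
    rw [Algebra.smul_def]
    simp
  have htr : ∀ i, Algebra.trace ℚ X (b i) = ((∑ l, c i l l : ℤ) : ℚ) := by
    intro i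
    rw [Algebra.trace_eq_matrix_trace b, Matrix.trace]
    push_cast
    refine Finset.sum_congr rfl fun l _ => ?_
    rw [Matrix.diag_apply, Algebra.leftMulMatrix_eq_repr_mul, hc]
    simp [Finsupp.single_apply]
  rw [Algebra.discr_def]
  have h1 : Algebra.traceMatrix ℚ b =
      (Matrix.of fun i j => ∑ k, c i j k * ∑ l, c k l l : Matrix ι ι ℤ).map (Int.castRingHom ℚ) := by
    ext i j
    rw [Algebra.traceMatrix_apply, Algebra.traceForm_apply, hc, map_sum]
    simp only [map_smul, htr, Matrix.map_apply, Matrix.of_apply, smul_eq_mul, eq_intCast]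
    push_cast
    rfl
  rw [h1, ← RingHom.mapMatrix_apply, ← RingHom.map_det]
  simp

end MZ413
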