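import Mathlib
import Pool.Agent.W413.MZ.Disc

/-!
# MP_aa8fd2_nt, FIELD: arithmetic of `ℤ[φ] ⊕ ℤ[φ] v ⊕ ℤ[φ] w`
-/

namespace MZ413

open NumberField Module Matrix

/-- `a + b φ`, `φ ^ 2 = φ + 1` -/
structure Z5 where
  a : ℤ
  b : ℤ
deriving DecidableEq

namespace Z5
def add (x y : Z5) : Z5 := ⟨x.a + y.a, x.b + y.b⟩
def mul (x y : Z5) : Z5 := ⟨x.a * y.a + x.b * y.b, x.a * y.b + x.b * y.a + x.b * y.b⟩
end Z5

/-- `x + y v + z w` -/
structure E6 where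
  x : Z5
  y : Z5
  z : Z5
deriving DecidableEq

/-- constructor in helper294's coefficient order (1,v,w,φ,φv,φw) -/
def E6.mk6 (a b c d e f : ℤ) : E6 := ⟨⟨a, d⟩, ⟨b, e⟩, ⟨c, f⟩⟩

/-- relations `v v = p`, `v w = q`, `w w = r` -/
structure Par where
  p : E6
  q : E6
  r : E6

namespace E6
def add (s t : E6) : E6 := ⟨s.x.add t.x, s.y.add t.y, s.z.add t.z⟩
def smul (c : Z5) (t : E6) : E6 := ⟨c.mul t.x, c.mul t.y, c.mul t.z⟩

def mul (P : Par) (s t : E6) : E6 :=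
  (E6.add ⟨s.x.mul t.x, (s.x.mul t.y).add (s.y.mul t.x), (s.x.mul t.z).add (s.z.mul t.x)⟩
    (E6.add (smul (s.y.mul t.y) P.p)
      (E6.add (smul ((s.y.mul t.z).add (s.z.mul t.y)) P.q) (smul (s.z.mul t.z) P.r))))

/-- coefficient functions, order (1,v,w,φ,φv,φw) -/
def coef (t : E6) : Fin 6 → ℤ := ![t.x.a, t.y.a, t.z.a, t.x.b, t.y.b, t.z.b]

def base : Fin 6 → E6 := ![mk6 1 0 0 0 0 0, mk6 0 1 0 0 0 0, mk6 0 0 1 0 0 0,
  mk6 0 0 0 1 0 0, mk6 0 0 0 0 1 0, mk6 0 0 0 0 0 1]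
end E6

section ev
variable {R : Type*} [CommRing R] (f v w : R)

def ev5 (t : Z5) : R := (t.a : R) + t.b * f
def ev (t : E6) : R := ev5 f t.x + ev5 f t.y * v + ev5 f t.z * w

variable {f v w}

theorem ev5_add (s t : Z5) : ev5 f (s.add t) = ev5 f s + ev5 f t := by
  simp only [ev5, Z5.add]; push_cast; ring

theorem ev5_mul (hf : f ^ 2 = f + 1) (s t : Z5) : ev5 f (s.mul t) = ev5 f s * ev5 f t := by
  simp only [ev5, Z5.mul]; push_cast; linear_combination (-(s.b : R) * t.b) * hf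

theorem ev_add (s t : E6) : ev f v w (s.add t) = ev f v w s + ev f v w t := by
  simp only [ev, E6.add, ev5_add]; ring

theorem ev_smul (hf : f ^ 2 = f + 1) (c : Z5) (t : E6) :
    ev f v w (E6.smul c t) = ev5 f c * ev f v w t := by
  simp only [ev, E6.smul, ev5_mul hf]; ring

theorem ev_mul (P : Par) (hf : f ^ 2 = f + 1) (h1 : v * v = ev f v w P.p)
    (h2 : v * w = ev f v w P.q) (h3 : w * w = ev f v w P.r) (s t : E6) :
    ev f v w (E6.mul P s t) = ev f v w s * ev f v w t := by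
  simp only [E6.mul, ev_add, ev_smul hf]
  rw [← h1, ← h2, ← h3]
  simp only [ev, ev5_mul hf, ev5_add]
  ring

theorem ev_eq_sum (t : E6) :
    ev f v w t = ∑ k, ((t.coef k : ℤ) : R) * (![1, v, w, f, f * v, f * w] : Fin 6 → R) k := by
  simp [ev, ev5, E6.coef, Fin.sum_univ_six]
  ring

theorem ev_base (i : Fin 6) :
    ev f v w (E6.base i) = (![1, v, w, f, f * v, f * w] : Fin 6 → R) i := by
  fin_cases i <;> simp [ev, ev5, E6.base, E6.mk6]

end ev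

/-- structure constants -/
def cst (P : Par) (i j k : Fin 6) : ℤ := (E6.mul P (E6.base i) (E6.base j)).coef k

def PN : Par := ⟨E6.mk6 0 0 1 0 0 0, E6.mk6 (-1) 3 0 0 0 0, E6.mk6 0 (-1) 3 0 0 0⟩
/-- `v² = 2w`, `vw = 6v - 2κ`, `w² = 6w - κ v`, `κ = 3φ - 1` -/
def PP : Par := ⟨E6.mk6 0 0 2 0 0 0, E6.mk6 2 6 0 (-6) 0 0, E6.mk6 0 1 6 0 (-3) 0⟩
/-- `v² = 2 s τ - 2 v - 2`, `v τ = s v + 2 τ`, `τ² = 2 s τ + v - 1`, `s = 2φ-1` -/
def PM : Par := ⟨E6.mk6 (-2) (-2) (-2) 0 0 4, E6.mk6 0 (-1) 2 0 2 0, E6.mk6 (-1) 1 (-2) 0 0 4⟩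

def Tm (P : Par) : Matrix (Fin 6) (Fin 6) ℤ :=
  Matrix.of fun i j => ∑ k, cst P i j k * ∑ l, cst P k l l

theorem det_of_LU (T L H : Matrix (Fin 6) (Fin 6) ℤ) (h : L * T = H)
    (hL : ∀ i j : Fin 6, i < j → L i j = 0) (hH : ∀ i j : Fin 6, j < i → H i j = 0) :
    (∏ i, L i i) * T.det = ∏ i, H i i := by
  have h1 : L.det = ∏ i, L i i := by
    apply Matrix.det_of_isLowerTriangular
    intro i j hij
    exact hL i j hij
  have h2 : H.det = ∏ i, H i i := by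
    apply Matrix.det_of_isUpperTriangular
    intro i j hij
    exact hH i j hij
  rw [← h1, ← h2, ← h, Matrix.det_mul]

def LN : Matrix (Fin 6) (Fin 6) ℤ :=
  !![1, 0, 0, 0, 0, 0; 0, 1, 0, 0, 0, 0; -4, 1, 2, 0, 0, 0; -1, 0, 0, 2, 0, 0; 0, -1, 0, 0, 2, 0; 4, -1, -2, -8, 2, 4]

def HN : Matrix (Fin 6) (Fin 6) ℤ :=
  !![6, 0, 12, 3, 0, 6; 0, 12, -6, 0, 6, -3; 0, 0, 18, 0, 0, 9; 0, 0, 0, 15, 0, 30; 0, 0, 0, 0, 30, -15; 0, 0, 0, 0, 0, 45]

theorem detN : (Tm PN).det = 820125 := by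
  have h := det_of_LU (Tm PN) LN HN (by decide +kernel)
    (fun i j h => by
      fin_cases i <;> fin_cases j <;> first | rfl | exact absurd h (by decide))
    (fun i j h => by
      fin_cases i <;> fin_cases j <;> first | rfl | exact absurd h (by decide))
  have h2 : (∏ i : Fin 6, LN i i) = 32 := by decide +kernel
  have h3 : (∏ i : Fin 6, HN i i) = 26244000 := by decide +kernel
  rw [h2, h3] at h
  omega

def LP : Matrix (Fin 6) (Fin 6) ℤ :=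
  !![1, 0, 0, 0, 0, 0; 0, 1, 0, 0, 0, 0; -32, 1, 8, 0, 0, 0; -1, 0, 0, 2, 0, 0; -80, -8, 20, 0, 21, 0; -16, 8, 4, -48, 9, 12]

def HP : Matrix (Fin 6) (Fin 6) ℤ :=
  !![6, 0, 24, 3, 0, 12; 0, 48, -6, 0, 24, -48; 0, 0, 378, 0, -360, 144; 0, 0, 0, 15, 0, 60; 0, 0, 0, 0, 360, -270; 0, 0, 0, 0, 0, 90]

theorem detP : (Tm PP).det = 13122000 := by
  have h := det_of_LU (Tm PP) LP HP (by decide +kernel)
    (fun i j h => by
      fin_cases i <;> fin_cases j <;> first | rfl | exact absurd h (by decide))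
    (fun i j h => by
      fin_cases i <;> fin_cases j <;> first | rfl | exact absurd h (by decide))
  have h2 : (∏ i : Fin 6, LP i i) = 4032 := by decide +kernel
  have h3 : (∏ i : Fin 6, HP i i) = 52907904000 := by decide +kernel
  rw [h2, h3] at h
  omega

def LM : Matrix (Fin 6) (Fin 6) ℤ :=
  !![1, 0, 0, 0, 0, 0; 0, 1, 0, 0, 0, 0; 0, 0, 1, 0, 0, 0; -9, 0, -5, 18, 0, 0; -5, -2, -5, 10, 4, 0; -20, -5, -4, 0, 0, 8]

def HM : Matrix (Fin 6) (Fin 6) ℤ :=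
  !![6, 0, 0, 3, 0, 15; 0, 48, 0, 0, 24, 30; 0, 0, 54, 15, 30, 27; 0, 0, 0, 60, -150, 0; 0, 0, 0, 0, 90, 0; 0, 0, 0, 0, 0, 90]

theorem detM : (Tm PM).det = 13122000 := by
  have h := det_of_LU (Tm PM) LM HM (by decide +kernel)
    (fun i j h => by
      fin_cases i <;> fin_cases j <;> first | rfl | exact absurd h (by decide))
    (fun i j h => by
      fin_cases i <;> fin_cases j <;> first | rfl | exact absurd h (by decide))
  have h2 : (∏ i : Fin 6, LM i i) = 576 := by decide +kernel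
  have h3 : (∏ i : Fin 6, HM i i) = 7558272000 := by decide +kernel
  rw [h2, h3] at h
  omega

end MZ413
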