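import Mathlib
import Pool.Agent.W413.MZ.Arith

/-!
# MP_aa8fd2_nt, FIELD: the `ℚ`-basis `1, v, w, φ, φ v, φ w`
-/

namespace MZ413

open NumberField Module Matrix

theorem six_dvd (K : Type*) [Field K] [NumberField K] (s π u u' : K) (hs : s ^ 2 = 5)
    (hπ : π ^ 3 = 3 * u) (huu : u * u' = 1) (hu : IsIntegral ℤ u) (hu' : IsIntegral ℤ u') :
    6 ∣ finrank ℚ K := by
  set d := finrank ℚ K with hd
  have h5 : (Algebra.norm ℚ s) ^ 2 = (5 : ℚ) ^ d := by
    rw [← map_pow, hs, show (5 : K) = algebraMap ℚ K 5 by simp, Algebra.norm_algebraMap]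
  have h3 : (Algebra.norm ℚ π) ^ 3 = (3 : ℚ) ^ d * Algebra.norm ℚ u := by
    rw [← map_pow, hπ, map_mul, show (3 : K) = algebraMap ℚ K 3 by simp, Algebra.norm_algebraMap]
  have huu' : Algebra.norm ℚ u * Algebra.norm ℚ u' = 1 := by
    rw [← map_mul, huu, map_one]
  obtain ⟨a, ha⟩ := IsIntegrallyClosed.isIntegral_iff.1 (Algebra.isIntegral_norm ℚ hu)
  obtain ⟨a', ha'⟩ := IsIntegrallyClosed.isIntegral_iff.1 (Algebra.isIntegral_norm ℚ hu')
  simp only [eq_intCast] at ha ha'
  rw [← ha, ← ha'] at huu'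
  have huu2 : a * a' = 1 := by exact_mod_cast huu'
  have : Fact (Nat.Prime 5) := ⟨by norm_num⟩
  have : Fact (Nat.Prime 3) := ⟨by norm_num⟩
  have hs0 : Algebra.norm ℚ s ≠ 0 := by
    intro h
    rw [h] at h5
    have : (5 : ℚ) ^ d ≠ 0 := by positivity
    exact this (by rw [← h5]; norm_num)
  have hva : padicValRat 3 (a : ℚ) = 0 := by
    rcases Int.eq_one_or_neg_one_of_mul_eq_one huu2 with h | h
    · simp [h]
    · simp [h]
  have ha0 : (a : ℚ) ≠ 0 := by
    intro h
    rw [h] at huu'
    norm_num at huu'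
  have hπ0 : Algebra.norm ℚ π ≠ 0 := by
    intro h
    rw [h, ← ha] at h3
    have : (3 : ℚ) ^ d * a ≠ 0 := by positivity
    exact this (by rw [← h3]; norm_num)
  have h2d : 2 * padicValRat 5 (Algebra.norm ℚ s) = d := by
    have h := congrArg (padicValRat 5) h5
    rw [padicValRat.pow, padicValRat.pow] at h
    rw [show padicValRat 5 (5 : ℚ) = 1 from by
      have := padicValRat.self (p := 5) (by norm_num)
      simpa using this] at h
    push_cast at h
    linarith
  have h3d : 3 * padicValRat 3 (Algebra.norm ℚ π) = d := by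
    have h := congrArg (padicValRat 3) h3
    rw [padicValRat.pow, padicValRat.mul (by positivity) (by rw [← ha]; exact ha0),
      padicValRat.pow, ← ha, hva] at h
    rw [show padicValRat 3 (3 : ℚ) = 1 from by
      have := padicValRat.self (p := 3) (by norm_num)
      simpa using this] at h
    push_cast at h
    linarith
  omega

variable {X : Type} [Field X] [NumberField X]

/-- span of the base -/
theorem exists_basis (hX : finrank ℚ X = 6) (P : Par) (f v w : 𝓞 X) (hf : f ^ 2 = f + 1)
    (h1 : v * v = ev f v w P.p) (h2 : v * w = ev f v w P.q) (h3 : w * w = ev f v w P.r)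
    (π u u' : E6) (huu : E6.mul P u u' = E6.mk6 1 0 0 0 0 0)
    (hπ : E6.mul P π (E6.mul P π π) = E6.mul P (E6.mk6 3 0 0 0 0 0) u) :
    ∃ b : Basis (Fin 6) ℚ X, ∀ i, b i = algebraMap (𝓞 X) X (ev f v w (E6.base i)) := by
  classical
  let t : Fin 6 → X := fun i => algebraMap (𝓞 X) X (ev f v w (E6.base i))
  let B : Submodule ℚ X := Submodule.span ℚ (Set.range t)
  have hev : ∀ z : E6, algebraMap (𝓞 X) X (ev f v w z) = ∑ k, (z.coef k : ℚ) • t k := by
    intro z
    rw [ev_eq_sum, map_sum]
    refine Finset.sum_congr rfl fun k _ => ?_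
    rw [← ev_base, map_mul, Algebra.smul_def]
    simp [t]
  have hmem : ∀ z : E6, algebraMap (𝓞 X) X (ev f v w z) ∈ B := by
    intro z
    rw [hev]
    exact Submodule.sum_mem _ fun k _ => Submodule.smul_mem _ _ (Submodule.subset_span ⟨k, rfl⟩)
  have hone : (1 : X) ∈ B := by
    have := hmem (E6.mk6 1 0 0 0 0 0)
    simpa [ev, ev5, E6.mk6] using this
  have hmul : ∀ x y : X, x ∈ B → y ∈ B → x * y ∈ B := by
    intro x y hx hy
    induction hx using Submodule.span_induction with
    | mem x hx =>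
      obtain ⟨i, rfl⟩ := hx
      induction hy using Submodule.span_induction with
      | mem y hy =>
        obtain ⟨j, rfl⟩ := hy
        simp only [t]
        rw [← map_mul, ← ev_mul P hf h1 h2 h3]
        exact hmem _
      | zero => simp
      | add y z _ _ hy hz => rw [mul_add]; exact B.add_mem hy hz
      | smul c y _ hy => rw [mul_smul_comm]; exact B.smul_mem _ hy
    | zero => simp
    | add x z _ _ hx hz => rw [add_mul]; exact B.add_mem hx hz
    | smul c x _ hx => rw [smul_mul_assoc]; exact B.smul_mem _ hx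
  let A : Subalgebra ℚ X := B.toSubalgebra hone hmul
  have hA : IsField A := Subalgebra.isField_of_algebraic A
  let K' : IntermediateField ℚ X := A.toIntermediateField' hA
  have hK' : ∀ x : X, x ∈ K' ↔ x ∈ B := fun x => Iff.rfl
  have hmemK : ∀ z : E6, algebraMap (𝓞 X) X (ev f v w z) ∈ K' := fun z => (hK' _).2 (hmem z)
  let g : E6 → K' := fun z => ⟨_, hmemK z⟩
  have hint : ∀ z : E6, IsIntegral ℤ (g z) := by
    intro z
    have h4 : IsIntegral ℤ (algebraMap (𝓞 X) X (ev f v w z)) := (ev f v w z).2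
    exact (isIntegral_algebraMap_iff (algebraMap K' X).injective).1 h4
  have h6 : 6 ∣ finrank ℚ K' := by
    refine six_dvd K' (g (E6.mk6 (-1) 0 0 2 0 0)) (g π) (g u) (g u') ?_ ?_ ?_ (hint _) (hint _)
    · apply Subtype.ext
      have : (ev f v w (E6.mk6 (-1) 0 0 2 0 0)) ^ 2 = 5 := by
        simp only [ev, ev5, E6.mk6]
        push_cast
        linear_combination 4 * hf
      change (algebraMap (𝓞 X) X (ev f v w (E6.mk6 (-1) 0 0 2 0 0))) ^ 2 = 5
      rw [← map_pow, this]
      exact map_ofNat (algebraMap (𝓞 X) X) 5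
    · apply Subtype.ext
      have : (ev f v w π) ^ 3 = 3 * ev f v w u := by
        have h5 := congrArg (ev f v w) hπ
        simp only [ev_mul P hf h1 h2 h3] at h5
        have h6 : ev f v w (E6.mk6 3 0 0 0 0 0) = 3 := by simp [ev, ev5, E6.mk6]
        rw [h6] at h5
        rw [← h5]
        ring
      change (algebraMap (𝓞 X) X (ev f v w π)) ^ 3 = 3 * algebraMap (𝓞 X) X (ev f v w u)
      rw [← map_pow, this, map_mul]
      congr 1
    · apply Subtype.ext
      have : ev f v w u * ev f v w u' = 1 := by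
        rw [← ev_mul P hf h1 h2 h3, huu]
        simp [ev, ev5, E6.mk6]
      change algebraMap (𝓞 X) X (ev f v w u) * algebraMap (𝓞 X) X (ev f v w u') = 1
      rw [← map_mul, this, map_one]
  have hle : finrank ℚ K' ≤ finrank ℚ X := Submodule.finrank_le (Subalgebra.toSubmodule K'.toSubalgebra)
  have hpos : 0 < finrank ℚ K' := finrank_pos
  have heq : finrank ℚ K' = finrank ℚ X := by
    rw [hX] at hle ⊢
    obtain ⟨m, hm⟩ := h6
    have : m ≠ 0 := by rintro rfl; omega
    omega
  have htop : B = ⊤ := Submodule.eq_top_of_finrank_eq heq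
  let b := basisOfTopLeSpanOfCardEqFinrank t (by rw [← htop]) (by rw [hX]; simp)
  exact ⟨b, fun i => by simp [b, t]⟩

end MZ413
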