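import Mathlib

/-!
# MP_aa8fd2_nt, FIELD: units
`finrank ℚ X` units with independent sign vectors: totally positive units are squares.
-/

namespace MZ413

open NumberField NumberField.Units Module

theorem zpow_split {G : Type*} [CommGroup G] (g : G) (t : ℕ) (m : ℤ) :
    g ^ ((t : ℤ) + 2 * m) = g ^ t * (g ^ m) ^ 2 := by
  rw [zpow_add, zpow_natCast, mul_comm (2 : ℤ) m, zpow_mul]
  norm_cast

variable {X : Type} [Field X] [NumberField X]

theorem exists_rep (g : torsion X) (hg : ∀ z : torsion X, z ∈ Subgroup.zpowers g) (x : (𝓞 X)ˣ) :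
    ∃ c : Fin 2 × (Fin (rank X) → Fin 2), ∃ y : (𝓞 X)ˣ,
      x = (g : (𝓞 X)ˣ) ^ (c.1 : ℕ) * (∏ i, fundSystem X i ^ (c.2 i : ℕ)) * y ^ 2 := by
  obtain ⟨⟨z, a⟩, hx, -⟩ := exist_unique_eq_mul_prod X x
  obtain ⟨k, hk⟩ := hg z
  have h2 : ∀ n : ℤ, ∃ t : Fin 2, ∃ m : ℤ, n = (t : ℕ) + 2 * m := by
    intro n
    rcases Int.even_or_odd' n with ⟨m, hm | hm⟩
    · exact ⟨0, m, by simp [hm]⟩
    · exact ⟨1, m, by rw [hm]; simp; ring⟩
  obtain ⟨t, m, hm⟩ := h2 k
  choose b d hbd using fun i => h2 (a i)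
  refine ⟨(t, b), (g : (𝓞 X)ˣ) ^ m * ∏ i, fundSystem X i ^ (d i), ?_⟩
  simp only at hx ⊢
  rw [hx]
  have h3 : ((z : torsion X) : (𝓞 X)ˣ) = (g : (𝓞 X)ˣ) ^ (t : ℕ) * ((g : (𝓞 X)ˣ) ^ m) ^ 2 := by
    rw [← zpow_split, ← hm, ← hk]
    simp
  have h4 : ∏ i, fundSystem X i ^ (a i) =
      (∏ i, fundSystem X i ^ (b i : ℕ)) * (∏ i, fundSystem X i ^ (d i)) ^ 2 := by
    rw [← Finset.prod_pow, ← Finset.prod_mul_distrib]
    refine Finset.prod_congr rfl fun i _ => ?_
    rw [← zpow_split, ← hbd]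
  rw [h3, h4]
  simp only [mul_pow]
  simp only [mul_comm, mul_left_comm, mul_assoc]

theorem isSquare_of_mul_isSquare {G : Type*} [CommGroup G] {a b : G} (h : IsSquare (a * b))
    (hb : IsSquare b) : IsSquare a := by
  have := h.div hb
  simpa using this

theorem pos_unit_isSquare (n : ℕ) (hn : finrank ℚ X = n) (e : Fin n → (𝓞 X)ˣ)
    (hind : ∀ S : Finset (Fin n), S.Nonempty →
      ∃ f : X →+* ℝ, f (((∏ i ∈ S, e i : (𝓞 X)ˣ) : 𝓞 X) : X) < 0)
    (u : (𝓞 X)ˣ) (hu : ∀ f : X →+* ℝ, 0 < f ((u : 𝓞 X) : X)) : IsSquare u := by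
  classical
  obtain ⟨g, hg⟩ := IsCyclic.exists_generator (α := torsion X)
  choose c y hc using exists_rep g hg
  have hcc : ∀ x x' : (𝓞 X)ˣ, c x = c x' → IsSquare (x * x') := by
    intro x x' h
    rw [hc x, hc x', h]
    refine ⟨(g : (𝓞 X)ˣ) ^ ((c x').1 : ℕ) * (∏ i, fundSystem X i ^ ((c x').2 i : ℕ)) * (y x * y x'), ?_⟩
    simp only [pow_two]
    simp only [mul_comm, mul_left_comm, mul_assoc]
  have hsq : ∀ x : (𝓞 X)ˣ, IsSquare x → ∀ f : X →+* ℝ, 0 < f ((x : 𝓞 X) : X) := by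
    rintro x ⟨r, rfl⟩ f
    have h1 : f (((r : (𝓞 X)ˣ) : 𝓞 X) : X) ≠ 0 := by
      rw [Ne, map_eq_zero]
      simp
    have h2 : f (((r * r : (𝓞 X)ˣ) : 𝓞 X) : X) = f (((r : (𝓞 X)ˣ) : 𝓞 X) : X) ^ 2 := by
      push_cast
      rw [map_mul]
      ring
    rw [h2]
    positivity
  let P : Finset (Fin n) → (𝓞 X)ˣ := fun S => ∏ i ∈ S, e i
  have hPS : ∀ S, (∀ f : X →+* ℝ, 0 < f (((P S : (𝓞 X)ˣ) : 𝓞 X) : X)) → S = ∅ := by
    intro S hS
    by_contra hne
    obtain ⟨f, hf⟩ := hind S (Finset.nonempty_iff_ne_empty.2 hne)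
    exact absurd (hS f) (not_lt.2 hf.le)
  have hinj : Function.Injective (fun S => c (P S)) := by
    intro S T hST
    have h1 : IsSquare (P S * P T) := hcc _ _ hST
    have h2 : P S * P T = P (symmDiff S T) * (P (S ∩ T)) ^ 2 := by
      simp only [P]
      have hS : S = (S \ T) ∪ (S ∩ T) := by
        ext i; simp only [Finset.mem_union, Finset.mem_sdiff, Finset.mem_inter]; tauto
      have hT : T = (T \ S) ∪ (S ∩ T) := by
        ext i; simp only [Finset.mem_union, Finset.mem_sdiff, Finset.mem_inter]; tauto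
      have hd1 : Disjoint (S \ T) (S ∩ T) := by
        rw [Finset.disjoint_left]; intro i; simp only [Finset.mem_sdiff, Finset.mem_inter]; tauto
      have hd2 : Disjoint (T \ S) (S ∩ T) := by
        rw [Finset.disjoint_left]; intro i; simp only [Finset.mem_sdiff, Finset.mem_inter]; tauto
      have hd3 : Disjoint (S \ T) (T \ S) := by
        rw [Finset.disjoint_left]; intro i; simp only [Finset.mem_sdiff]; tauto
      have e1 : ∏ i ∈ S, e i = (∏ i ∈ S \ T, e i) * ∏ i ∈ S ∩ T, e i := by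
        rw [← Finset.prod_union hd1, ← hS]
      have e2 : ∏ i ∈ T, e i = (∏ i ∈ T \ S, e i) * ∏ i ∈ S ∩ T, e i := by
        rw [← Finset.prod_union hd2, ← hT]
      have e3 : ∏ i ∈ symmDiff S T, e i = (∏ i ∈ S \ T, e i) * ∏ i ∈ T \ S, e i := by
        rw [← Finset.prod_union hd3]
        rfl
      rw [e1, e2, e3, pow_two]
      simp only [mul_comm, mul_left_comm, mul_assoc]
    rw [h2] at h1
    have h3 : IsSquare (P (symmDiff S T)) := isSquare_of_mul_isSquare h1 (IsSquare.sq _)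
    have h4 := hPS _ (hsq _ h3)
    exact symmDiff_eq_bot.1 h4
  have hcard : Fintype.card (Fin 2 × (Fin (rank X) → Fin 2)) ≤ Fintype.card (Finset (Fin n)) := by
    simp only [Fintype.card_prod, Fintype.card_fin, Fintype.card_pi, Finset.prod_const,
      Finset.card_univ, Fintype.card_finset]
    rw [← pow_succ']
    refine Nat.pow_le_pow_right (by norm_num) ?_
    have h1 := InfinitePlace.card_add_two_mul_card_eq_rank X
    have h2 := InfinitePlace.card_eq_nrRealPlaces_add_nrComplexPlaces X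
    have h3 : 0 < Fintype.card (InfinitePlace X) := Fintype.card_pos
    unfold rank
    omega
  have hsurj : Function.Surjective (fun S => c (P S)) := by
    have hb := (Fintype.bijective_iff_injective_and_card (fun S => c (P S))).2
      ⟨hinj, le_antisymm (Fintype.card_le_of_injective _ hinj) hcard⟩
    exact hb.2
  obtain ⟨S, hS⟩ := hsurj (c u)
  have h1 : IsSquare (P S * u) := hcc _ _ hS
  have h2 : S = ∅ := by
    apply hPS
    intro f
    have h3 := hsq _ h1 f
    push_cast at h3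
    rw [map_mul] at h3
    exact pos_of_mul_pos_left h3 (hu f).le
  have h4 : P S = 1 := by simp [P, h2]
  rw [h4, one_mul] at h1
  exact h1

end MZ413
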