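import Mathlib
import Pool.Agent.W413.MZ.Base
import Pool.Agent.W413.MZ.Units

/-!
# MP_aa8fd2_nt, FIELD: embeddings and signs
-/

namespace MZ413

open NumberField Module

variable {X : Type} [Field X] [NumberField X]

theorem algebraMap_ev {f v w : 𝓞 X} {R : Type*} [CommRing R] (F : X →+* R) (t : E6) :
    F (algebraMap (𝓞 X) X (ev f v w t)) =
      ev (F (algebraMap (𝓞 X) X f)) (F (algebraMap (𝓞 X) X v)) (F (algebraMap (𝓞 X) X w)) t := by
  simp only [ev, ev5, map_add, map_mul, map_intCast]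

theorem emb_ext {f v w : 𝓞 X} (b : Basis (Fin 6) ℚ X)
    (hb : ∀ i, b i = algebraMap (𝓞 X) X (ev f v w (E6.base i))) {R : Type*} [Field R]
    [Algebra ℚ R] (F G : X →+* R)
    (h1 : F (algebraMap (𝓞 X) X f) = G (algebraMap (𝓞 X) X f))
    (h2 : F (algebraMap (𝓞 X) X v) = G (algebraMap (𝓞 X) X v))
    (h3 : F (algebraMap (𝓞 X) X w) = G (algebraMap (𝓞 X) X w)) : F = G := by
  have h : (F.toRatAlgHom : X →ₐ[ℚ] R) = G.toRatAlgHom := by
    apply AlgHom.toLinearMap_injective
    apply b.ext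
    intro i
    rw [hb]
    change F _ = G _
    rw [algebraMap_ev, algebraMap_ev, h1, h2, h3]
  ext x
  exact congrArg (fun F : X →ₐ[ℚ] R => F x) h

/-- a table `T` of real triples containing the values of all complex embeddings -/
theorem embs (hX : finrank ℚ X = 6) {f v w : 𝓞 X} (b : Basis (Fin 6) ℚ X)
    (hb : ∀ i, b i = algebraMap (𝓞 X) X (ev f v w (E6.base i))) (g u z : Fin 6 → ℝ)
    (h : ∀ F : X →+* ℂ, ∃ i, F (algebraMap (𝓞 X) X f) = (g i : ℂ) ∧
      F (algebraMap (𝓞 X) X v) = (u i : ℂ) ∧ F (algebraMap (𝓞 X) X w) = (z i : ℂ)) :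
    (∀ i, ∃ G : X →+* ℝ, G (algebraMap (𝓞 X) X f) = g i ∧ G (algebraMap (𝓞 X) X v) = u i ∧
      G (algebraMap (𝓞 X) X w) = z i) ∧ InfinitePlace.nrComplexPlaces X = 0 := by
  classical
  choose i hi using h
  have hinj : Function.Injective i := by
    intro F G hFG
    have hF := hi F
    have hG := hi G
    rw [hFG] at hF
    exact emb_ext b hb F G (hF.1.trans hG.1.symm) (hF.2.1.trans hG.2.1.symm)
      (hF.2.2.trans hG.2.2.symm)
  have hbij : Function.Bijective i := by
    rw [Fintype.bijective_iff_injective_and_card]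
    exact ⟨hinj, by rw [NumberField.Embeddings.card X ℂ, hX, Fintype.card_fin]⟩
  have hreal : ∀ F : X →+* ℂ, ComplexEmbedding.IsReal F := by
    intro F
    rw [ComplexEmbedding.isReal_iff]
    have hF := hi F
    refine emb_ext b hb _ _ ?_ ?_ ?_
    · rw [ComplexEmbedding.conjugate_coe_eq, hF.1, Complex.conj_ofReal]
    · rw [ComplexEmbedding.conjugate_coe_eq, hF.2.1, Complex.conj_ofReal]
    · rw [ComplexEmbedding.conjugate_coe_eq, hF.2.2, Complex.conj_ofReal]
  constructor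
  · intro j
    obtain ⟨F, rfl⟩ := hbij.2 j
    have hF := hi F
    refine ⟨(hreal F).embedding, ?_, ?_, ?_⟩
    · have := hF.1
      rw [← ComplexEmbedding.IsReal.coe_embedding_apply (hreal F)] at this
      exact_mod_cast this
    · have := hF.2.1
      rw [← ComplexEmbedding.IsReal.coe_embedding_apply (hreal F)] at this
      exact_mod_cast this
    · have := hF.2.2
      rw [← ComplexEmbedding.IsReal.coe_embedding_apply (hreal F)] at this
      exact_mod_cast this
  · rw [nrComplexPlaces_eq_zero_iff, isTotallyReal_iff]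
    intro p
    rw [← InfinitePlace.mk_embedding p, InfinitePlace.isReal_mk_iff]
    exact hreal _

theorem sign_prod {n : ℕ} (x : Fin n → ℝ) (A : Fin n → Bool)
    (h : ∀ i, if A i then x i < 0 else 0 < x i) (S : Finset (Fin n)) :
    0 < (-1) ^ (S.filter (fun i => A i = true)).card * ∏ i ∈ S, x i := by
  classical
  induction S using Finset.induction_on with
  | empty => simp
  | insert a S ha ih =>
    rw [Finset.prod_insert ha, Finset.filter_insert]
    have hx := h a
    by_cases hA : A a = true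
    · rw [if_pos hA] at hx ⊢
      rw [Finset.card_insert_of_notMem (by simp [ha]), pow_succ]
      have := mul_pos ih (neg_pos.2 hx)
      linarith
    · rw [if_neg hA] at hx ⊢
      have := mul_pos ih hx
      linarith

/-- totally positive units are squares, from a sign table -/
theorem units_of_table (hX : finrank ℚ X = 6) {f v w : 𝓞 X} (P : Par) (hf : f ^ 2 = f + 1)
    (h1 : v * v = ev f v w P.p) (h2 : v * w = ev f v w P.q) (h3 : w * w = ev f v w P.r)
    (g u z : Fin 6 → ℝ)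
    (hG : ∀ i, ∃ G : X →+* ℝ, G (algebraMap (𝓞 X) X f) = g i ∧ G (algebraMap (𝓞 X) X v) = u i ∧
      G (algebraMap (𝓞 X) X w) = z i)
    (t t' : Fin 6 → E6) (htt : ∀ i, E6.mul P (t i) (t' i) = E6.mk6 1 0 0 0 0 0)
    (A : Fin 6 → Fin 6 → Bool)
    (hA : ∀ j i, if A j i then ev (g j) (u j) (z j) (t i) < 0 else 0 < ev (g j) (u j) (z j) (t i))
    (hdec : ∀ S : Finset (Fin 6), S.Nonempty →
      ∃ j, Odd (S.filter (fun i => A j i = true)).card)
    (x : (𝓞 X)ˣ) (hx : ∀ F : X →+* ℝ, 0 < F ((x : 𝓞 X) : X)) : IsSquare x := by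
  have hmul : ∀ i, ev f v w (t i) * ev f v w (t' i) = 1 := by
    intro i
    rw [← ev_mul P hf h1 h2 h3, htt]
    simp [ev, ev5, E6.mk6]
  let e : Fin 6 → (𝓞 X)ˣ := fun i =>
    ⟨ev f v w (t i), ev f v w (t' i), hmul i, by rw [mul_comm]; exact hmul i⟩
  refine pos_unit_isSquare 6 hX e ?_ x hx
  intro S hS
  obtain ⟨j, hj⟩ := hdec S hS
  obtain ⟨G, hg, hu, hz⟩ := hG j
  refine ⟨G, ?_⟩
  have hval : G (((∏ i ∈ S, e i : (𝓞 X)ˣ) : 𝓞 X) : X) = ∏ i ∈ S, ev (g j) (u j) (z j) (t i) := by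
    rw [Units.coe_prod]
    have : ((∏ i ∈ S, ((e i : (𝓞 X)ˣ) : 𝓞 X) : 𝓞 X) : X) = ∏ i ∈ S, algebraMap (𝓞 X) X (ev f v w (t i)) := by
      change algebraMap (𝓞 X) X (∏ i ∈ S, ((e i : (𝓞 X)ˣ) : 𝓞 X)) = _
      rw [map_prod]
    rw [this, map_prod]
    refine Finset.prod_congr rfl fun i _ => ?_
    rw [algebraMap_ev, hg, hu, hz]
  rw [hval]
  have hs := sign_prod (fun i => ev (g j) (u j) (z j) (t i)) (A j) (hA j) S
  rw [hj.neg_one_pow] at hs
  linarith

end MZ413
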