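import Mathlib
import Pool.Agent.W413.MZ.Base

/-!
# MP_aa8fd2_nt, FIELD: prime ideals of small norm
-/

namespace MZ413

open NumberField Module Ideal

variable {X : Type} [Field X] [NumberField X]

theorem isMax (Q : Ideal (𝓞 X)) [hQ : Q.IsPrime] (h0 : Q ≠ ⊥) : Q.IsMaximal :=
  hQ.isMaximal h0

theorem card_quot (Q : Ideal (𝓞 X)) : Nat.card (𝓞 X ⧸ Q) = absNorm Q := by
  rw [absNorm_apply]; rfl

theorem exists_prime_pow (Q : Ideal (𝓞 X)) [hQ : Q.IsPrime] (h0 : Q ≠ ⊥) :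
    ∃ p k : ℕ, p.Prime ∧ 0 < k ∧ absNorm Q = p ^ k ∧ (p : 𝓞 X) ∈ Q := by
  have hmax := isMax Q h0
  letI : Field (𝓞 X ⧸ Q) := Ideal.Quotient.field Q
  have hfin : Finite (𝓞 X ⧸ Q) := (absNorm_ne_zero_iff Q).1 (fun h => h0 (absNorm_eq_zero_iff.1 h))
  letI : Fintype (𝓞 X ⧸ Q) := Fintype.ofFinite _
  obtain ⟨p, hp, n, hpr, hcard⟩ := FiniteField.card' (𝓞 X ⧸ Q)
  refine ⟨p, n, hpr, n.pos, ?_, ?_⟩
  · rw [← card_quot, Nat.card_eq_fintype_card, hcard]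
  · rw [← Ideal.Quotient.eq_zero_iff_mem, map_natCast]
    exact CharP.cast_eq_zero _ p

theorem int_mem_iff (Q : Ideal (𝓞 X)) [hQ : Q.IsPrime] {p : ℕ} (hp : p.Prime)
    (hpQ : (p : 𝓞 X) ∈ Q) (n : ℤ) : (n : 𝓞 X) ∈ Q ↔ (p : ℤ) ∣ n := by
  constructor
  · intro h
    by_contra hnd
    have hco : IsCoprime (p : ℤ) n := by
      rw [Int.isCoprime_iff_gcd_eq_one]
      have := (Nat.Prime.coprime_iff_not_dvd hp (n := n.natAbs)).2 (by
        intro hd; exact hnd (Int.natCast_dvd.2 hd))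
      simpa [Int.gcd] using this
    obtain ⟨a, b, hab⟩ := hco
    apply hQ.ne_top
    rw [Ideal.eq_top_iff_one]
    have : (1 : 𝓞 X) = (a : 𝓞 X) * (p : 𝓞 X) + (b : 𝓞 X) * (n : 𝓞 X) := by
      have h2 := congrArg (Int.cast : ℤ → 𝓞 X) hab
      push_cast at h2
      exact h2.symm
    rw [this]
    exact Q.add_mem (Q.mul_mem_left _ hpQ) (Q.mul_mem_left _ h)
  · rintro ⟨c, rfl⟩
    push_cast
    exact Q.mul_mem_right _ hpQ

theorem exists_int_sub_mem (Q : Ideal (𝓞 X)) [hQ : Q.IsPrime] {p : ℕ} (hp : p.Prime)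
    (hN : absNorm Q = p) (x : 𝓞 X) : ∃ n : ℤ, x - n ∈ Q := by
  haveI : Fact p.Prime := ⟨hp⟩
  have hc : Nat.card (𝓞 X ⧸ Q) = p := by rw [card_quot, hN]
  have h1 : (1 : 𝓞 X ⧸ Q) ≠ 0 := by
    rw [← map_one (Ideal.Quotient.mk Q), Ne, Ideal.Quotient.eq_zero_iff_mem,
      ← Ideal.eq_top_iff_one]
    exact hQ.ne_top
  have h2 : Ideal.Quotient.mk Q x ∈ AddSubgroup.zmultiples (1 : 𝓞 X ⧸ Q) :=
    mem_zmultiples_of_prime_card hc h1
  obtain ⟨n, hn⟩ := h2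
  refine ⟨n, ?_⟩
  rw [← Ideal.Quotient.eq_zero_iff_mem, map_sub, map_intCast, ← hn]
  simp

theorem eq_span_of_absNorm (Q : Ideal (𝓞 X)) (α : 𝓞 X) (hα : α ∈ Q) (hα0 : α ≠ 0)
    (h : absNorm Q = absNorm (span {α})) : Q = span {α} := by
  obtain ⟨J, hJ⟩ := Ideal.dvd_iff_le.2 ((span_singleton_le_iff_mem Q).2 hα)
  have hne : absNorm Q ≠ 0 := by
    rw [h, Ne, absNorm_eq_zero_iff, span_singleton_eq_bot]
    exact hα0
  have h1 : absNorm J = 1 := by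
    have h2 := congrArg absNorm hJ
    rw [map_mul, ← h] at h2
    exact (Nat.eq_of_mul_eq_mul_left (Nat.pos_of_ne_zero hne) (by rw [mul_one]; exact h2)).symm
  rw [absNorm_eq_one_iff] at h1
  rw [hJ, h1, Ideal.mul_top]

theorem eq_span_of_maximal (Q : Ideal (𝓞 X)) (hQ : Q.IsPrime) (α : 𝓞 X) (hα : α ∈ Q)
    (hle : Q ≤ span {α}) : Q = span {α} :=
  le_antisymm hle ((span_singleton_le_iff_mem Q).2 hα)

/-- `π ^ 3 = p u` : norm of `π` -/
theorem absNorm_cube (hX : finrank ℚ X = 6) {p : ℕ} (π u : 𝓞 X) (hu : IsUnit u)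
    (h : π ^ 3 = p * u) : absNorm (span {π}) = p ^ 2 := by
  have h1 : absNorm (span {π}) ^ 3 = (p ^ 2) ^ 3 := by
    rw [← map_pow, Ideal.span_singleton_pow, h, ← Ideal.span_singleton_mul_span_singleton,
      Ideal.span_singleton_eq_top.2 hu, Ideal.mul_top, absNorm_span_natCast,
      RingOfIntegers.rank, hX]
    ring
  exact Nat.pow_left_injective (by norm_num : 3 ≠ 0) h1

/-- a prime `p` inert in `ℚ(√5)` with `π ^ 3 = p u` -/
theorem eq_span_of_cube (hX : finrank ℚ X = 6) {p : ℕ} (hp : p.Prime) (f : 𝓞 X)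
    (hf : f ^ 2 = f + 1) (hno : ∀ a : ZMod p, a ^ 2 ≠ a + 1) (π u : 𝓞 X) (hu : IsUnit u)
    (h : π ^ 3 = p * u) (Q : Ideal (𝓞 X)) [hQ : Q.IsPrime] (hpQ : (p : 𝓞 X) ∈ Q) :
    Q = span {π} := by
  have hπQ : π ∈ Q := by
    apply hQ.mem_of_pow_mem 3
    rw [h]
    exact Q.mul_mem_right _ hpQ
  have hp0 : (p : 𝓞 X) ≠ 0 := by exact_mod_cast hp.ne_zero
  have hπ0 : π ≠ 0 := by
    rintro rfl
    have : (p : 𝓞 X) * u = 0 := by rw [← h]; ring
    rcases mul_eq_zero.1 this with h1 | h1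
    · exact hp0 h1
    · exact hu.ne_zero h1
  have hN := absNorm_cube hX π u hu h
  apply eq_span_of_absNorm Q π hπQ hπ0
  rw [hN]
  have hdvd : absNorm Q ∣ p ^ 2 := by
    rw [← hN]
    exact absNorm_dvd_absNorm_of_le ((span_singleton_le_iff_mem Q).2 hπQ)
  obtain ⟨k, hk, hk'⟩ := (Nat.dvd_prime_pow hp).1 hdvd
  interval_cases k
  · exfalso
    simp only [pow_zero] at hk'
    exact hQ.ne_top (absNorm_eq_one_iff.1 hk')
  · exfalso
    simp only [pow_one] at hk'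
    obtain ⟨n, hn⟩ := exists_int_sub_mem Q hp hk' f
    have h1 : ((n ^ 2 - n - 1 : ℤ) : 𝓞 X) ∈ Q := by
      have h2 : ((n ^ 2 - n - 1 : ℤ) : 𝓞 X) = -(f - n) * (f + n - 1) := by
        push_cast
        linear_combination hf
      rw [h2]
      exact Q.mul_mem_right _ (Q.neg_mem hn)
    rw [int_mem_iff Q hp hpQ] at h1
    have h3 := (ZMod.intCast_zmod_eq_zero_iff_dvd _ _).2 h1
    apply hno (n : ZMod p)
    push_cast at h3
    linear_combination h3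
  · exact hk'

/-- the (unique) prime above `p` -/
theorem prime_of_unique (hX : finrank ℚ X = 6) {p : ℕ} (hp : p.Prime) (π : 𝓞 X) (hπ0 : π ≠ 0)
    (h : ∀ Q : Ideal (𝓞 X), Q.IsPrime → (p : 𝓞 X) ∈ Q → Q = span {π}) : Prime π := by
  have h1 : span {(p : 𝓞 X)} ≠ ⊤ := by
    intro h2
    have h3 := congrArg absNorm h2
    rw [absNorm_span_natCast, absNorm_top, RingOfIntegers.rank, hX] at h3
    have := hp.one_lt
    have h4 : 1 < p ^ 6 := Nat.one_lt_pow (by norm_num) this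
    omega
  obtain ⟨Q, hQ, hle⟩ := Ideal.exists_le_maximal _ h1
  have h2 := h Q hQ.isPrime (hle (mem_span_singleton_self _))
  rw [← Ideal.span_singleton_prime hπ0, ← h2]
  exact hQ.isPrime

/-- membership of an evaluated element -/
theorem ev_sub_mem {f v w : 𝓞 X} (Q : Ideal (𝓞 X)) {a b c : ℤ} (ha : f - a ∈ Q) (hb : v - b ∈ Q)
    (hc : w - c ∈ Q) (t : E6) : ev f v w t - ((ev a b c t : ℤ) : 𝓞 X) ∈ Q := by
  rw [← Ideal.Quotient.eq_zero_iff_mem] at *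
  simp only [map_sub, sub_eq_zero] at *
  simp only [ev, ev5]
  push_cast
  simp only [map_add, map_mul, ha, hb, hc]

/-- type I certificates -/
theorem typeI {f v w : 𝓞 X} {m : ℤ} (hm : ∀ z : 𝓞 X, ∃ t : E6, (m : 𝓞 X) * z = ev f v w t)
    {p : ℕ} (hp : p.Prime) (hpm : ¬ (p : ℤ) ∣ m) (Q : Ideal (𝓞 X)) [hQ : Q.IsPrime]
    (hpQ : (p : 𝓞 X) ∈ Q) {a b c : ℤ} {α β γ₁ γ₂ γ₃ : 𝓞 X} (h0 : α * β = p)
    (h1 : f - a = α * γ₁) (h2 : v - b = α * γ₂) (h3 : w - c = α * γ₃) (hα : α ∈ Q) :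
    Q = span {α} := by
  apply eq_span_of_maximal Q hQ α hα
  have e1 : f - a ∈ span {α} := mem_span_singleton.2 ⟨_, h1⟩
  have e2 : v - b ∈ span {α} := mem_span_singleton.2 ⟨_, h2⟩
  have e3 : w - c ∈ span {α} := mem_span_singleton.2 ⟨_, h3⟩
  have e0 : (p : 𝓞 X) ∈ span {α} := mem_span_singleton.2 ⟨_, h0.symm⟩
  have hαQ : span {α} ≤ Q := (span_singleton_le_iff_mem Q).2 hα
  intro z hz
  obtain ⟨t, ht⟩ := hm z
  have h4 := ev_sub_mem (span {α}) e1 e2 e3 t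
  have h5 : ((ev a b c t : ℤ) : 𝓞 X) ∈ Q := by
    have h6 : ((ev a b c t : ℤ) : 𝓞 X) = (m : 𝓞 X) * z - (ev f v w t - ((ev a b c t : ℤ) : 𝓞 X)) := by
      rw [ht]; ring
    rw [h6]
    exact Q.sub_mem (Q.mul_mem_left _ hz) (hαQ h4)
  rw [int_mem_iff Q hp hpQ] at h5
  obtain ⟨d, hd⟩ := h5
  have h6 : (m : 𝓞 X) * z ∈ span {α} := by
    have h7 : (m : 𝓞 X) * z = (ev f v w t - ((ev a b c t : ℤ) : 𝓞 X)) + (p : 𝓞 X) * (d : 𝓞 X) := by
      rw [ht, hd]; push_cast; ring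
    rw [h7]
    exact (span {α}).add_mem h4 ((span {α}).mul_mem_right _ e0)
  have hco : IsCoprime (p : ℤ) m := by
    rw [Int.isCoprime_iff_gcd_eq_one]
    have := (Nat.Prime.coprime_iff_not_dvd hp (n := m.natAbs)).2 (by
      intro hd; exact hpm (Int.natCast_dvd.2 hd))
    simpa [Int.gcd] using this
  obtain ⟨x, y, hxy⟩ := hco
  have h8 : z = (x : 𝓞 X) * z * (p : 𝓞 X) + (y : 𝓞 X) * ((m : 𝓞 X) * z) := by
    have h9 := congrArg (Int.cast : ℤ → 𝓞 X) hxy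
    push_cast at h9
    linear_combination (-z) * h9
  rw [h8]
  exact (span {α}).add_mem ((span {α}).mul_mem_left _ e0) ((span {α}).mul_mem_left _ h6)

end MZ413
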