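import Mathlib
import Pool.Agent.W413.MZ.Ideals
import Pool.Agent.W413.MZ.Emb

/-!
# MP_aa8fd2_nt, FIELD: Minkowski bound and certificates
-/

namespace MZ413

open NumberField Module Ideal

variable {X : Type} [Field X] [NumberField X]

/-- index relation from a structure table -/
theorem exists_m {f v w : 𝓞 X} (P : Par) (hf : f ^ 2 = f + 1)
    (h1 : v * v = ev f v w P.p) (h2 : v * w = ev f v w P.q) (h3 : w * w = ev f v w P.r)
    (b : Basis (Fin 6) ℚ X)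
    (hb : ∀ i, b i = algebraMap (𝓞 X) X (ev f v w (E6.base i))) {D : ℤ} (hD : (Tm P).det = D) :
    ∃ m : ℤ, m ^ 2 * discr X = D ∧ m ≠ 0 ∧ ∀ z : 𝓞 X, ∃ t : E6, (m : 𝓞 X) * z = ev f v w t := by
  have hdisc : Algebra.discr ℚ b = D := by
    rw [discr_of_struct b (cst P), ← hD]
    · rfl
    · intro i j
      rw [hb, hb, ← map_mul, ← ev_mul P hf h1 h2 h3, ev_eq_sum, map_sum]
      refine Finset.sum_congr rfl fun k _ => ?_
      rw [← ev_base, map_mul, hb, map_intCast]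
      rfl
  obtain ⟨m, hm, hm0, hz⟩ := exists_index b (fun i => ev f v w (E6.base i)) hb D hdisc
  refine ⟨m, hm, hm0, fun z => ?_⟩
  obtain ⟨c, hc⟩ := hz z
  refine ⟨E6.mk6 (c 0) (c 1) (c 2) (c 3) (c 4) (c 5), ?_⟩
  rw [hc, Fin.sum_univ_six]
  simp [ev, ev5, E6.base, E6.mk6]
  ring

theorem pid_of (hX : finrank ℚ X = 6) (hc : InfinitePlace.nrComplexPlaces X = 0) {D m : ℤ}
    (hm : m ^ 2 * discr X = D) (hm0 : m ≠ 0) (B : ℕ) (hB : (D : ℝ) < (64.8 * (B + 1)) ^ 2)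
    (h : ∀ Q : Ideal (𝓞 X), Q.IsPrime → Q ≠ ⊥ → absNorm Q ≤ B → ∃ α, Q = span {α}) :
    IsPrincipalIdealRing (𝓞 X) := by
  apply RingOfIntegers.isPrincipalIdealRing_of_isPrincipal_of_norm_le_of_isPrime
  intro I hI hN
  have hI0 : (I : Ideal (𝓞 X)) ≠ ⊥ := by
    have := nonZeroDivisors.coe_ne_zero I
    simpa using this
  suffices hBB : absNorm (I : Ideal (𝓞 X)) ≤ B by
    obtain ⟨α, hα⟩ := h I hI hI0 hBB
    exact ⟨⟨α, hα⟩⟩
  rw [hc, hX] at hN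
  have hle : |discr X| ≤ D := by
    have h1 : 0 ≤ D := by
      rw [← hm]
      have h2 : 0 < discr X := by
        have := NumberField.sign_discr X
        rw [hc, pow_zero] at this
        exact Int.sign_eq_one_iff_pos.1 this
      positivity
    have h3 : |D| = m ^ 2 * |discr X| := by rw [← hm, abs_mul, abs_of_nonneg (sq_nonneg m)]
    rw [abs_of_nonneg h1] at h3
    rw [h3]
    have h4 : 1 ≤ m ^ 2 := by
      have : 0 < m ^ 2 := by positivity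
      linarith
    nlinarith [abs_nonneg (discr X)]
  have hle' : |((discr X : ℤ) : ℝ)| ≤ D := by exact_mod_cast hle
  have hsq : √|((discr X : ℤ) : ℝ)| < 64.8 * (B + 1) := by
    rw [Real.sqrt_lt' (by positivity)]
    linarith
  have h6 : ((Nat.factorial 6 : ℕ) : ℝ) / ((6 : ℕ) : ℝ) ^ 6 = 1 / 64.8 := by
    norm_num [Nat.factorial]
  have h7 : (absNorm (I : Ideal (𝓞 X)) : ℝ) < B + 1 := by
    refine lt_of_le_of_lt hN ?_
    rw [pow_zero, one_mul]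
    rw [h6]
    have h8 : (1 : ℝ) / 64.8 * √|((discr X : ℤ) : ℝ)| < 1 / 64.8 * (64.8 * (B + 1)) :=
      mul_lt_mul_of_pos_left hsq (by norm_num)
    refine h8.trans_le (le_of_eq ?_)
    field_simp
  have h9 : absNorm (I : Ideal (𝓞 X)) < B + 1 := by exact_mod_cast h7
  omega

/-- residues at a prime of degree one -/
theorem residues {f v w : 𝓞 X} (P : Par) (hf : f ^ 2 = f + 1)
    (h1 : v * v = ev f v w P.p) (h2 : v * w = ev f v w P.q) (h3 : w * w = ev f v w P.r)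
    (Q : Ideal (𝓞 X)) [hQ : Q.IsPrime] {p : ℕ} (hp : p.Prime) (hpQ : (p : 𝓞 X) ∈ Q)
    (hN : absNorm Q = p) :
    ∃ a b c : ℤ, (f - a ∈ Q ∧ v - b ∈ Q ∧ w - c ∈ Q) ∧
      (a : ZMod p) ^ 2 = a + 1 ∧ (b : ZMod p) * b = ev (a : ZMod p) b c P.p ∧
      (b : ZMod p) * c = ev (a : ZMod p) b c P.q ∧ (c : ZMod p) * c = ev (a : ZMod p) b c P.r := by
  obtain ⟨a, ha⟩ := exists_int_sub_mem Q hp hN f
  obtain ⟨b, hb⟩ := exists_int_sub_mem Q hp hN v
  obtain ⟨c, hc⟩ := exists_int_sub_mem Q hp hN w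
  have key : ∀ n : ℤ, (n : 𝓞 X) ∈ Q → (n : ZMod p) = 0 := by
    intro n hn
    rw [int_mem_iff Q hp hpQ] at hn
    exact (ZMod.intCast_zmod_eq_zero_iff_dvd _ _).2 hn
  have hcast : ∀ t : E6, ((ev a b c t : ℤ) : ZMod p) = ev (a : ZMod p) b c t := by
    intro t
    simp only [ev, ev5]
    push_cast
    rfl
  refine ⟨a, b, c, ⟨ha, hb, hc⟩, ?_, ?_, ?_, ?_⟩
  · have h4 : ((a ^ 2 - a - 1 : ℤ) : 𝓞 X) ∈ Q := by
      have h5 : ((a ^ 2 - a - 1 : ℤ) : 𝓞 X) = -(f - a) * (f + a - 1) := by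
        push_cast
        linear_combination hf
      rw [h5]
      exact Q.mul_mem_right _ (Q.neg_mem ha)
    have h6 := key _ h4
    push_cast at h6
    linear_combination h6
  · have h4 : ((b * b - ev a b c P.p : ℤ) : 𝓞 X) ∈ Q := by
      have h5 : ((b * b - ev a b c P.p : ℤ) : 𝓞 X) =
          -(v - b) * (v + b) + (ev f v w P.p - ((ev a b c P.p : ℤ) : 𝓞 X)) := by
        rw [← h1]; push_cast; ring
      rw [h5]
      exact Q.add_mem (Q.mul_mem_right _ (Q.neg_mem hb)) (ev_sub_mem Q ha hb hc _)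
    have h6 := key _ h4
    rw [← hcast]
    push_cast at h6 ⊢
    linear_combination h6
  · have h4 : ((b * c - ev a b c P.q : ℤ) : 𝓞 X) ∈ Q := by
      have h5 : ((b * c - ev a b c P.q : ℤ) : 𝓞 X) =
          -(v - b) * w - b * (w - c) + (ev f v w P.q - ((ev a b c P.q : ℤ) : 𝓞 X)) := by
        rw [← h2]; push_cast; ring
      rw [h5]
      exact Q.add_mem (Q.sub_mem (Q.mul_mem_right _ (Q.neg_mem hb)) (Q.mul_mem_left _ hc))
        (ev_sub_mem Q ha hb hc _)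
    have h6 := key _ h4
    rw [← hcast]
    push_cast at h6 ⊢
    linear_combination h6
  · have h4 : ((c * c - ev a b c P.r : ℤ) : 𝓞 X) ∈ Q := by
      have h5 : ((c * c - ev a b c P.r : ℤ) : 𝓞 X) =
          -(w - c) * (w + c) + (ev f v w P.r - ((ev a b c P.r : ℤ) : 𝓞 X)) := by
        rw [← h3]; push_cast; ring
      rw [h5]
      exact Q.add_mem (Q.mul_mem_right _ (Q.neg_mem hc)) (ev_sub_mem Q ha hb hc _)
    have h6 := key _ h4
    rw [← hcast]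
    push_cast at h6 ⊢
    linear_combination h6

/-- replace residues -/
theorem sub_mem_of_eq {x : 𝓞 X} (Q : Ideal (𝓞 X)) [hQ : Q.IsPrime] {p : ℕ} (hp : p.Prime)
    (hpQ : (p : 𝓞 X) ∈ Q) {a a' : ℤ} (ha : x - a ∈ Q) (h : (a : ZMod p) = a') : x - a' ∈ Q := by
  have h1 : (p : ℤ) ∣ a - a' := by
    rw [← ZMod.intCast_zmod_eq_zero_iff_dvd]
    push_cast
    rw [h, sub_self]
  have h2 : ((a - a' : ℤ) : 𝓞 X) ∈ Q := (int_mem_iff Q hp hpQ _).2 h1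
  have h3 : x - a' = (x - a) + ((a - a' : ℤ) : 𝓞 X) := by push_cast; ring
  rw [h3]
  exact Q.add_mem ha h2

/-- certificate check -/
def chk (P : Par) (p a b c : ℤ) (α β γ₁ γ₂ γ₃ : E6) : Bool :=
  decide (E6.mul P α β = E6.mk6 p 0 0 0 0 0) && decide (E6.mul P α γ₁ = E6.mk6 (-a) 0 0 1 0 0) &&
  decide (E6.mul P α γ₂ = E6.mk6 (-b) 1 0 0 0 0) && decide (E6.mul P α γ₃ = E6.mk6 (-c) 0 1 0 0 0) &&
  decide ((ev a b c α : ℤ) % p = 0)

theorem of_chk {f v w : 𝓞 X} (P : Par) (hf : f ^ 2 = f + 1)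
    (h1 : v * v = ev f v w P.p) (h2 : v * w = ev f v w P.q) (h3 : w * w = ev f v w P.r)
    {m : ℤ} (hm : ∀ z : 𝓞 X, ∃ t : E6, (m : 𝓞 X) * z = ev f v w t)
    {p : ℕ} (hp : p.Prime) (hpm : ¬ (p : ℤ) ∣ m) (Q : Ideal (𝓞 X)) [hQ : Q.IsPrime]
    (hpQ : (p : 𝓞 X) ∈ Q) {a b c : ℤ} (ha : f - a ∈ Q) (hb : v - b ∈ Q) (hc : w - c ∈ Q)
    (α β γ₁ γ₂ γ₃ : E6) (h : chk P p a b c α β γ₁ γ₂ γ₃ = true) : ∃ α, Q = span {α} := by
  simp only [chk, Bool.and_eq_true, decide_eq_true_eq] at h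
  obtain ⟨⟨⟨⟨e0, e1⟩, e2⟩, e3⟩, e4⟩ := h
  refine ⟨ev f v w α, typeI (f := f) (v := v) (w := w) hm hp hpm Q hpQ (a := a) (b := b) (c := c)
    (β := ev f v w β) (γ₁ := ev f v w γ₁) (γ₂ := ev f v w γ₂) (γ₃ := ev f v w γ₃) ?_ ?_ ?_ ?_ ?_⟩
  · rw [← ev_mul P hf h1 h2 h3, e0]; simp [ev, ev5, E6.mk6]
  · rw [← ev_mul P hf h1 h2 h3, e1]; simp [ev, ev5, E6.mk6]; ring
  · rw [← ev_mul P hf h1 h2 h3, e2]; simp [ev, ev5, E6.mk6]; ring
  · rw [← ev_mul P hf h1 h2 h3, e3]; simp [ev, ev5, E6.mk6]; ring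
  · have h5 : ((ev a b c α : ℤ) : 𝓞 X) ∈ Q := (int_mem_iff Q hp hpQ _).2 (Int.dvd_of_emod_eq_zero e4)
    have h6 := ev_sub_mem Q ha hb hc α
    have h7 : ev f v w α = (ev f v w α - ((ev a b c α : ℤ) : 𝓞 X)) + ((ev a b c α : ℤ) : 𝓞 X) := by ring
    rw [h7]
    exact Q.add_mem h6 h5

end MZ413
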