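import Mathlib
import Pool.Agent.W413.MZ.Gen

/-!
# MP_aa8fd2_nt, FIELD: norms as determinants
-/

namespace MZ413

open NumberField Module Ideal

variable {X : Type} [Field X] [NumberField X]

/-- multiplication matrix -/
def Mm (P : Par) (t : E6) : Matrix (Fin 6) (Fin 6) ℤ :=
  Matrix.of fun i j => (E6.mul P t (E6.base j)).coef i

theorem absNorm_ev {f v w : 𝓞 X} (P : Par) (hf : f ^ 2 = f + 1)
    (h1 : v * v = ev f v w P.p) (h2 : v * w = ev f v w P.q) (h3 : w * w = ev f v w P.r)
    (b : Basis (Fin 6) ℚ X)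
    (hb : ∀ i, b i = algebraMap (𝓞 X) X (ev f v w (E6.base i))) (t : E6) {d : ℤ}
    (hd : (Mm P t).det = d) : absNorm (span {ev f v w t}) = d.natAbs := by
  classical
  rw [absNorm_span_singleton]
  congr 1
  have h4 : ((Algebra.norm ℤ (ev f v w t) : ℤ) : ℚ) = (d : ℚ) := by
    rw [Algebra.coe_norm_int, Algebra.norm_eq_matrix_det b]
    have h5 : Algebra.leftMulMatrix b ((ev f v w t : 𝓞 X) : X) = (Mm P t).map (Int.castRingHom ℚ) := by
      ext i j
      rw [Algebra.leftMulMatrix_eq_repr_mul]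
      have h6 : ((ev f v w t : 𝓞 X) : X) * b j = ∑ k, ((Mm P t k j : ℤ) : ℚ) • b k := by
        change algebraMap (𝓞 X) X (ev f v w t) * b j = _
        rw [hb, ← map_mul, ← ev_mul P hf h1 h2 h3, ev_eq_sum, map_sum]
        refine Finset.sum_congr rfl fun k _ => ?_
        rw [← ev_base, map_mul, hb, map_intCast, Algebra.smul_def]
        simp [Mm]
      rw [h6]
      simp [Finsupp.single_apply]
    rw [h5, ← RingHom.mapMatrix_apply, ← RingHom.map_det, hd]
    simp
  exact_mod_cast h4

end MZ413
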