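import Mathlib

/-!
# MP_aa8fd2_nt, FIELD: real roots
-/

namespace MZ413

/-- `(1+√5)/2` -/
noncomputable def gp : ℝ := (1 + √5) / 2
/-- `(1-√5)/2` -/
noncomputable def gm : ℝ := (1 - √5) / 2

theorem sqrt5_bounds : 2.2360679 < √5 ∧ √5 < 2.236068 := by
  constructor
  · apply Real.lt_sqrt_of_sq_lt; norm_num
  · rw [Real.sqrt_lt' (by norm_num)]; norm_num

theorem gp_bounds : 1.618033 < gp ∧ gp < 1.618035 := by
  obtain ⟨h1, h2⟩ := sqrt5_bounds
  unfold gp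
  constructor <;> linarith

theorem gm_bounds : -0.618035 < gm ∧ gm < -0.618033 := by
  obtain ⟨h1, h2⟩ := sqrt5_bounds
  unfold gm
  constructor <;> linarith

theorem gp_sq : gp ^ 2 = gp + 1 := by
  have h : √5 ^ 2 = 5 := Real.sq_sqrt (by norm_num)
  unfold gp
  linear_combination h / 4

theorem gm_sq : gm ^ 2 = gm + 1 := by
  have h : √5 ^ 2 = 5 := Real.sq_sqrt (by norm_num)
  unfold gm
  linear_combination h / 4

theorem golden_cases {z : ℂ} (hz : z ^ 2 = z + 1) : z = (gp : ℂ) ∨ z = (gm : ℂ) := by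
  have h : ((√5 : ℝ) : ℂ) ^ 2 = 5 := by
    rw [← Complex.ofReal_pow, Real.sq_sqrt (by norm_num)]; norm_num
  have h1 : (z - (gp : ℂ)) * (z - (gm : ℂ)) = 0 := by
    unfold gp gm
    push_cast
    linear_combination hz - h / 4
  rcases mul_eq_zero.1 h1 with h2 | h2
  · left; linear_combination h2
  · right; linear_combination h2

theorem exists_root {p : ℝ → ℝ} (hp : Continuous p) {l u : ℝ} (hlu : l < u)
    (h : p l * p u < 0) : ∃ r, l < r ∧ r < u ∧ p r = 0 := by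
  have hne : ∀ x, p x = 0 → (x ≠ l ∧ x ≠ u) := by
    intro x hx
    constructor
    · rintro rfl; rw [hx] at h; simp at h
    · rintro rfl; rw [hx] at h; simp at h
  rcases lt_or_ge (p l) 0 with h1 | h1
  · have h2 : 0 < p u := by
      by_contra h3
      push Not at h3
      nlinarith
    obtain ⟨r, hr, hr0⟩ := intermediate_value_Icc hlu.le hp.continuousOn ⟨h1.le, h2.le⟩
    exact ⟨r, lt_of_le_of_ne hr.1 (hne r hr0).1.symm, lt_of_le_of_ne hr.2 (hne r hr0).2, hr0⟩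
  · have h2 : p u < 0 := by
      by_contra h3
      push Not at h3
      nlinarith
    obtain ⟨r, hr, hr0⟩ := intermediate_value_Icc' hlu.le hp.continuousOn ⟨h2.le, h1⟩
    exact ⟨r, lt_of_le_of_ne hr.1 (hne r hr0).1.symm, lt_of_le_of_ne hr.2 (hne r hr0).2, hr0⟩

/-- three real roots of `x ^ 3 = A x + B` -/
theorem cubic_cases (A B l1 u1 l2 u2 l3 u3 : ℝ) (k1 : l1 < u1) (k12 : u1 ≤ l2) (k2 : l2 < u2)
    (k23 : u2 ≤ l3) (k3 : l3 < u3)
    (h1 : (l1 ^ 3 - A * l1 - B) * (u1 ^ 3 - A * u1 - B) < 0)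
    (h2 : (l2 ^ 3 - A * l2 - B) * (u2 ^ 3 - A * u2 - B) < 0)
    (h3 : (l3 ^ 3 - A * l3 - B) * (u3 ^ 3 - A * u3 - B) < 0) :
    ∃ r1 r2 r3 : ℝ, (l1 < r1 ∧ r1 < u1) ∧ (l2 < r2 ∧ r2 < u2) ∧ (l3 < r3 ∧ r3 < u3) ∧
      ∀ z : ℂ, z ^ 3 = A * z + B → z = (r1 : ℂ) ∨ z = (r2 : ℂ) ∨ z = (r3 : ℂ) := by
  have hcont : Continuous (fun x : ℝ => x ^ 3 - A * x - B) := by fun_prop
  obtain ⟨r1, a1, b1, e1⟩ := exists_root hcont k1 h1
  obtain ⟨r2, a2, b2, e2⟩ := exists_root hcont k2 h2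
  obtain ⟨r3, a3, b3, e3⟩ := exists_root hcont k3 h3
  have n12 : r1 - r2 ≠ 0 := by intro h; linarith
  have n13 : r1 - r3 ≠ 0 := by intro h; linarith
  have n23 : r2 - r3 ≠ 0 := by intro h; linarith
  have s12 : r1 ^ 2 + r1 * r2 + r2 ^ 2 - A = 0 := by
    apply mul_left_cancel₀ n12
    linear_combination e1 - e2
  have s13 : r1 ^ 2 + r1 * r3 + r3 ^ 2 - A = 0 := by
    apply mul_left_cancel₀ n13
    linear_combination e1 - e3
  have sum : r1 + r2 + r3 = 0 := by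
    apply mul_left_cancel₀ n23
    linear_combination s12 - s13
  refine ⟨r1, r2, r3, ⟨a1, b1⟩, ⟨a2, b2⟩, ⟨a3, b3⟩, ?_⟩
  intro z hz
  have hsum : (r1 : ℂ) + r2 + r3 = 0 := by exact_mod_cast sum
  have hs12 : (r1 : ℂ) ^ 2 + r1 * r2 + r2 ^ 2 - A = 0 := by exact_mod_cast s12
  have he1 : (r1 : ℂ) ^ 3 - A * r1 - B = 0 := by
    have e1' : r1 ^ 3 - A * r1 - B = 0 := e1
    exact_mod_cast e1'
  have hr3 : (r3 : ℂ) = -r1 - r2 := by linear_combination hsum
  have key : (z - r1) * ((z - r2) * (z - r3)) = 0 := by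
    rw [hr3]
    linear_combination hz - he1 + (-z + r1) * hs12
  rcases mul_eq_zero.1 key with h | h
  · left; linear_combination h
  rcases mul_eq_zero.1 h with h | h
  · right; left; linear_combination h
  · right; right; linear_combination h

theorem prod_facts {x y x1 x2 y1 y2 : ℝ} (hx1 : x1 < x) (hx2 : x < x2) (hy1 : y1 < y)
    (hy2 : y < y2) : 0 < (x - x1) * (y - y1) ∧ 0 < (x2 - x) * (y2 - y) ∧
      0 < (x - x1) * (y2 - y) ∧ 0 < (x2 - x) * (y - y1) :=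
  ⟨mul_pos (by linarith) (by linarith), mul_pos (by linarith) (by linarith),
    mul_pos (by linarith) (by linarith), mul_pos (by linarith) (by linarith)⟩

end MZ413
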