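import Mathlib
import Pool.Agent.W413.MZ.Gen
import Pool.Agent.W413.MZ.Roots

/-!
# MP_aa8fd2_nt, FIELD: integrality
-/

namespace MZ413

open NumberField Module Ideal Polynomial

variable {X : Type} [Field X] [NumberField X]

theorem isIntegral_of_quad {x : X} (h : x ^ 2 = x + 1) : IsIntegral ℤ x := by
  refine ⟨Polynomial.X ^ 2 - Polynomial.X - 1, by monicity!, ?_⟩
  simp only [eval₂_sub, eval₂_pow, eval₂_X, eval₂_one]
  linear_combination h

theorem isIntegral_of_cubic {x a b c : X} (ha : IsIntegral ℤ a) (hb : IsIntegral ℤ b)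
    (hc : IsIntegral ℤ c) (h : x ^ 3 + a * x ^ 2 + b * x + c = 0) : IsIntegral ℤ x := by
  let A := integralClosure ℤ X
  have hx : IsIntegral A x := by
    refine ⟨Polynomial.X ^ 3 + C (⟨a, ha⟩ : A) * Polynomial.X ^ 2 + C (⟨b, hb⟩ : A) * Polynomial.X
      + C (⟨c, hc⟩ : A), by monicity!, ?_⟩
    simp only [eval₂_add, eval₂_mul, eval₂_pow, eval₂_X, eval₂_C]
    exact h
  exact isIntegral_trans x hx

theorem isIntegral_intCast (n : ℤ) : IsIntegral ℤ (n : X) := by
  simpa using (isIntegral_algebraMap (R := ℤ) (A := X) (x := n))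

theorem O_ext {x y : 𝓞 X} (h : algebraMap (𝓞 X) X x = algebraMap (𝓞 X) X y) : x = y :=
  (FaithfulSMul.algebraMap_injective (𝓞 X) X) h

end MZ413
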