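import Mathlib
import Pool.Agent.W413.MZ.Setup
import Pool.Agent.W413.MZ.Crit
import Pool.Agent.W413.MZ.Norm

/-!
# MP_aa8fd2_nt, FIELD-M : `M = ℚ(√5, u)`, `2u³ - 6u - 1 = 0`
Third basis element `τ = (1 + v + v²/2)/√5`, `v = 2u`.
-/

namespace MZ413

open NumberField Module Ideal MZ294

/-- units of `M` -/
def uM : Fin 6 → E6 := ![E6.mk6 (-1) 0 0 0 0 0, E6.mk6 0 0 0 1 0 0, E6.mk6 (-1) 0 0 0 0 1, E6.mk6 0 1 1 0 0 0, E6.mk6 0 (-1) 1 0 0 0, E6.mk6 0 0 (-1) 1 0 0]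
def uM' : Fin 6 → E6 := ![E6.mk6 (-1) 0 0 0 0 0, E6.mk6 (-1) 0 0 1 0 0, E6.mk6 (-1) 1 1 (-1) (-1) 0, E6.mk6 (-24) (-4) 7 (-36) (-6) 12, E6.mk6 60 10 19 (-36) (-6) (-12), E6.mk6 (-3) (-1) (-1) 2 0 1]
/-- sign table -/
def AM : Fin 6 → Fin 6 → Bool := ![
  ![true, false, false, true, false, false],
  ![true, false, true, true, false, false],
  ![true, false, false, false, false, true],
  ![true, true, true, true, false, false],
  ![true, true, true, true, false, true],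
  ![true, true, false, true, true, false]]

theorem AM_dec : ∀ S : Finset (Fin 6), S.Nonempty →
    ∃ j, Odd (S.filter (fun i => AM j i = true)).card := by
  decide +kernel

theorem signsM0 {g u : ℝ} (h1 : 1.618033 < g) (h2 : g < 1.618035) (h3 : -3.28357 < u) (h4 : u < -3.28356) :
    ∀ i, if AM 0 i then ev g u ((2 * g - 1) * (1 + u + u * u / 2) / 5) (uM i) < 0 else
      0 < ev g u ((2 * g - 1) * (1 + u + u * u / 2) / 5) (uM i) := by
  obtain ⟨y, hy⟩ : ∃ y, y = 1 + u + u * u / 2 := ⟨_, rfl⟩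
  have y1 : 3.10729 < y := by nlinarith
  have y2 : y < 3.10738 := by nlinarith
  rw [← hy]
  obtain ⟨p1, p2, p3, p4⟩ := prod_facts h1 h2 y1 y2
  obtain ⟨z, hz⟩ : ∃ z, z = (2 * g - 1) * y / 5 := ⟨_, rfl⟩
  have h5 : 1.38934 < z := by linarith
  have h6 : z < 1.38994 := by linarith
  obtain ⟨q1, q2, q3, q4⟩ := prod_facts h1 h2 h5 h6
  rw [← hz]
  intro i
  fin_cases i <;> simp [AM, uM, ev, ev5, E6.mk6] <;> linarith

theorem signsM1 {g u : ℝ} (h1 : 1.618033 < g) (h2 : g < 1.618035) (h3 : -0.33651 < u) (h4 : u < -0.33650) :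
    ∀ i, if AM 1 i then ev g u ((2 * g - 1) * (1 + u + u * u / 2) / 5) (uM i) < 0 else
      0 < ev g u ((2 * g - 1) * (1 + u + u * u / 2) / 5) (uM i) := by
  obtain ⟨y, hy⟩ : ∃ y, y = 1 + u + u * u / 2 := ⟨_, rfl⟩
  have y1 : 0.72008 < y := by nlinarith
  have y2 : y < 0.72015 := by nlinarith
  rw [← hy]
  obtain ⟨p1, p2, p3, p4⟩ := prod_facts h1 h2 y1 y2
  obtain ⟨z, hz⟩ : ∃ z, z = (2 * g - 1) * y / 5 := ⟨_, rfl⟩
  have h5 : 0.32174 < z := by linarith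
  have h6 : z < 0.32234 := by linarith
  obtain ⟨q1, q2, q3, q4⟩ := prod_facts h1 h2 h5 h6
  rw [← hz]
  intro i
  fin_cases i <;> simp [AM, uM, ev, ev5, E6.mk6] <;> linarith

theorem signsM2 {g u : ℝ} (h1 : 1.618033 < g) (h2 : g < 1.618035) (h3 : 3.62007 < u) (h4 : u < 3.62008) :
    ∀ i, if AM 2 i then ev g u ((2 * g - 1) * (1 + u + u * u / 2) / 5) (uM i) < 0 else
      0 < ev g u ((2 * g - 1) * (1 + u + u * u / 2) / 5) (uM i) := by
  obtain ⟨y, hy⟩ : ∃ y, y = 1 + u + u * u / 2 := ⟨_, rfl⟩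
  have y1 : 11.17249 < y := by nlinarith
  have y2 : y < 11.17260 := by nlinarith
  rw [← hy]
  obtain ⟨p1, p2, p3, p4⟩ := prod_facts h1 h2 y1 y2
  obtain ⟨z, hz⟩ : ∃ z, z = (2 * g - 1) * y / 5 := ⟨_, rfl⟩
  have h5 : 4.99622 < z := by linarith
  have h6 : z < 4.99682 := by linarith
  obtain ⟨q1, q2, q3, q4⟩ := prod_facts h1 h2 h5 h6
  rw [← hz]
  intro i
  fin_cases i <;> simp [AM, uM, ev, ev5, E6.mk6] <;> linarith

theorem signsM3 {g u : ℝ} (h1 : -0.618035 < g) (h2 : g < -0.618033) (h3 : -3.28357 < u) (h4 : u < -3.28356) :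
    ∀ i, if AM 3 i then ev g u ((2 * g - 1) * (1 + u + u * u / 2) / 5) (uM i) < 0 else
      0 < ev g u ((2 * g - 1) * (1 + u + u * u / 2) / 5) (uM i) := by
  obtain ⟨y, hy⟩ : ∃ y, y = 1 + u + u * u / 2 := ⟨_, rfl⟩
  have y1 : 3.10729 < y := by nlinarith
  have y2 : y < 3.10738 := by nlinarith
  rw [← hy]
  obtain ⟨p1, p2, p3, p4⟩ := prod_facts h1 h2 y1 y2
  obtain ⟨z, hz⟩ : ∃ z, z = (2 * g - 1) * y / 5 := ⟨_, rfl⟩
  have h5 : -1.38994 < z := by linarith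
  have h6 : z < -1.38934 := by linarith
  obtain ⟨q1, q2, q3, q4⟩ := prod_facts h1 h2 h5 h6
  rw [← hz]
  intro i
  fin_cases i <;> simp [AM, uM, ev, ev5, E6.mk6] <;> linarith

theorem signsM4 {g u : ℝ} (h1 : -0.618035 < g) (h2 : g < -0.618033) (h3 : -0.33651 < u) (h4 : u < -0.33650) :
    ∀ i, if AM 4 i then ev g u ((2 * g - 1) * (1 + u + u * u / 2) / 5) (uM i) < 0 else
      0 < ev g u ((2 * g - 1) * (1 + u + u * u / 2) / 5) (uM i) := by
  obtain ⟨y, hy⟩ : ∃ y, y = 1 + u + u * u / 2 := ⟨_, rfl⟩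
  have y1 : 0.72008 < y := by nlinarith
  have y2 : y < 0.72015 := by nlinarith
  rw [← hy]
  obtain ⟨p1, p2, p3, p4⟩ := prod_facts h1 h2 y1 y2
  obtain ⟨z, hz⟩ : ∃ z, z = (2 * g - 1) * y / 5 := ⟨_, rfl⟩
  have h5 : -0.32234 < z := by linarith
  have h6 : z < -0.32174 := by linarith
  obtain ⟨q1, q2, q3, q4⟩ := prod_facts h1 h2 h5 h6
  rw [← hz]
  intro i
  fin_cases i <;> simp [AM, uM, ev, ev5, E6.mk6] <;> linarith

theorem signsM5 {g u : ℝ} (h1 : -0.618035 < g) (h2 : g < -0.618033) (h3 : 3.62007 < u) (h4 : u < 3.62008) :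
    ∀ i, if AM 5 i then ev g u ((2 * g - 1) * (1 + u + u * u / 2) / 5) (uM i) < 0 else
      0 < ev g u ((2 * g - 1) * (1 + u + u * u / 2) / 5) (uM i) := by
  obtain ⟨y, hy⟩ : ∃ y, y = 1 + u + u * u / 2 := ⟨_, rfl⟩
  have y1 : 11.17249 < y := by nlinarith
  have y2 : y < 11.17260 := by nlinarith
  rw [← hy]
  obtain ⟨p1, p2, p3, p4⟩ := prod_facts h1 h2 y1 y2
  obtain ⟨z, hz⟩ : ∃ z, z = (2 * g - 1) * y / 5 := ⟨_, rfl⟩
  have h5 : -4.99682 < z := by linarith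
  have h6 : z < -4.99622 := by linarith
  obtain ⟨q1, q2, q3, q4⟩ := prod_facts h1 h2 h5 h6
  rw [← hz]
  intro i
  fin_cases i <;> simp [AM, uM, ev, ev5, E6.mk6] <;> linarith

def q0 : E6 := E6.mk6 (-1) (-1) 0 (-1) 0 0
def Lq0 : Matrix (Fin 6) (Fin 6) ℤ :=
  !![1, 0, 0, 0, 0, 0; -1, 1, 0, 0, 0, 0; -2, 2, 1, 0, 0, 0; 5, -6, -2, 1, 0, 0; 9, -1, -5, -8, 7, 0; 4, -2, -1, -2, 0, 1]
def Hq0 : Matrix (Fin 6) (Fin 6) ℤ :=
  !![-1, 2, 0, -1, 0, 0; 0, -1, 1, 1, -1, -2; 0, 0, -1, 2, -6, -5; 0, 0, 0, -7, 16, 14; 0, 0, 0, 0, 5, 0; 0, 0, 0, 0, 0, 1]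
theorem det_q0 : (Mm PM q0).det = 5 := by
  have h := det_of_LU (Mm PM q0) Lq0 Hq0 (by decide +kernel)
    (fun i j h => by
      fin_cases i <;> fin_cases j <;> first | rfl | exact absurd h (by decide))
    (fun i j h => by
      fin_cases i <;> fin_cases j <;> first | rfl | exact absurd h (by decide))
  have h2 : (∏ i : Fin 6, Lq0 i i) = 7 := by decide +kernel
  have h3 : (∏ i : Fin 6, Hq0 i i) = 35 := by decide +kernel
  rw [h2, h3] at h
  omega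

def q1 : E6 := E6.mk6 (-1) (-1) 0 (-1) (-1) (-1)
def Lq1 : Matrix (Fin 6) (Fin 6) ℤ :=
  !![1, 0, 0, 0, 0, 0; -1, 1, 0, 0, 0, 0; 2, -2, 3, 0, 0, 0; -17, -2, 3, 19, 0, 0; -7, -6, -13, -9, 22, 0; 39, -122, -51, -23, 74, 32]
def Hq1 : Matrix (Fin 6) (Fin 6) ℤ :=
  !![-1, 2, 0, -1, 2, 1; 0, -3, -1, 0, -2, -5; 0, 0, -19, -3, -20, -5; 0, 0, 0, -22, 18, -5; 0, 0, 0, 0, 32, -37; 0, 0, 0, 0, 0, 5]
theorem det_q1 : (Mm PM q1).det = 5 := by
  have h := det_of_LU (Mm PM q1) Lq1 Hq1 (by decide +kernel)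
    (fun i j h => by
      fin_cases i <;> fin_cases j <;> first | rfl | exact absurd h (by decide))
    (fun i j h => by
      fin_cases i <;> fin_cases j <;> first | rfl | exact absurd h (by decide))
  have h2 : (∏ i : Fin 6, Lq1 i i) = 40128 := by decide +kernel
  have h3 : (∏ i : Fin 6, Hq1 i i) = 200640 := by decide +kernel
  rw [h2, h3] at h
  omega

def q2 : E6 := E6.mk6 (-1) (-1) 0 (-1) (-1) 1
def Lq2 : Matrix (Fin 6) (Fin 6) ℤ :=
  !![1, 0, 0, 0, 0, 0; -1, 1, 0, 0, 0, 0; -2, 2, 1, 0, 0, 0; 1, -2, -1, 1, 0, 0; 3, -2, -1, -3, 2, 0; 17, -6, -7, -9, 2, 4]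
def Hq2 : Matrix (Fin 6) (Fin 6) ℤ :=
  !![-1, 2, 0, -1, 2, -1; 0, 1, -1, 0, 0, -1; 0, 0, -1, 1, -4, -3; 0, 0, 0, -2, 6, 3; 0, 0, 0, 0, 4, -1; 0, 0, 0, 0, 0, 5]
theorem det_q2 : (Mm PM q2).det = -5 := by
  have h := det_of_LU (Mm PM q2) Lq2 Hq2 (by decide +kernel)
    (fun i j h => by
      fin_cases i <;> fin_cases j <;> first | rfl | exact absurd h (by decide))
    (fun i j h => by
      fin_cases i <;> fin_cases j <;> first | rfl | exact absurd h (by decide))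
  have h2 : (∏ i : Fin 6, Lq2 i i) = 8 := by decide +kernel
  have h3 : (∏ i : Fin 6, Hq2 i i) = -40 := by decide +kernel
  rw [h2, h3] at h
  omega

def q3 : E6 := E6.mk6 1 1 0 0 0 0
def Lq3 : Matrix (Fin 6) (Fin 6) ℤ :=
  !![1, 0, 0, 0, 0, 0; -1, 1, 0, 0, 0, 0; -2, 2, 1, 0, 0, 0; 0, 0, 0, 1, 0, 0; 4, -4, -2, -1, 1, 0; 4, -4, 0, 2, -2, 1]
def Hq3 : Matrix (Fin 6) (Fin 6) ℤ :=
  !![1, -2, 0, 0, 0, 0; 0, 1, -1, 0, 0, 2; 0, 0, 1, 0, 4, 4; 0, 0, 0, 1, -2, 0; 0, 0, 0, 0, -7, -7; 0, 0, 0, 0, 0, -7]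
theorem det_q3 : (Mm PM q3).det = 49 := by
  have h := det_of_LU (Mm PM q3) Lq3 Hq3 (by decide +kernel)
    (fun i j h => by
      fin_cases i <;> fin_cases j <;> first | rfl | exact absurd h (by decide))
    (fun i j h => by
      fin_cases i <;> fin_cases j <;> first | rfl | exact absurd h (by decide))
  have h2 : (∏ i : Fin 6, Lq3 i i) = 1 := by decide +kernel
  have h3 : (∏ i : Fin 6, Hq3 i i) = 49 := by decide +kernel
  rw [h2, h3] at h
  omega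

def q4 : E6 := E6.mk6 1 1 0 (-3) 0 0
def Lq4 : Matrix (Fin 6) (Fin 6) ℤ :=
  !![1, 0, 0, 0, 0, 0; -1, 1, 0, 0, 0, 0; -2, 2, 1, 0, 0, 0; -15, 18, 6, 1, 0, 0; 25, -73, -53, -16, 43, 0; 4, 2, 9, 2, 16, 19]
def Hq4 : Matrix (Fin 6) (Fin 6) ℤ :=
  !![1, -2, 0, -3, 0, 0; 0, 1, -1, 3, -3, 2; 0, 0, 1, 6, -2, 1; 0, 0, 0, 43, -32, 18; 0, 0, 0, 0, -133, 56; 0, 0, 0, 0, 0, -7]
theorem det_q4 : (Mm PM q4).det = 49 := by
  have h := det_of_LU (Mm PM q4) Lq4 Hq4 (by decide +kernel)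
    (fun i j h => by
      fin_cases i <;> fin_cases j <;> first | rfl | exact absurd h (by decide))
    (fun i j h => by
      fin_cases i <;> fin_cases j <;> first | rfl | exact absurd h (by decide))
  have h2 : (∏ i : Fin 6, Lq4 i i) = 817 := by decide +kernel
  have h3 : (∏ i : Fin 6, Hq4 i i) = 40033 := by decide +kernel
  rw [h2, h3] at h
  omega

def q5 : E6 := E6.mk6 (-2) 1 0 3 0 0
def Lq5 : Matrix (Fin 6) (Fin 6) ℤ :=
  !![1, 0, 0, 0, 0, 0; 1, 2, 0, 0, 0, 0; -1, -2, 5, 0, 0, 0; 3, 0, -3, 2, 0, 0; -2, 44, -53, -16, 22, 0; 4, 2, -9, 2, -14, 10]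
def Hq5 : Matrix (Fin 6) (Fin 6) ℤ :=
  !![-2, -2, 0, 3, 0, 0; 0, -10, -2, 3, 6, 4; 0, 0, 2, -3, 14, 11; 0, 0, 0, 11, -16, -9; 0, 0, 0, 0, -70, -49; 0, 0, 0, 0, 0, -7]
theorem det_q5 : (Mm PM q5).det = 49 := by
  have h := det_of_LU (Mm PM q5) Lq5 Hq5 (by decide +kernel)
    (fun i j h => by
      fin_cases i <;> fin_cases j <;> first | rfl | exact absurd h (by decide))
    (fun i j h => by
      fin_cases i <;> fin_cases j <;> first | rfl | exact absurd h (by decide))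
  have h2 : (∏ i : Fin 6, Lq5 i i) = 4400 := by decide +kernel
  have h3 : (∏ i : Fin 6, Hq5 i i) = 215600 := by decide +kernel
  rw [h2, h3] at h
  omega

namespace FM
def pi3 : E6 := E6.mk6 (-1) 0 0 0 1 1
def u3 : E6 := E6.mk6 (-6) 13 31 (-9) 22 51
def u3' : E6 := E6.mk6 8 (-41) 103 (-7) 25 (-63)
def pi2 : E6 := E6.mk6 1 1 1 0 0 0
def u2 : E6 := E6.mk6 (-1) 12 24 (-8) 9 30
def u2' : E6 := E6.mk6 45 6 18 (-26) (-3) (-12)
def us : E6 := E6.mk6 1 (-5) (-8) 1 (-7) (-16)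
def us' : E6 := E6.mk6 1726 296 560 (-1067) (-183) (-346)
end FM

section field
variable {X : Type} [Field X] [NumberField X]

theorem cube_ofM {f v w : 𝓞 X} (P : Par) (hf : f ^ 2 = f + 1)
    (h1 : v * v = ev f v w P.p) (h2 : v * w = ev f v w P.q) (h3 : w * w = ev f v w P.r)
    (n : ℕ) (π u : E6) (h : E6.mul P π (E6.mul P π π) = E6.mul P (E6.mk6 n 0 0 0 0 0) u) :
    (ev f v w π) ^ 3 = (n : 𝓞 X) * ev f v w u := by
  have h5 := congrArg (ev f v w) h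
  simp only [ev_mul P hf h1 h2 h3] at h5
  have h6 : ev f v w (E6.mk6 n 0 0 0 0 0) = (n : 𝓞 X) := by simp [ev, ev5, E6.mk6]
  rw [h6] at h5
  rw [← h5]
  ring

theorem isUnit_ofM {f v w : 𝓞 X} (P : Par) (hf : f ^ 2 = f + 1)
    (h1 : v * v = ev f v w P.p) (h2 : v * w = ev f v w P.q) (h3 : w * w = ev f v w P.r)
    (u u' : E6) (h : E6.mul P u u' = E6.mk6 1 0 0 0 0 0) : ev f v w u * ev f v w u' = 1 := by
  rw [← ev_mul P hf h1 h2 h3, h]
  simp [ev, ev5, E6.mk6]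

/-- a prime dividing an element of norm `p` (p prime) is generated by it -/
theorem eq_span_of_norm_prime (Q : Ideal (𝓞 X)) [hQ : Q.IsPrime] {p : ℕ} (hp : p.Prime) {α : 𝓞 X}
    (hα : α ∈ Q) (hN : absNorm (span {α}) = p) : Q = span {α} := by
  have hα0 : α ≠ 0 := by
    rintro rfl
    have h0 : (span {(0 : 𝓞 X)} : Ideal (𝓞 X)) = ⊥ := by simp
    rw [h0, absNorm_bot] at hN
    exact hp.ne_zero hN.symm
  apply eq_span_of_absNorm Q α hα hα0
  have hdvd : absNorm Q ∣ p := by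
    rw [← hN]
    exact absNorm_dvd_absNorm_of_le ((span_singleton_le_iff_mem Q).2 hα)
  rcases (Nat.dvd_prime hp).1 hdvd with h | h
  · exact absurd (absNorm_eq_one_iff.1 h) hQ.ne_top
  · rw [h, hN]

theorem eq_span_of_norm_sq (f : 𝓞 X) (hf : f ^ 2 = f + 1) {p : ℕ} (hp : p.Prime)
    (hno : ∀ a : ZMod p, a ^ 2 ≠ a + 1) (Q : Ideal (𝓞 X)) [hQ : Q.IsPrime] (hpQ : (p : 𝓞 X) ∈ Q)
    {α : 𝓞 X} (hα : α ∈ Q) (hN : absNorm (span {α}) = p ^ 2) : Q = span {α} := by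
  have hα0 : α ≠ 0 := by
    rintro rfl
    have h0 : (span {(0 : 𝓞 X)} : Ideal (𝓞 X)) = ⊥ := by simp
    rw [h0, absNorm_bot] at hN
    exact pow_ne_zero 2 hp.ne_zero hN.symm
  apply eq_span_of_absNorm Q α hα hα0
  have hdvd : absNorm Q ∣ p ^ 2 := by
    rw [← hN]
    exact absNorm_dvd_absNorm_of_le ((span_singleton_le_iff_mem Q).2 hα)
  obtain ⟨k, hk, hk'⟩ := (Nat.dvd_prime_pow hp).1 hdvd
  interval_cases k
  · exfalso
    simp only [pow_zero] at hk'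
    exact hQ.ne_top (absNorm_eq_one_iff.1 hk')
  · exfalso
    simp only [pow_one] at hk'
    obtain ⟨n, hn⟩ := exists_int_sub_mem Q hp hk' f
    have h1 : ((n ^ 2 - n - 1 : ℤ) : 𝓞 X) ∈ Q := by
      have h2 : ((n ^ 2 - n - 1 : ℤ) : 𝓞 X) = -(f - n) * (f + n - 1) := by
        push_cast
        linear_combination hf
      rw [h2]
      exact Q.mul_mem_right _ (Q.neg_mem hn)
    rw [int_mem_iff Q hp hpQ] at h1
    have h3 := (ZMod.intCast_zmod_eq_zero_iff_dvd _ _).2 h1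
    apply hno (n : ZMod p)
    push_cast at h3
    linear_combination h3
  · rw [hk', hN]

theorem field_M (hX : finrank ℚ X = 6) (f v w : 𝓞 X) (hf : f ^ 2 = f + 1)
    (h1 : v * v = ev f v w PM.p) (h2 : v * w = ev f v w PM.q) (h3 : w * w = ev f v w PM.r) :
    TwoRat X := by
  have h1' : v * v = -2 - 2 * v - 2 * w + 4 * (f * w) := by
    have := h1
    simp [PM, ev, ev5, E6.mk6] at this
    linear_combination this
  have h2' : v * w = -v + 2 * w + 2 * (f * v) := by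
    have := h2
    simp [PM, ev, ev5, E6.mk6] at this
    linear_combination this
  have hv : v ^ 3 = 12 * v + 4 := by
    linear_combination v * h1' - 2 * h1' + (4 * f - 2) * h2' + 8 * v * hf
  obtain ⟨b, hb⟩ := exists_basis hX PM f v w hf h1 h2 h3 FM.pi3 FM.u3 FM.u3' (by decide +kernel)
    (by decide +kernel)
  obtain ⟨m, hm, hm0, hz⟩ := exists_m PM hf h1 h2 h3 b hb detM
  -- embeddings
  obtain ⟨g1, g2⟩ := gp_bounds
  obtain ⟨g3, g4⟩ := gm_bounds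
  obtain ⟨r1, r2, r3, hr1, hr2, hr3, roots⟩ := cubic_cases 12 4 (-3.28357) (-3.28356) (-0.33651) (-0.33650)
    (3.62007) (3.62008) (by norm_num) (by norm_num) (by norm_num) (by norm_num) (by norm_num)
    (by norm_num) (by norm_num) (by norm_num)
  let g : Fin 6 → ℝ := ![gp, gp, gp, gm, gm, gm]
  let u : Fin 6 → ℝ := ![r1, r2, r3, r1, r2, r3]
  obtain ⟨hG, hc⟩ := embs hX b hb g u (fun i => (2 * g i - 1) * (1 + u i + u i * u i / 2) / 5) (by
    intro F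
    set F1 := F (algebraMap (𝓞 X) X f) with hF1
    set F2 := F (algebraMap (𝓞 X) X v) with hF2
    have e1 : F1 ^ 2 = F1 + 1 := by
      simp only [F1]
      rw [← map_pow, ← map_pow, hf]
      simp
    have e2 : F2 ^ 3 = ((12 : ℝ) : ℂ) * F2 + ((4 : ℝ) : ℂ) := by
      simp only [F2]
      rw [← map_pow, ← map_pow, hv]
      simp only [map_add, map_mul, map_ofNat]
      push_cast
      ring
    have e3 : F (algebraMap (𝓞 X) X w) = (2 * F1 - 1) * (1 + F2 + F2 * F2 / 2) / 5 := by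
      have h7 := congrArg (fun z => F (algebraMap (𝓞 X) X z)) h1'
      simp only [map_mul, map_add, map_sub, map_neg, map_ofNat] at h7
      rw [← hF2, ← hF1] at h7
      linear_combination (-(2 * F1 - 1) / 10) * h7 + (-4 / 5 * F (algebraMap (𝓞 X) X w)) * e1
    rw [e3]
    rcases golden_cases e1 with hg | hg <;> rcases roots F2 e2 with hr | hr | hr
    · exact ⟨0, by rw [hg]; rfl, by rw [hr]; rfl, by rw [hr, hg]; simp [u, g]⟩
    · exact ⟨1, by rw [hg]; rfl, by rw [hr]; rfl, by rw [hr, hg]; simp [u, g]⟩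
    · exact ⟨2, by rw [hg]; rfl, by rw [hr]; rfl, by rw [hr, hg]; simp [u, g]⟩
    · exact ⟨3, by rw [hg]; rfl, by rw [hr]; rfl, by rw [hr, hg]; simp [u, g]⟩
    · exact ⟨4, by rw [hg]; rfl, by rw [hr]; rfl, by rw [hr, hg]; simp [u, g]⟩
    · exact ⟨5, by rw [hg]; rfl, by rw [hr]; rfl, by rw [hr, hg]; simp [u, g]⟩)
  have hunits := units_of_table hX PM hf h1 h2 h3 g u
    (fun i => (2 * g i - 1) * (1 + u i + u i * u i / 2) / 5) hG uM uM'
    (by decide +kernel) AM (by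
      intro j
      fin_cases j
      · exact signsM0 g1 g2 hr1.1 hr1.2
      · exact signsM1 g1 g2 hr2.1 hr2.2
      · exact signsM2 g1 g2 hr3.1 hr3.2
      · exact signsM3 g3 g4 hr1.1 hr1.2
      · exact signsM4 g3 g4 hr2.1 hr2.2
      · exact signsM5 g3 g4 hr3.1 hr3.2) AM_dec
  -- primes above 2 and 3
  have hπ3 := cube_ofM PM hf h1 h2 h3 3 FM.pi3 FM.u3 (by decide +kernel)
  have hπ2 := cube_ofM PM hf h1 h2 h3 2 FM.pi2 FM.u2 (by decide +kernel)
  have hu3 := isUnit_ofM PM hf h1 h2 h3 FM.u3 FM.u3' (by decide +kernel)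
  have hu2 := isUnit_ofM PM hf h1 h2 h3 FM.u2 FM.u2' (by decide +kernel)
  have hU3 : IsUnit (ev f v w FM.u3) := IsUnit.of_mul_eq_one _ hu3
  have hU2 : IsUnit (ev f v w FM.u2) := IsUnit.of_mul_eq_one _ hu2
  have h2Q : ∀ Q : Ideal (𝓞 X), Q.IsPrime → ((2 : ℕ) : 𝓞 X) ∈ Q → Q = span {ev f v w FM.pi2} :=
    fun Q hQ hpQ => eq_span_of_cube hX Nat.prime_two f hf (by decide) _ _ hU2 hπ2 Q hpQ
  have hpi20 : ev f v w FM.pi2 ≠ 0 := by
    intro h
    rw [h] at hπ2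
    have h5 : ((2 : ℕ) : 𝓞 X) * ev f v w FM.u2 = 0 := by rw [← hπ2]; ring
    rcases mul_eq_zero.1 h5 with h6 | h6
    · norm_num at h6
    · exact hU2.ne_zero h6
  have hprime2 : Prime (ev f v w FM.pi2) := prime_of_unique hX Nat.prime_two _ hpi20 h2Q
  have hpid : IsPrincipalIdealRing (𝓞 X) := by
    refine pid_of hX hc hm hm0 55 (by norm_num) ?_
    intro Q hQ hQ0 hle
    obtain ⟨p, k, hp, hk, hNk, hpQ⟩ := exists_prime_pow Q hQ0
    by_cases hp2 : p = 2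
    · subst hp2
      exact ⟨_, h2Q Q hQ hpQ⟩
    by_cases hp3 : p = 3
    · subst hp3
      exact ⟨_, eq_span_of_cube hX hp f hf (by decide) _ _ hU3 hπ3 Q hpQ⟩
    by_cases hp5 : p = 5
    · subst hp5
      have hsq : (ev f v w (E6.mk6 (-1) 0 0 2 0 0)) ^ 2 = ((5 : ℕ) : 𝓞 X) := by
        simp [ev, ev5, E6.mk6]
        linear_combination 4 * hf
      have hs : ev f v w (E6.mk6 (-1) 0 0 2 0 0) ∈ Q := by
        apply hQ.mem_of_pow_mem 2
        rw [hsq]; exact hpQ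
      have hprod : ev f v w q0 * (ev f v w q1 * ev f v w q2) =
          ev f v w (E6.mk6 (-1) 0 0 2 0 0) * ev f v w FM.us := by
        rw [← ev_mul PM hf h1 h2 h3, ← ev_mul PM hf h1 h2 h3, ← ev_mul PM hf h1 h2 h3]
        congr 1
      have hin : ev f v w q0 * (ev f v w q1 * ev f v w q2) ∈ Q := by
        rw [hprod]; exact Q.mul_mem_right _ hs
      rcases hQ.mem_or_mem hin with h | h
      · exact ⟨_, eq_span_of_norm_prime Q hp h (absNorm_ev PM hf h1 h2 h3 b hb q0 det_q0)⟩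
      rcases hQ.mem_or_mem h with h | h
      · exact ⟨_, eq_span_of_norm_prime Q hp h (absNorm_ev PM hf h1 h2 h3 b hb q1 det_q1)⟩
      · exact ⟨_, eq_span_of_norm_prime Q hp h (absNorm_ev PM hf h1 h2 h3 b hb q2 det_q2)⟩
    by_cases hp7 : p = 7
    · subst hp7
      have hprod : ev f v w q3 * (ev f v w q4 * ev f v w q5) = -((7 : ℕ) : 𝓞 X) := by
        rw [← ev_mul PM hf h1 h2 h3, ← ev_mul PM hf h1 h2 h3]
        have : E6.mul PM q3 (E6.mul PM q4 q5) = E6.mk6 (-7) 0 0 0 0 0 := by decide +kernel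
        rw [this]
        simp [ev, ev5, E6.mk6]
      have hin : ev f v w q3 * (ev f v w q4 * ev f v w q5) ∈ Q := by
        rw [hprod]; exact Q.neg_mem hpQ
      rcases hQ.mem_or_mem hin with h | h
      · exact ⟨_, eq_span_of_norm_sq f hf hp (by decide) Q hpQ h
          (absNorm_ev PM hf h1 h2 h3 b hb q3 det_q3)⟩
      rcases hQ.mem_or_mem h with h | h
      · exact ⟨_, eq_span_of_norm_sq f hf hp (by decide) Q hpQ h
          (absNorm_ev PM hf h1 h2 h3 b hb q4 det_q4)⟩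
      · exact ⟨_, eq_span_of_norm_sq f hf hp (by decide) Q hpQ h
          (absNorm_ev PM hf h1 h2 h3 b hb q5 det_q5)⟩
    have h8 : 8 ≤ p := by
      rcases Nat.lt_or_ge p 8 with h | h
      · exfalso
        interval_cases p
        all_goals first
          | exact absurd rfl hp2
          | exact absurd rfl hp3
          | exact absurd rfl hp5
          | exact absurd rfl hp7
          | exact absurd hp (by decide)
      · exact h
    have hp55 : p ≤ 55 := by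
      calc p = p ^ 1 := (pow_one p).symm
        _ ≤ p ^ k := Nat.pow_le_pow_right hp.pos hk
        _ ≤ 55 := by rw [← hNk]; exact hle
    have hk1 : k = 1 := by
      by_contra hne
      have h3k : 2 ≤ k := by omega
      have : 64 ≤ p ^ k := by
        calc 64 = 8 ^ 2 := by norm_num
          _ ≤ p ^ 2 := Nat.pow_le_pow_left h8 2
          _ ≤ p ^ k := Nat.pow_le_pow_right hp.pos h3k
      omega
    rw [hk1, pow_one] at hNk
    exfalso
    have hno : ∃ a b : ZMod p, a ^ 2 = a + 1 ∧ b ^ 3 = 12 * b + 4 := by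
      obtain ⟨a, b, c, -, ha, hb, hc, -⟩ := residues PM hf h1 h2 h3 Q hp hpQ hNk
      refine ⟨a, b, ha, ?_⟩
      simp [PM, ev, ev5, E6.mk6] at hb hc
      linear_combination (b : ZMod p) * hb - 2 * hb + (4 * (a : ZMod p) - 2) * hc +
        8 * (b : ZMod p) * ha
    interval_cases p
    all_goals first
      | (exact absurd hp (by decide))
      | (exact absurd hno (by decide +kernel))
  refine twoRat_of (ev f v w FM.pi2) (ev f v w FM.u2') 3 hprime2 (by decide) ?_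
    (IsUnit.of_mul_eq_one (ev f v w FM.u2) (by rw [mul_comm]; exact hu2)) hunits
  rw [hπ2]
  push_cast
  linear_combination (-2) * hu2

theorem stmM : StmM := by
  intro X _ _ hX s u hs hu
  have hs0 : s ≠ 0 := by
    rintro rfl
    norm_num at hs
  have hφ : ((1 + s) / 2) ^ 2 = (1 + s) / 2 + 1 := by
    linear_combination hs / 4
  have hfi := isIntegral_of_quad hφ
  have hsi : IsIntegral ℤ s := by
    have h : s = ((2 : ℤ) : X) * ((1 + s) / 2) - ((1 : ℤ) : X) := by push_cast; ring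
    rw [h]
    exact ((isIntegral_intCast 2).mul hfi).sub (isIntegral_intCast 1)
  let f : 𝓞 X := ⟨(1 + s) / 2, hfi⟩
  have hvi : IsIntegral ℤ (2 * u) := by
    refine isIntegral_of_cubic (a := ((0 : ℤ) : X)) (b := ((-12 : ℤ) : X))
      (c := ((-4 : ℤ) : X)) (isIntegral_intCast _) (isIntegral_intCast _) (isIntegral_intCast _) ?_
    push_cast
    linear_combination 4 * hu
  obtain ⟨τ, hτ⟩ : ∃ τ : X, τ = s * (1 + 2 * u + 2 * u ^ 2) / 5 := ⟨_, rfl⟩
  have hwi : IsIntegral ℤ τ := by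
    refine isIntegral_of_cubic (a := ((-3 : ℤ) : X) * s) (b := ((9 : ℤ) : X))
      (c := -s) ((isIntegral_intCast _).mul hsi) (isIntegral_intCast _) hsi.neg ?_
    push_cast
    rw [hτ]
    linear_combination (s * (1 + 2 * u + 2 * u ^ 2) ^ 3 / 125 - 3 * s * (1 + 2 * u + 2 * u ^ 2) ^ 2 / 25) * hs + (s / 25 * ((-6) * u ^ 0 + (0) * u ^ 1 + (12) * u ^ 2 + (4) * u ^ 3)) * hu
  let v : 𝓞 X := ⟨2 * u, hvi⟩
  let w : 𝓞 X := ⟨τ, hwi⟩
  have hf : f ^ 2 = f + 1 := O_ext (by rw [map_pow, map_add, map_one]; exact hφ)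
  have cf : algebraMap (𝓞 X) X f = (1 + s) / 2 := rfl
  have cv : algebraMap (𝓞 X) X v = 2 * u := rfl
  have cw : algebraMap (𝓞 X) X w = s * (1 + 2 * u + 2 * u ^ 2) / 5 := hτ
  have c2 : algebraMap (𝓞 X) X 2 = 2 := map_ofNat _ 2
  have c4 : algebraMap (𝓞 X) X 4 = 4 := map_ofNat _ 4
  refine field_M hX f v w hf (O_ext ?_) (O_ext ?_) (O_ext ?_)
  · simp [PM, ev, ev5, E6.mk6, cf, cv, cw, c2, c4]; linear_combination (-(2 / 5) * (1 + 2 * u + 2 * u ^ 2)) * hs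
  · simp [PM, ev, ev5, E6.mk6, cf, cv, cw, c2, c4]; linear_combination (2 * s / 5) * hu
  · simp [PM, ev, ev5, E6.mk6, cf, cv, cw, c2, c4]; linear_combination ((1 + 2 * u + 2 * u ^ 2) ^ 2 / 25 - 2 * (1 + 2 * u + 2 * u ^ 2) / 5) * hs + ((2 * u + 4) / 5) * hu

end field

end MZ413
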