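import Mathlib
import Pool.Agent.W413.MZ.Setup
import Pool.Agent.W413.MZ.Crit

/-!
# MP_aa8fd2_nt, FIELD-N : `N = ℚ(√5, 2cos(2π/9))`
-/

namespace MZ413

open NumberField Module Ideal MZ294

/-- units of `N` -/
def uN : Fin 6 → E6 := ![E6.mk6 (-1) 0 0 0 0 0, E6.mk6 0 0 0 1 0 0, E6.mk6 0 1 0 0 0 0,
  E6.mk6 (-1) 1 0 0 0 0, E6.mk6 1 0 0 0 1 0, E6.mk6 (-1) 0 0 0 1 0]
def uN' : Fin 6 → E6 := ![E6.mk6 (-1) 0 0 0 0 0, E6.mk6 (-1) 0 0 1 0 0, E6.mk6 3 0 (-1) 0 0 0,
  E6.mk6 (-2) 1 1 0 0 0, E6.mk6 (-1) 5 3 1 (-3) (-2), E6.mk6 (-1) (-1) 1 (-1) 1 0]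
/-- sign table: `AN j i = true` iff unit `i` is negative at place `j` -/
def AN : Fin 6 → Fin 6 → Bool := ![
  ![true, false, true, true, true, true],
  ![true, false, false, true, false, true],
  ![true, false, false, false, false, false],
  ![true, true, true, true, false, false],
  ![true, true, false, true, false, true],
  ![true, true, false, false, false, true]]

theorem AN_dec : ∀ S : Finset (Fin 6), S.Nonempty →
    ∃ j, Odd (S.filter (fun i => AN j i = true)).card := by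
  decide +kernel

theorem signsN0 {g u : ℝ} (h1 : 1.618033 < g) (h2 : g < 1.618035) (h3 : -1.8794 < u) (h4 : u < -1.8793) :
    ∀ i, if AN 0 i then ev g u (u * u) (uN i) < 0 else 0 < ev g u (u * u) (uN i) := by
  obtain ⟨p1, p2, p3, p4⟩ := prod_facts h1 h2 h3 h4
  intro i
  fin_cases i <;> simp [AN, uN, ev, ev5, E6.mk6] <;> linarith

theorem signsN1 {g u : ℝ} (h1 : 1.618033 < g) (h2 : g < 1.618035) (h3 : 0.3472 < u) (h4 : u < 0.3474) :
    ∀ i, if AN 1 i then ev g u (u * u) (uN i) < 0 else 0 < ev g u (u * u) (uN i) := by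
  obtain ⟨p1, p2, p3, p4⟩ := prod_facts h1 h2 h3 h4
  intro i
  fin_cases i <;> simp [AN, uN, ev, ev5, E6.mk6] <;> linarith

theorem signsN2 {g u : ℝ} (h1 : 1.618033 < g) (h2 : g < 1.618035) (h3 : 1.5320 < u) (h4 : u < 1.5321) :
    ∀ i, if AN 2 i then ev g u (u * u) (uN i) < 0 else 0 < ev g u (u * u) (uN i) := by
  obtain ⟨p1, p2, p3, p4⟩ := prod_facts h1 h2 h3 h4
  intro i
  fin_cases i <;> simp [AN, uN, ev, ev5, E6.mk6] <;> linarith

theorem signsN3 {g u : ℝ} (h1 : -0.618035 < g) (h2 : g < -0.618033) (h3 : -1.8794 < u) (h4 : u < -1.8793) :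
    ∀ i, if AN 3 i then ev g u (u * u) (uN i) < 0 else 0 < ev g u (u * u) (uN i) := by
  obtain ⟨p1, p2, p3, p4⟩ := prod_facts h1 h2 h3 h4
  intro i
  fin_cases i <;> simp [AN, uN, ev, ev5, E6.mk6] <;> linarith

theorem signsN4 {g u : ℝ} (h1 : -0.618035 < g) (h2 : g < -0.618033) (h3 : 0.3472 < u) (h4 : u < 0.3474) :
    ∀ i, if AN 4 i then ev g u (u * u) (uN i) < 0 else 0 < ev g u (u * u) (uN i) := by
  obtain ⟨p1, p2, p3, p4⟩ := prod_facts h1 h2 h3 h4
  intro i
  fin_cases i <;> simp [AN, uN, ev, ev5, E6.mk6] <;> linarith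

theorem signsN5 {g u : ℝ} (h1 : -0.618035 < g) (h2 : g < -0.618033) (h3 : 1.5320 < u) (h4 : u < 1.5321) :
    ∀ i, if AN 5 i then ev g u (u * u) (uN i) < 0 else 0 < ev g u (u * u) (uN i) := by
  obtain ⟨p1, p2, p3, p4⟩ := prod_facts h1 h2 h3 h4
  intro i
  fin_cases i <;> simp [AN, uN, ev, ev5, E6.mk6] <;> linarith

section field
variable {X : Type} [Field X] [NumberField X]

theorem two_N (hX : finrank ℚ X = 6) (f v : 𝓞 X) (hf : f ^ 2 = f + 1)
    (hv : v ^ 3 = 3 * v - 1) (Q : Ideal (𝓞 X)) (hQ : Q.IsPrime)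
    (h2 : ((2 : ℕ) : 𝓞 X) ∈ Q) : Q = span {((2 : ℕ) : 𝓞 X)} := by
  have h20 : ((2 : ℕ) : 𝓞 X) ≠ 0 := by norm_num
  have hN2 : absNorm (span {((2 : ℕ) : 𝓞 X)}) = 2 ^ 6 := by
    rw [absNorm_span_natCast, RingOfIntegers.rank, hX]
  apply eq_span_of_absNorm Q _ h2 h20
  rw [hN2]
  have hQ0 : Q ≠ ⊥ := by
    rintro rfl
    exact h20 (by simpa using h2)
  have hmax := isMax Q hQ0
  letI : Field (𝓞 X ⧸ Q) := Ideal.Quotient.field Q
  have hfin : Finite (𝓞 X ⧸ Q) := (absNorm_ne_zero_iff Q).1 (fun h => hQ0 (absNorm_eq_zero_iff.1 h))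
  letI : Fintype (𝓞 X ⧸ Q) := Fintype.ofFinite _
  have hcard : Fintype.card (𝓞 X ⧸ Q) = absNorm Q := by
    rw [← card_quot, Nat.card_eq_fintype_card]
  have hdvd : absNorm Q ∣ 2 ^ 6 := by
    rw [← hN2]
    exact absNorm_dvd_absNorm_of_le ((span_singleton_le_iff_mem Q).2 h2)
  obtain ⟨k, hk, hk'⟩ := (Nat.dvd_prime_pow Nat.prime_two).1 hdvd
  set t : 𝓞 X ⧸ Q := Ideal.Quotient.mk Q f with ht
  set x : 𝓞 X ⧸ Q := Ideal.Quotient.mk Q v with hx
  have c2 : (2 : 𝓞 X ⧸ Q) = 0 := by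
    have := Ideal.Quotient.eq_zero_iff_mem.2 h2
    rw [map_natCast] at this
    exact_mod_cast this
  have ht2 : t ^ 2 = t + 1 := by rw [ht, ← map_pow, hf, map_add, map_one]
  have hx3 : x ^ 3 = 3 * x - 1 := by
    rw [hx, ← map_pow, hv, map_sub, map_mul, map_one, map_ofNat]
  have hx3' : x ^ 3 = x + 1 := by linear_combination hx3 + (x - 1) * c2
  have ht3 : t ^ 3 = 1 := by linear_combination (t + 1) * ht2 + t * c2
  have hx7 : x ^ 7 = 1 := by
    linear_combination (x ^ 4 + x ^ 2 + x + 1) * hx3' + (x ^ 2 + x) * c2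
  have one_ne : (1 : 𝓞 X ⧸ Q) ≠ 0 := one_ne_zero
  have hpow : ∀ y : 𝓞 X ⧸ Q, y ^ (2 ^ k) = y := by
    intro y
    rw [← hk', ← hcard]
    exact FiniteField.pow_card y
  have hlt : k = 6 := by
    interval_cases k
    · exfalso
      rw [pow_zero] at hk'
      exact hQ.ne_top (absNorm_eq_one_iff.1 hk')
    · exfalso
      have := hpow t
      apply one_ne
      norm_num at this
      linear_combination this - ht2
    · exfalso
      have h := hpow x
      norm_num at h
      have h5 : x ^ 2 = 0 := by linear_combination h - x * hx3'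
      have h6 : x = 0 := pow_eq_zero_iff (two_ne_zero) |>.1 h5
      apply one_ne
      rw [h6] at hx7
      simpa using hx7.symm
    · exfalso
      have h := hpow t
      norm_num at h
      apply one_ne
      have h8 : t ^ 8 = t ^ 2 := by linear_combination (t ^ 5 + t ^ 2) * ht3
      linear_combination h - h8 - ht2
    · exfalso
      have h := hpow x
      norm_num at h
      have h8 : x ^ 16 = x ^ 2 := by linear_combination (x ^ 9 + x ^ 2) * hx7
      have h9 : x * (x - 1) = 0 := by linear_combination h - h8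
      rcases mul_eq_zero.1 h9 with h10 | h10
      · apply one_ne
        rw [h10] at hx7
        simpa using hx7.symm
      · have h11 : x = 1 := by linear_combination h10
        apply one_ne
        rw [h11] at hx3'
        linear_combination -hx3'
    · exfalso
      have h := hpow t
      norm_num at h
      apply one_ne
      have h8 : t ^ 32 = t ^ 2 := by
        linear_combination (t ^ 29 + t ^ 26 + t ^ 23 + t ^ 20 + t ^ 17 + t ^ 14 + t ^ 11 + t ^ 8 +
          t ^ 5 + t ^ 2) * ht3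
      linear_combination h - h8 - ht2
    · rfl
  rw [hk', hlt]

theorem field_N (hX : finrank ℚ X = 6) (f v w : 𝓞 X) (hf : f ^ 2 = f + 1)
    (h1 : v * v = ev f v w PN.p) (h2 : v * w = ev f v w PN.q) (h3 : w * w = ev f v w PN.r) :
    TwoRat X := by
  have hw : w = v * v := by
    rw [h1]; simp [PN, ev, ev5, E6.mk6]
  have hv : v ^ 3 = 3 * v - 1 := by
    have := h2
    rw [hw] at this
    simp [PN, ev, ev5, E6.mk6] at this
    linear_combination this
  obtain ⟨b, hb⟩ := exists_basis hX PN f v w hf h1 h2 h3 (E6.mk6 1 1 0 0 0 0)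
    (E6.mk6 0 2 1 0 0 0) (E6.mk6 1 1 (-1) 0 0 0) (by decide +kernel) (by decide +kernel)
  obtain ⟨m, hm, hm0, hz⟩ := exists_m PN hf h1 h2 h3 b hb detN
  -- embeddings
  obtain ⟨r1, r2, r3, hr1, hr2, hr3, hroots⟩ := cubic_cases 3 (-1) (-1.8794) (-1.8793) 0.3472
    0.3474 1.5320 1.5321 (by norm_num) (by norm_num) (by norm_num) (by norm_num) (by norm_num)
    (by norm_num) (by norm_num) (by norm_num)
  let g : Fin 6 → ℝ := ![gp, gp, gp, gm, gm, gm]
  let u : Fin 6 → ℝ := ![r1, r2, r3, r1, r2, r3]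
  obtain ⟨hG, hc⟩ := embs hX b hb g u (fun i => u i * u i) (by
    intro F
    set F1 := F (algebraMap (𝓞 X) X f)
    set F2 := F (algebraMap (𝓞 X) X v)
    have e1 : F1 ^ 2 = F1 + 1 := by
      simp only [F1]
      rw [← map_pow, ← map_pow, hf]
      simp
    have e2 : F2 ^ 3 = ((3 : ℝ) : ℂ) * F2 + ((-1 : ℝ) : ℂ) := by
      simp only [F2]
      rw [← map_pow, ← map_pow, hv]
      simp only [map_sub, map_mul, map_ofNat, map_one]
      push_cast
      ring
    have e3 : F (algebraMap (𝓞 X) X w) = F2 * F2 := by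
      simp only [F2]
      rw [hw, map_mul, map_mul]
    rw [e3]
    rcases golden_cases e1 with hg | hg <;> rcases hroots F2 e2 with hr | hr | hr
    · exact ⟨0, by rw [hg]; rfl, by rw [hr]; rfl, by rw [hr]; simp [u]⟩
    · exact ⟨1, by rw [hg]; rfl, by rw [hr]; rfl, by rw [hr]; simp [u]⟩
    · exact ⟨2, by rw [hg]; rfl, by rw [hr]; rfl, by rw [hr]; simp [u]⟩
    · exact ⟨3, by rw [hg]; rfl, by rw [hr]; rfl, by rw [hr]; simp [u]⟩
    · exact ⟨4, by rw [hg]; rfl, by rw [hr]; rfl, by rw [hr]; simp [u]⟩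
    · exact ⟨5, by rw [hg]; rfl, by rw [hr]; rfl, by rw [hr]; simp [u]⟩)
  have hunits := units_of_table hX PN hf h1 h2 h3 g u (fun i => u i * u i) hG uN uN'
    (by decide +kernel) AN (by
      intro j
      obtain ⟨g1, g2⟩ := gp_bounds
      obtain ⟨g3, g4⟩ := gm_bounds
      fin_cases j
      · exact signsN0 g1 g2 hr1.1 hr1.2
      · exact signsN1 g1 g2 hr2.1 hr2.2
      · exact signsN2 g1 g2 hr3.1 hr3.2
      · exact signsN3 g3 g4 hr1.1 hr1.2
      · exact signsN4 g3 g4 hr2.1 hr2.2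
      · exact signsN5 g3 g4 hr3.1 hr3.2) AN_dec
  -- primes
  have h2Q := two_N hX f v hf hv
  have hprime2 : Prime ((2 : ℕ) : 𝓞 X) := prime_of_unique hX Nat.prime_two _ (by norm_num) h2Q
  have hu3 : IsUnit (ev f v w (E6.mk6 0 2 1 0 0 0)) := by
    refine IsUnit.of_mul_eq_one (ev f v w (E6.mk6 1 1 (-1) 0 0 0)) ?_
    rw [← ev_mul PN hf h1 h2 h3]
    have : E6.mul PN (E6.mk6 0 2 1 0 0 0) (E6.mk6 1 1 (-1) 0 0 0) = E6.mk6 1 0 0 0 0 0 := by
      decide +kernel
    rw [this]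
    simp [ev, ev5, E6.mk6]
  have hπ3 : (ev f v w (E6.mk6 1 1 0 0 0 0)) ^ 3 =
      ((3 : ℕ) : 𝓞 X) * ev f v w (E6.mk6 0 2 1 0 0 0) := by
    simp [ev, ev5, E6.mk6]
    rw [hw]
    linear_combination hv
  have hpid : IsPrincipalIdealRing (𝓞 X) := by
    refine pid_of hX hc hm hm0 13 (by norm_num) ?_
    intro Q hQ hQ0 hle
    obtain ⟨p, k, hp, hk, hNk, hpQ⟩ := exists_prime_pow Q hQ0
    have hp13 : p ≤ 13 := by
      calc p = p ^ 1 := (pow_one p).symm
        _ ≤ p ^ k := Nat.pow_le_pow_right hp.pos hk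
        _ ≤ 13 := by rw [← hNk]; exact hle
    have hno : ∀ (p : ℕ), p.Prime → (p : 𝓞 X) ∈ Q → absNorm Q = p →
        ∃ a b : ZMod p, a ^ 2 = a + 1 ∧ b ^ 3 = 3 * b - 1 := by
      intro p hp hpQ hN
      obtain ⟨a, b, c, -, ha, hb, hc, -⟩ := residues PN hf h1 h2 h3 Q hp hpQ hN
      refine ⟨a, b, ha, ?_⟩
      simp [PN, ev, ev5, E6.mk6] at hb hc
      linear_combination hc + b * hb
    by_cases hp2 : p = 2
    · subst hp2
      exact ⟨_, h2Q Q hQ hpQ⟩
    by_cases hp3 : p = 3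
    · subst hp3
      exact ⟨_, eq_span_of_cube hX hp f hf (by decide) _ _ hu3 hπ3 Q hpQ⟩
    exfalso
    have hk1 : k = 1 := by
      by_contra hne
      have h2k : 2 ≤ k := by omega
      have h5 : 5 ≤ p := by
        rcases Nat.lt_or_ge p 5 with h | h
        · interval_cases p
          all_goals first
            | exact absurd rfl hp2
            | exact absurd rfl hp3
            | exact absurd hp (by norm_num)
        · exact h
      have : 25 ≤ p ^ k := by
        calc 25 = 5 ^ 2 := by norm_num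
          _ ≤ p ^ 2 := Nat.pow_le_pow_left h5 2
          _ ≤ p ^ k := Nat.pow_le_pow_right hp.pos h2k
      omega
    rw [hk1, pow_one] at hNk
    have := hno p hp hpQ hNk
    interval_cases p
    all_goals first
      | exact absurd rfl hp2
      | exact absurd rfl hp3
      | (exact absurd hp (by decide))
      | (exact absurd this (by decide +kernel))
  exact twoRat_of ((2 : ℕ) : 𝓞 X) 1 1 hprime2 (by decide) (by push_cast; ring) isUnit_one hunits

theorem stmN : StmN := by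
  intro X _ _ hX s e hs he
  have hφ : ((1 + s) / 2) ^ 2 = (1 + s) / 2 + 1 := by
    linear_combination hs / 4
  let f : 𝓞 X := ⟨(1 + s) / 2, isIntegral_of_quad hφ⟩
  have hint : IsIntegral ℤ e := by
    refine isIntegral_of_cubic (a := ((0 : ℤ) : X)) (b := ((-3 : ℤ) : X)) (c := ((1 : ℤ) : X))
      (isIntegral_intCast _) (isIntegral_intCast _) (isIntegral_intCast _) ?_
    push_cast
    linear_combination he
  let v : 𝓞 X := ⟨e, hint⟩
  have hf : f ^ 2 = f + 1 := O_ext (by rw [map_pow, map_add, map_one]; exact hφ)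
  have hv : v ^ 3 = 3 * v - 1 := O_ext (by
    rw [map_pow, map_sub, map_mul, map_one, map_ofNat]
    change e ^ 3 = 3 * e - 1
    linear_combination he)
  refine field_N hX f v (v * v) hf ?_ ?_ ?_
  · simp [PN, ev, ev5, E6.mk6]
  · simp [PN, ev, ev5, E6.mk6]; linear_combination hv
  · simp [PN, ev, ev5, E6.mk6]; linear_combination v * hv

end field

end MZ413
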