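import Mathlib

/-!
# MP_aa8fd2_nt, FIELD: residue fields with 25 and 49 elements
-/

namespace MZ413

theorem no25 {F : Type*} [Field F] (h5 : (5 : F) = 0) {t x : F} (ht : t ^ 2 = t + 1)
    (hx : x ^ 3 = 12 * x - 12 * t + 4) (h25 : x ^ 25 = x) : False := by
  have ht3 : t = 3 := by
    have h : (t - 3) ^ 2 = 0 := by linear_combination ht + (2 - t) * h5
    have := pow_eq_zero_iff (two_ne_zero) |>.1 h
    linear_combination this
  subst ht3
  have hx3 : x ^ 3 = 2 * x + 3 := by linear_combination hx + (2 * x - 7) * h5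
  have h5x : x ^ 5 = 3 * x ^ 2 + 4 * x + 1 := by linear_combination (x ^ 2 + 2) * hx3 + h5
  have h10 : x ^ 10 = 3 * x + 3 := by
    have : x ^ 10 = (x ^ 5) ^ 2 := by ring
    rw [this, h5x]
    linear_combination (9 * x + 24) * hx3 + (8 * x ^ 2 + 16 * x + 14) * h5
  have h25' : x ^ 25 = 2 * x ^ 2 + 4 := by
    have : x ^ 25 = (x ^ 10) ^ 2 * x ^ 5 := by ring
    rw [this, h5x, h10]
    linear_combination (27 * x + 90) * hx3 + (32 * x ^ 2 + 63 * x + 55) * h5
  have h1 : x ^ 2 = 3 * x + 3 := by linear_combination 3 * (h25 - h25') + (-x ^ 2 - 3) * h5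
  have : (1 : F) = 0 := by linear_combination hx3 - (x + 3) * h1 + (-2 * x - 1) * h5
  exact one_ne_zero this

theorem quad_field {F : Type*} [Field F] [Fintype F] {p : ℕ} [Fact p.Prime] [CharP F p]
    (hcard : Fintype.card F = p ^ 2) {t : F} (ht : t ^ 2 = t + 1)
    (hno : ∀ a : ZMod p, a ^ 2 ≠ a + 1) :
    (∀ x : F, ∃ a b : ZMod p, x = ZMod.castHom dvd_rfl F a + ZMod.castHom dvd_rfl F b * t) ∧
    (∀ a b : ZMod p, ZMod.castHom dvd_rfl F a + ZMod.castHom dvd_rfl F b * t = 0 → a = 0 ∧ b = 0) := by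
  set φ := ZMod.castHom (dvd_refl p) F with hφ
  have hinj : Function.Injective φ := RingHom.injective φ
  have h2 : ∀ a b : ZMod p, φ a + φ b * t = 0 → a = 0 ∧ b = 0 := by
    intro a b h
    by_cases hb : b = 0
    · subst hb
      rw [map_zero, zero_mul, add_zero] at h
      exact ⟨(map_eq_zero φ).1 h, rfl⟩
    · exfalso
      apply hno (-a / b)
      apply hinj
      have hb' : φ b ≠ 0 := by rwa [Ne, map_eq_zero]
      have ht' : φ (-a / b) = t := by
        rw [map_div₀, map_neg]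
        field_simp
        linear_combination -h
      rw [map_pow, map_add, map_one, ht']
      exact ht
  refine ⟨?_, h2⟩
  have hinj2 : Function.Injective (fun q : ZMod p × ZMod p => φ q.1 + φ q.2 * t) := by
    rintro ⟨a, b⟩ ⟨c, d⟩ h
    simp only at h
    have h3 : φ (a - c) + φ (b - d) * t = 0 := by
      rw [map_sub, map_sub]; linear_combination h
    obtain ⟨h4, h5⟩ := h2 _ _ h3
    rw [sub_eq_zero] at h4 h5
    rw [h4, h5]
  have hsurj : Function.Surjective (fun q : ZMod p × ZMod p => φ q.1 + φ q.2 * t) := by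
    have := (Fintype.bijective_iff_injective_and_card
      (fun q : ZMod p × ZMod p => φ q.1 + φ q.2 * t)).2 ⟨hinj2, by
        rw [hcard, Fintype.card_prod, ZMod.card]; ring⟩
    exact this.2
  intro x
  obtain ⟨⟨a, b⟩, h⟩ := hsurj x
  exact ⟨a, b, h.symm⟩

theorem no49a : ∀ a : ZMod 7, a ^ 2 ≠ a + 1 := by decide

theorem no49b : ∀ a b : ZMod 7, a ^ 3 + 3 * a * b ^ 2 + b ^ 3 - 12 * a - 4 = 0 →
      3 * a ^ 2 * b + 3 * a * b ^ 2 + 2 * b ^ 3 - 12 * b + 12 = 0 → False := by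
  decide +kernel

theorem no49 {F : Type*} [Field F] [Fintype F] [CharP F 7] (hcard : Fintype.card F = 7 ^ 2)
    {t x : F} (ht : t ^ 2 = t + 1) (hx : x ^ 3 = 12 * x - 12 * t + 4) : False := by
  have : Fact (Nat.Prime 7) := ⟨by norm_num⟩
  obtain ⟨h1, h2⟩ := quad_field hcard ht no49a
  obtain ⟨a, b, hab⟩ := h1 x
  set φ := ZMod.castHom (dvd_refl 7) F with hφ
  have h3 : φ (a ^ 3 + 3 * a * b ^ 2 + b ^ 3 - 12 * a - 4) +
      φ (3 * a ^ 2 * b + 3 * a * b ^ 2 + 2 * b ^ 3 - 12 * b + 12) * t = 0 := by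
    simp only [map_add, map_sub, map_mul, map_pow, map_ofNat]
    rw [hab] at hx
    linear_combination hx - (3 * φ a * φ b ^ 2 + φ b ^ 3 * (t + 1)) * ht
  obtain ⟨h4, h5⟩ := h2 _ _ h3
  exact no49b a b h4 h5

end MZ413
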