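import Mathlib
import Pool.Agent.W413.MZ.Setup
import Pool.Agent.W413.MZ.Crit
import Pool.Agent.W413.MZ.Small

/-!
# MP_aa8fd2_nt, FIELD-P : `M₊ = ℚ(√5, u)`, `u³ - 3u + (1+3√5)/4 = 0`
-/

namespace MZ413

open NumberField Module Ideal MZ294

/-- units of `M₊` -/
def uP : Fin 6 → E6 := ![E6.mk6 (-1) 0 0 0 0 0, E6.mk6 0 0 0 1 0 0, E6.mk6 0 (-1) 0 1 0 0, E6.mk6 (-1) 0 0 0 1 (-1), E6.mk6 (-1) 0 1 (-1) 0 0, E6.mk6 (-1) (-1) 0 (-1) 0 1]
def uP' : Fin 6 → E6 := ![E6.mk6 (-1) 0 0 0 0 0, E6.mk6 (-1) 0 0 1 0 0, E6.mk6 (-9) 2 2 (-19) 3 4, E6.mk6 (-65) (-6) 12 38 4 (-7), E6.mk6 (-8) 5 3 (-25) 7 7, E6.mk6 16 9 (-7) (-9) (-6) 4]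
/-- sign table -/
def AP : Fin 6 → Fin 6 → Bool := ![
  ![true, false, false, true, false, false],
  ![true, false, true, true, true, true],
  ![true, false, true, true, false, true],
  ![true, true, false, false, false, true],
  ![true, true, false, true, false, false],
  ![true, true, true, false, false, true]]

theorem AP_dec : ∀ S : Finset (Fin 6), S.Nonempty →
    ∃ j, Odd (S.filter (fun i => AP j i = true)).card := by
  decide +kernel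

theorem signsP0 {g u : ℝ} (h1 : 1.618033 < g) (h2 : g < 1.618035) (h3 : -3.9838 < u) (h4 : u < -3.9837) :
    ∀ i, if AP 0 i then ev g u (u * u / 2) (uP i) < 0 else 0 < ev g u (u * u / 2) (uP i) := by
  obtain ⟨p1, p2, p3, p4⟩ := prod_facts h1 h2 h3 h4
  obtain ⟨z, hz⟩ : ∃ z, z = u * u / 2 := ⟨_, rfl⟩
  have h5 : 7.9348 < z := by nlinarith
  have h6 : z < 7.9355 := by nlinarith
  obtain ⟨q1, q2, q3, q4⟩ := prod_facts h1 h2 h5 h6
  rw [← hz]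
  intro i
  fin_cases i <;> simp [AP, uP, ev, ev5, E6.mk6] <;> linarith

theorem signsP1 {g u : ℝ} (h1 : 1.618033 < g) (h2 : g < 1.618035) (h3 : 1.6794 < u) (h4 : u < 1.6795) :
    ∀ i, if AP 1 i then ev g u (u * u / 2) (uP i) < 0 else 0 < ev g u (u * u / 2) (uP i) := by
  obtain ⟨p1, p2, p3, p4⟩ := prod_facts h1 h2 h3 h4
  obtain ⟨z, hz⟩ : ∃ z, z = u * u / 2 := ⟨_, rfl⟩
  have h5 : 1.4100 < z := by nlinarith
  have h6 : z < 1.4105 := by nlinarith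
  obtain ⟨q1, q2, q3, q4⟩ := prod_facts h1 h2 h5 h6
  rw [← hz]
  intro i
  fin_cases i <;> simp [AP, uP, ev, ev5, E6.mk6] <;> linarith

theorem signsP2 {g u : ℝ} (h1 : 1.618033 < g) (h2 : g < 1.618035) (h3 : 2.3042 < u) (h4 : u < 2.3043) :
    ∀ i, if AP 2 i then ev g u (u * u / 2) (uP i) < 0 else 0 < ev g u (u * u / 2) (uP i) := by
  obtain ⟨p1, p2, p3, p4⟩ := prod_facts h1 h2 h3 h4
  obtain ⟨z, hz⟩ : ∃ z, z = u * u / 2 := ⟨_, rfl⟩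
  have h5 : 2.6545 < z := by nlinarith
  have h6 : z < 2.6550 := by nlinarith
  obtain ⟨q1, q2, q3, q4⟩ := prod_facts h1 h2 h5 h6
  rw [← hz]
  intro i
  fin_cases i <;> simp [AP, uP, ev, ev5, E6.mk6] <;> linarith

theorem signsP3 {g u : ℝ} (h1 : -0.618035 < g) (h2 : g < -0.618033) (h3 : -2.8199 < u) (h4 : u < -2.8198) :
    ∀ i, if AP 3 i then ev g u (u * u / 2) (uP i) < 0 else 0 < ev g u (u * u / 2) (uP i) := by
  obtain ⟨p1, p2, p3, p4⟩ := prod_facts h1 h2 h3 h4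
  obtain ⟨z, hz⟩ : ∃ z, z = u * u / 2 := ⟨_, rfl⟩
  have h5 : 3.9755 < z := by nlinarith
  have h6 : z < 3.9761 := by nlinarith
  obtain ⟨q1, q2, q3, q4⟩ := prod_facts h1 h2 h5 h6
  rw [← hz]
  intro i
  fin_cases i <;> simp [AP, uP, ev, ev5, E6.mk6] <;> linarith

theorem signsP4 {g u : ℝ} (h1 : -0.618035 < g) (h2 : g < -0.618033) (h3 : -1.0471 < u) (h4 : u < -1.0470) :
    ∀ i, if AP 4 i then ev g u (u * u / 2) (uP i) < 0 else 0 < ev g u (u * u / 2) (uP i) := by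
  obtain ⟨p1, p2, p3, p4⟩ := prod_facts h1 h2 h3 h4
  obtain ⟨z, hz⟩ : ∃ z, z = u * u / 2 := ⟨_, rfl⟩
  have h5 : 0.5480 < z := by nlinarith
  have h6 : z < 0.5484 := by nlinarith
  obtain ⟨q1, q2, q3, q4⟩ := prod_facts h1 h2 h5 h6
  rw [← hz]
  intro i
  fin_cases i <;> simp [AP, uP, ev, ev5, E6.mk6] <;> linarith

theorem signsP5 {g u : ℝ} (h1 : -0.618035 < g) (h2 : g < -0.618033) (h3 : 3.8668 < u) (h4 : u < 3.8669) :
    ∀ i, if AP 5 i then ev g u (u * u / 2) (uP i) < 0 else 0 < ev g u (u * u / 2) (uP i) := by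
  obtain ⟨p1, p2, p3, p4⟩ := prod_facts h1 h2 h3 h4
  obtain ⟨z, hz⟩ : ∃ z, z = u * u / 2 := ⟨_, rfl⟩
  have h5 : 7.4759 < z := by nlinarith
  have h6 : z < 7.4766 := by nlinarith
  obtain ⟨q1, q2, q3, q4⟩ := prod_facts h1 h2 h5 h6
  rw [← hz]
  intro i
  fin_cases i <;> simp [AP, uP, ev, ev5, E6.mk6] <;> linarith

section field
variable {X : Type} [Field X] [NumberField X]

theorem dec11 : ∀ a b c : ZMod 11, a ^ 2 = a + 1 → b ^ 3 = 12 * b - 12 * a + 4 → b * b = 2 * c →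
    a = (4 : ℤ) ∧ ((b = (0 : ℤ) ∧ c = (0 : ℤ)) ∨ (b = (1 : ℤ) ∧ c = (6 : ℤ)) ∨
      (b = (10 : ℤ) ∧ c = (6 : ℤ))) := by
  have h1 : ∀ a : ZMod 11, a ^ 2 = a + 1 → (a = (4 : ℤ) ∨ ∀ b : ZMod 11, b ^ 3 ≠ 12 * b - 12 * a + 4) := by
    decide +kernel
  have h2 : ∀ b : ZMod 11, b ^ 3 = 12 * b - 12 * ((4 : ℤ) : ZMod 11) + 4 → 
      (b = (0 : ℤ) ∨ b = (1 : ℤ) ∨ b = (10 : ℤ)) := by
    decide +kernel
  have h3 : ∀ c : ZMod 11, (((0 : ℤ) : ZMod 11) * ((0 : ℤ) : ZMod 11) = 2 * c → c = (0 : ℤ)) ∧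
      (((1 : ℤ) : ZMod 11) * ((1 : ℤ) : ZMod 11) = 2 * c → c = (6 : ℤ)) ∧
      (((10 : ℤ) : ZMod 11) * ((10 : ℤ) : ZMod 11) = 2 * c → c = (6 : ℤ)) := by
    decide +kernel
  intro a b c ha hb hc
  rcases h1 a ha with h | h
  · refine ⟨h, ?_⟩
    rw [h] at hb
    rcases h2 b hb with h4 | h4 | h4
    · rw [h4] at hc; exact Or.inl ⟨h4, (h3 c).1 hc⟩
    · rw [h4] at hc; exact Or.inr (Or.inl ⟨h4, (h3 c).2.1 hc⟩)
    · rw [h4] at hc; exact Or.inr (Or.inr ⟨h4, (h3 c).2.2 hc⟩)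
  · exact absurd hb (h b)

theorem cert11 {f v w : 𝓞 X} (hf : f ^ 2 = f + 1)
    (h1 : v * v = ev f v w PP.p) (h2 : v * w = ev f v w PP.q) (h3 : w * w = ev f v w PP.r)
    {m : ℤ} (hm : ∀ z : 𝓞 X, ∃ t : E6, (m : 𝓞 X) * z = ev f v w t) (hpm : ¬ ((11 : ℕ) : ℤ) ∣ m)
    (Q : Ideal (𝓞 X)) [hQ : Q.IsPrime] (hpQ : ((11 : ℕ) : 𝓞 X) ∈ Q) (hN : absNorm Q = 11) :
    ∃ α, Q = span {α} := by
  have hp : Nat.Prime 11 := by norm_num
  obtain ⟨a, b, c, ⟨ha, hb, hc⟩, e1, e2, e3, -⟩ := residues PP hf h1 h2 h3 Q hp hpQ hN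
  have e2' : (b : ZMod 11) * b = 2 * c := by
    simp [PP, ev, ev5, E6.mk6] at e2; linear_combination e2
  have e3' : (b : ZMod 11) ^ 3 = 12 * b - 12 * a + 4 := by
    simp [PP, ev, ev5, E6.mk6] at e3; linear_combination 2 * e3 + b * e2'
  obtain ⟨k1, k2⟩ := dec11 _ _ _ e1 e3' e2'
  have ha' := sub_mem_of_eq Q hp hpQ ha k1
  rcases k2 with ⟨k2, k3⟩ | ⟨k2, k3⟩ | ⟨k2, k3⟩
  · exact of_chk PP hf h1 h2 h3 hm hp hpm Q hpQ ha' (sub_mem_of_eq Q hp hpQ hb k2)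
      (sub_mem_of_eq Q hp hpQ hc k3) (E6.mk6 (-1) 0 0 3 0 (-1)) (E6.mk6 20 0 (-7) 25 (-11) (-6))
      (E6.mk6 (-5) (-1) 2 (-5) 3 1) (E6.mk6 2 (-2) 0 6 (-1) (-2)) (E6.mk6 6 1 (-2) 4 (-3) (-1)) (by decide +kernel)
  · exact of_chk PP hf h1 h2 h3 hm hp hpm Q hpQ ha' (sub_mem_of_eq Q hp hpQ hb k2)
      (sub_mem_of_eq Q hp hpQ hc k3) (E6.mk6 (-3) 0 0 (-1) (-1) 0) (E6.mk6 88 119 62 (-55) (-74) (-38))
      (E6.mk6 (-37) (-50) (-26) 23 31 16) (E6.mk6 24 31 16 (-15) (-19) (-10)) (E6.mk6 14 16 8 (-8) (-10) (-5)) (by decide +kernel)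
  · exact of_chk PP hf h1 h2 h3 hm hp hpm Q hpQ ha' (sub_mem_of_eq Q hp hpQ hb k2)
      (sub_mem_of_eq Q hp hpQ hc k3) (E6.mk6 0 0 0 (-1) (-1) 0) (E6.mk6 (-341) (-31) 62 209 19 (-38))
      (E6.mk6 143 13 (-26) (-88) (-8) 16) (E6.mk6 342 31 (-62) (-210) (-19) 38) (E6.mk6 170 16 (-31) (-104) (-10) 19) (by decide +kernel)

theorem dec29 : ∀ a b c : ZMod 29, a ^ 2 = a + 1 → b ^ 3 = 12 * b - 12 * a + 4 → b * b = 2 * c →
    a = (6 : ℤ) ∧ ((b = (18 : ℤ) ∧ c = (17 : ℤ)) ∨ (b = (19 : ℤ) ∧ c = (21 : ℤ)) ∨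
      (b = (21 : ℤ) ∧ c = (3 : ℤ))) := by
  have h1 : ∀ a : ZMod 29, a ^ 2 = a + 1 → (a = (6 : ℤ) ∨ ∀ b : ZMod 29, b ^ 3 ≠ 12 * b - 12 * a + 4) := by
    decide +kernel
  have h2 : ∀ b : ZMod 29, b ^ 3 = 12 * b - 12 * ((6 : ℤ) : ZMod 29) + 4 → 
      (b = (18 : ℤ) ∨ b = (19 : ℤ) ∨ b = (21 : ℤ)) := by
    decide +kernel
  have h3 : ∀ c : ZMod 29, (((18 : ℤ) : ZMod 29) * ((18 : ℤ) : ZMod 29) = 2 * c → c = (17 : ℤ)) ∧
      (((19 : ℤ) : ZMod 29) * ((19 : ℤ) : ZMod 29) = 2 * c → c = (21 : ℤ)) ∧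
      (((21 : ℤ) : ZMod 29) * ((21 : ℤ) : ZMod 29) = 2 * c → c = (3 : ℤ)) := by
    decide +kernel
  intro a b c ha hb hc
  rcases h1 a ha with h | h
  · refine ⟨h, ?_⟩
    rw [h] at hb
    rcases h2 b hb with h4 | h4 | h4
    · rw [h4] at hc; exact Or.inl ⟨h4, (h3 c).1 hc⟩
    · rw [h4] at hc; exact Or.inr (Or.inl ⟨h4, (h3 c).2.1 hc⟩)
    · rw [h4] at hc; exact Or.inr (Or.inr ⟨h4, (h3 c).2.2 hc⟩)
  · exact absurd hb (h b)

theorem cert29 {f v w : 𝓞 X} (hf : f ^ 2 = f + 1)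
    (h1 : v * v = ev f v w PP.p) (h2 : v * w = ev f v w PP.q) (h3 : w * w = ev f v w PP.r)
    {m : ℤ} (hm : ∀ z : 𝓞 X, ∃ t : E6, (m : 𝓞 X) * z = ev f v w t) (hpm : ¬ ((29 : ℕ) : ℤ) ∣ m)
    (Q : Ideal (𝓞 X)) [hQ : Q.IsPrime] (hpQ : ((29 : ℕ) : 𝓞 X) ∈ Q) (hN : absNorm Q = 29) :
    ∃ α, Q = span {α} := by
  have hp : Nat.Prime 29 := by norm_num
  obtain ⟨a, b, c, ⟨ha, hb, hc⟩, e1, e2, e3, -⟩ := residues PP hf h1 h2 h3 Q hp hpQ hN
  have e2' : (b : ZMod 29) * b = 2 * c := by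
    simp [PP, ev, ev5, E6.mk6] at e2; linear_combination e2
  have e3' : (b : ZMod 29) ^ 3 = 12 * b - 12 * a + 4 := by
    simp [PP, ev, ev5, E6.mk6] at e3; linear_combination 2 * e3 + b * e2'
  obtain ⟨k1, k2⟩ := dec29 _ _ _ e1 e3' e2'
  have ha' := sub_mem_of_eq Q hp hpQ ha k1
  rcases k2 with ⟨k2, k3⟩ | ⟨k2, k3⟩ | ⟨k2, k3⟩
  · exact of_chk PP hf h1 h2 h3 hm hp hpm Q hpQ ha' (sub_mem_of_eq Q hp hpQ hb k2)
      (sub_mem_of_eq Q hp hpQ hc k3) (E6.mk6 1 0 0 1 (-1) (-1)) (E6.mk6 344 31 (-61) (-227) (-17) 40)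
      (E6.mk6 (-79) (-7) 14 51 4 (-9)) (E6.mk6 (-226) (-20) 40 148 11 (-26)) (E6.mk6 (-196) (-18) 35 129 10 (-23)) (by decide +kernel)
  · exact of_chk PP hf h1 h2 h3 hm hp hpm Q hpQ ha' (sub_mem_of_eq Q hp hpQ hb k2)
      (sub_mem_of_eq Q hp hpQ hc k3) (E6.mk6 (-3) 2 0 (-1) 0 0) (E6.mk6 1412 (-490) (-424) 2295 (-794) (-688))
      (E6.mk6 (-213) 74 64 (-347) 120 104) (E6.mk6 (-812) 282 244 (-1321) 457 396) (E6.mk6 (-892) 310 268 (-1451) 502 435) (by decide +kernel)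
  · exact of_chk PP hf h1 h2 h3 hm hp hpm Q hpQ ha' (sub_mem_of_eq Q hp hpQ hb k2)
      (sub_mem_of_eq Q hp hpQ hc k3) (E6.mk6 0 0 0 3 0 (-1)) (E6.mk6 (-45) (-2) 15 (-9) 17 3)
      (E6.mk6 9 1 (-3) 0 (-3) 0) (E6.mk6 33 3 (-11) 3 (-12) (-1)) (E6.mk6 1 0 0 (-1) 0 0) (by decide +kernel)

theorem dec31 : ∀ a b c : ZMod 31, a ^ 2 = a + 1 → b ^ 3 = 12 * b - 12 * a + 4 → b * b = 2 * c →
    a = (13 : ℤ) ∧ ((b = (5 : ℤ) ∧ c = (28 : ℤ)) ∨ (b = (12 : ℤ) ∧ c = (10 : ℤ)) ∨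
      (b = (14 : ℤ) ∧ c = (5 : ℤ))) := by
  have h1 : ∀ a : ZMod 31, a ^ 2 = a + 1 → (a = (13 : ℤ) ∨ ∀ b : ZMod 31, b ^ 3 ≠ 12 * b - 12 * a + 4) := by
    decide +kernel
  have h2 : ∀ b : ZMod 31, b ^ 3 = 12 * b - 12 * ((13 : ℤ) : ZMod 31) + 4 → 
      (b = (5 : ℤ) ∨ b = (12 : ℤ) ∨ b = (14 : ℤ)) := by
    decide +kernel
  have h3 : ∀ c : ZMod 31, (((5 : ℤ) : ZMod 31) * ((5 : ℤ) : ZMod 31) = 2 * c → c = (28 : ℤ)) ∧
      (((12 : ℤ) : ZMod 31) * ((12 : ℤ) : ZMod 31) = 2 * c → c = (10 : ℤ)) ∧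
      (((14 : ℤ) : ZMod 31) * ((14 : ℤ) : ZMod 31) = 2 * c → c = (5 : ℤ)) := by
    decide +kernel
  intro a b c ha hb hc
  rcases h1 a ha with h | h
  · refine ⟨h, ?_⟩
    rw [h] at hb
    rcases h2 b hb with h4 | h4 | h4
    · rw [h4] at hc; exact Or.inl ⟨h4, (h3 c).1 hc⟩
    · rw [h4] at hc; exact Or.inr (Or.inl ⟨h4, (h3 c).2.1 hc⟩)
    · rw [h4] at hc; exact Or.inr (Or.inr ⟨h4, (h3 c).2.2 hc⟩)
  · exact absurd hb (h b)

theorem cert31 {f v w : 𝓞 X} (hf : f ^ 2 = f + 1)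
    (h1 : v * v = ev f v w PP.p) (h2 : v * w = ev f v w PP.q) (h3 : w * w = ev f v w PP.r)
    {m : ℤ} (hm : ∀ z : 𝓞 X, ∃ t : E6, (m : 𝓞 X) * z = ev f v w t) (hpm : ¬ ((31 : ℕ) : ℤ) ∣ m)
    (Q : Ideal (𝓞 X)) [hQ : Q.IsPrime] (hpQ : ((31 : ℕ) : 𝓞 X) ∈ Q) (hN : absNorm Q = 31) :
    ∃ α, Q = span {α} := by
  have hp : Nat.Prime 31 := by norm_num
  obtain ⟨a, b, c, ⟨ha, hb, hc⟩, e1, e2, e3, -⟩ := residues PP hf h1 h2 h3 Q hp hpQ hN
  have e2' : (b : ZMod 31) * b = 2 * c := by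
    simp [PP, ev, ev5, E6.mk6] at e2; linear_combination e2
  have e3' : (b : ZMod 31) ^ 3 = 12 * b - 12 * a + 4 := by
    simp [PP, ev, ev5, E6.mk6] at e3; linear_combination 2 * e3 + b * e2'
  obtain ⟨k1, k2⟩ := dec31 _ _ _ e1 e3' e2'
  have ha' := sub_mem_of_eq Q hp hpQ ha k1
  rcases k2 with ⟨k2, k3⟩ | ⟨k2, k3⟩ | ⟨k2, k3⟩
  · exact of_chk PP hf h1 h2 h3 hm hp hpm Q hpQ ha' (sub_mem_of_eq Q hp hpQ hb k2)
      (sub_mem_of_eq Q hp hpQ hc k3) (E6.mk6 3 0 0 0 (-1) 0) (E6.mk6 105 (-24) (-22) 156 (-33) (-38))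
      (E6.mk6 (-39) 9 8 (-57) 12 14) (E6.mk6 (-11) 3 2 (-16) 3 4) (E6.mk6 (-90) 20 19 (-132) 28 32) (by decide +kernel)
  · exact of_chk PP hf h1 h2 h3 hm hp hpm Q hpQ ha' (sub_mem_of_eq Q hp hpQ hb k2)
      (sub_mem_of_eq Q hp hpQ hc k3) (E6.mk6 1 0 0 0 (-1) 0) (E6.mk6 83 16 (-18) (-68) (-9) 14)
      (E6.mk6 (-37) (-7) 8 29 4 (-6)) (E6.mk6 (-36) (-7) 8 28 4 (-6)) (E6.mk6 (-24) (-4) 5 20 2 (-4)) (by decide +kernel)
  · exact of_chk PP hf h1 h2 h3 hm hp hpm Q hpQ ha' (sub_mem_of_eq Q hp hpQ hb k2)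
      (sub_mem_of_eq Q hp hpQ hc k3) (E6.mk6 (-1) 1 0 (-1) 0 0) (E6.mk6 6 (-11) (-6) 47 (-19) (-16))
      (E6.mk6 (-1) 4 2 (-18) 7 6) (E6.mk6 0 4 2 (-18) 7 6) (E6.mk6 2 1 0 (-3) 1 1) (by decide +kernel)

theorem dec41 : ∀ a b c : ZMod 41, a ^ 2 = a + 1 → b ^ 3 = 12 * b - 12 * a + 4 → b * b = 2 * c →
    a = (35 : ℤ) ∧ ((b = (17 : ℤ) ∧ c = (1 : ℤ)) ∨ (b = (32 : ℤ) ∧ c = (20 : ℤ)) ∨
      (b = (33 : ℤ) ∧ c = (32 : ℤ))) := by
  have h1 : ∀ a : ZMod 41, a ^ 2 = a + 1 → (a = (35 : ℤ) ∨ ∀ b : ZMod 41, b ^ 3 ≠ 12 * b - 12 * a + 4) := by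
    decide +kernel
  have h2 : ∀ b : ZMod 41, b ^ 3 = 12 * b - 12 * ((35 : ℤ) : ZMod 41) + 4 → 
      (b = (17 : ℤ) ∨ b = (32 : ℤ) ∨ b = (33 : ℤ)) := by
    decide +kernel
  have h3 : ∀ c : ZMod 41, (((17 : ℤ) : ZMod 41) * ((17 : ℤ) : ZMod 41) = 2 * c → c = (1 : ℤ)) ∧
      (((32 : ℤ) : ZMod 41) * ((32 : ℤ) : ZMod 41) = 2 * c → c = (20 : ℤ)) ∧
      (((33 : ℤ) : ZMod 41) * ((33 : ℤ) : ZMod 41) = 2 * c → c = (32 : ℤ)) := by
    decide +kernel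
  intro a b c ha hb hc
  rcases h1 a ha with h | h
  · refine ⟨h, ?_⟩
    rw [h] at hb
    rcases h2 b hb with h4 | h4 | h4
    · rw [h4] at hc; exact Or.inl ⟨h4, (h3 c).1 hc⟩
    · rw [h4] at hc; exact Or.inr (Or.inl ⟨h4, (h3 c).2.1 hc⟩)
    · rw [h4] at hc; exact Or.inr (Or.inr ⟨h4, (h3 c).2.2 hc⟩)
  · exact absurd hb (h b)

theorem cert41 {f v w : 𝓞 X} (hf : f ^ 2 = f + 1)
    (h1 : v * v = ev f v w PP.p) (h2 : v * w = ev f v w PP.q) (h3 : w * w = ev f v w PP.r)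
    {m : ℤ} (hm : ∀ z : 𝓞 X, ∃ t : E6, (m : 𝓞 X) * z = ev f v w t) (hpm : ¬ ((41 : ℕ) : ℤ) ∣ m)
    (Q : Ideal (𝓞 X)) [hQ : Q.IsPrime] (hpQ : ((41 : ℕ) : 𝓞 X) ∈ Q) (hN : absNorm Q = 41) :
    ∃ α, Q = span {α} := by
  have hp : Nat.Prime 41 := by norm_num
  obtain ⟨a, b, c, ⟨ha, hb, hc⟩, e1, e2, e3, -⟩ := residues PP hf h1 h2 h3 Q hp hpQ hN
  have e2' : (b : ZMod 41) * b = 2 * c := by
    simp [PP, ev, ev5, E6.mk6] at e2; linear_combination e2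
  have e3' : (b : ZMod 41) ^ 3 = 12 * b - 12 * a + 4 := by
    simp [PP, ev, ev5, E6.mk6] at e3; linear_combination 2 * e3 + b * e2'
  obtain ⟨k1, k2⟩ := dec41 _ _ _ e1 e3' e2'
  have ha' := sub_mem_of_eq Q hp hpQ ha k1
  rcases k2 with ⟨k2, k3⟩ | ⟨k2, k3⟩ | ⟨k2, k3⟩
  · exact of_chk PP hf h1 h2 h3 hm hp hpm Q hpQ ha' (sub_mem_of_eq Q hp hpQ hb k2)
      (sub_mem_of_eq Q hp hpQ hc k3) (E6.mk6 0 0 0 1 0 (-1)) (E6.mk6 (-175) (-10) 35 25 19 (-5))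
      (E6.mk6 150 9 (-30) (-25) (-16) 5) (E6.mk6 75 5 (-15) (-15) (-8) 3) (E6.mk6 1 0 0 (-1) 0 0) (by decide +kernel)
  · exact of_chk PP hf h1 h2 h3 hm hp hpm Q hpQ ha' (sub_mem_of_eq Q hp hpQ hb k2)
      (sub_mem_of_eq Q hp hpQ hc k3) (E6.mk6 0 1 0 (-1) 0 1) (E6.mk6 (-57) (-30) (-7) 55 16 1)
      (E6.mk6 50 26 6 (-47) (-14) (-1)) (E6.mk6 44 21 4 (-42) (-11) 0) (E6.mk6 24 10 1 (-24) (-5) 1) (by decide +kernel)
  · exact of_chk PP hf h1 h2 h3 hm hp hpm Q hpQ ha' (sub_mem_of_eq Q hp hpQ hb k2)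
      (sub_mem_of_eq Q hp hpQ hc k3) (E6.mk6 (-1) (-1) 0 0 (-1) 0) (E6.mk6 (-197) (-99) 76 116 61 (-46))
      (E6.mk6 171 86 (-66) (-101) (-53) 40) (E6.mk6 169 86 (-66) (-100) (-53) 40) (E6.mk6 140 68 (-53) (-82) (-42) 32) (by decide +kernel)

def pi3 : E6 := E6.mk6 1 1 (-1) 1 (-1) 0
def u3 : E6 := E6.mk6 43 31 (-22) (-26) (-19) 13
def u3' : E6 := E6.mk6 439 (-81) (-96) 712 (-130) (-155)
def pi2 : E6 := E6.mk6 (-4) 0 1 0 0 0
def u2 : E6 := E6.mk6 (-22) 0 6 3 0 0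
def u2' : E6 := E6.mk6 34373 23940 (-16980) (-21243) (-14796) 10494

theorem cube_of {f v w : 𝓞 X} (P : Par) (hf : f ^ 2 = f + 1)
    (h1 : v * v = ev f v w P.p) (h2 : v * w = ev f v w P.q) (h3 : w * w = ev f v w P.r)
    (n : ℕ) (π u : E6) (h : E6.mul P π (E6.mul P π π) = E6.mul P (E6.mk6 n 0 0 0 0 0) u) :
    (ev f v w π) ^ 3 = (n : 𝓞 X) * ev f v w u := by
  have h5 := congrArg (ev f v w) h
  simp only [ev_mul P hf h1 h2 h3] at h5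
  have h6 : ev f v w (E6.mk6 n 0 0 0 0 0) = (n : 𝓞 X) := by simp [ev, ev5, E6.mk6]
  rw [h6] at h5
  rw [← h5]
  ring

theorem isUnit_of {f v w : 𝓞 X} (P : Par) (hf : f ^ 2 = f + 1)
    (h1 : v * v = ev f v w P.p) (h2 : v * w = ev f v w P.q) (h3 : w * w = ev f v w P.r)
    (u u' : E6) (h : E6.mul P u u' = E6.mk6 1 0 0 0 0 0) : ev f v w u * ev f v w u' = 1 := by
  rw [← ev_mul P hf h1 h2 h3, h]
  simp [ev, ev5, E6.mk6]

theorem field_P (hX : finrank ℚ X = 6) (f v w : 𝓞 X) (hf : f ^ 2 = f + 1)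
    (h1 : v * v = ev f v w PP.p) (h2 : v * w = ev f v w PP.q) (h3 : w * w = ev f v w PP.r) :
    TwoRat X := by
  have h1' : v * v = 2 * w := by
    have := h1
    simp [PP, ev, ev5, E6.mk6] at this
    exact this
  have hv : v ^ 3 = 12 * v - 12 * f + 4 := by
    have := h2
    simp [PP, ev, ev5, E6.mk6] at this
    linear_combination v * h1' + 2 * this
  obtain ⟨b, hb⟩ := exists_basis hX PP f v w hf h1 h2 h3 pi3 u3 u3' (by decide +kernel)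
    (by decide +kernel)
  obtain ⟨m, hm, hm0, hz⟩ := exists_m PP hf h1 h2 h3 b hb detP
  -- embeddings
  obtain ⟨g1, g2⟩ := gp_bounds
  obtain ⟨g3, g4⟩ := gm_bounds
  obtain ⟨r1, r2, r3, hr1, hr2, hr3, roots⟩ := cubic_cases 12 (4 - 12 * gp) (-3.9838) (-3.9837) (1.6794) (1.6795)
    (2.3042) (2.3043) (by norm_num) (by norm_num) (by norm_num) (by norm_num) (by norm_num)
    (by nlinarith) (by nlinarith) (by nlinarith)
  obtain ⟨s1, s2, s3, hs1, hs2, hs3, soots⟩ := cubic_cases 12 (4 - 12 * gm) (-2.8199) (-2.8198) (-1.0471) (-1.0470)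
    (3.8668) (3.8669) (by norm_num) (by norm_num) (by norm_num) (by norm_num) (by norm_num)
    (by nlinarith) (by nlinarith) (by nlinarith)
  let g : Fin 6 → ℝ := ![gp, gp, gp, gm, gm, gm]
  let u : Fin 6 → ℝ := ![r1, r2, r3, s1, s2, s3]
  obtain ⟨hG, hc⟩ := embs hX b hb g u (fun i => u i * u i / 2) (by
    intro F
    set F1 := F (algebraMap (𝓞 X) X f) with hF1
    set F2 := F (algebraMap (𝓞 X) X v) with hF2
    have e1 : F1 ^ 2 = F1 + 1 := by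
      simp only [F1]
      rw [← map_pow, ← map_pow, hf]
      simp
    have e2 : F2 ^ 3 = 12 * F2 - 12 * F1 + 4 := by
      simp only [F1, F2]
      rw [← map_pow, ← map_pow, hv]
      simp only [map_sub, map_add, map_mul, map_ofNat]
    have e3 : F (algebraMap (𝓞 X) X w) = F2 * F2 / 2 := by
      have := congrArg (fun z => F (algebraMap (𝓞 X) X z)) h1'
      simp only [map_mul, map_ofNat] at this
      rw [← hF2] at this
      linear_combination -this / 2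
    rw [e3]
    rcases golden_cases e1 with hg | hg
    · have e4 : F2 ^ 3 = ((12 : ℝ) : ℂ) * F2 + ((4 - 12 * gp : ℝ) : ℂ) := by
        rw [e2, hg]; push_cast; ring
      rcases roots F2 e4 with hr | hr | hr
      · exact ⟨0, by rw [hg]; rfl, by rw [hr]; rfl, by rw [hr]; simp [u]⟩
      · exact ⟨1, by rw [hg]; rfl, by rw [hr]; rfl, by rw [hr]; simp [u]⟩
      · exact ⟨2, by rw [hg]; rfl, by rw [hr]; rfl, by rw [hr]; simp [u]⟩
    · have e4 : F2 ^ 3 = ((12 : ℝ) : ℂ) * F2 + ((4 - 12 * gm : ℝ) : ℂ) := by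
        rw [e2, hg]; push_cast; ring
      rcases soots F2 e4 with hr | hr | hr
      · exact ⟨3, by rw [hg]; rfl, by rw [hr]; rfl, by rw [hr]; simp [u]⟩
      · exact ⟨4, by rw [hg]; rfl, by rw [hr]; rfl, by rw [hr]; simp [u]⟩
      · exact ⟨5, by rw [hg]; rfl, by rw [hr]; rfl, by rw [hr]; simp [u]⟩)
  have hunits := units_of_table hX PP hf h1 h2 h3 g u (fun i => u i * u i / 2) hG uP uP'
    (by decide +kernel) AP (by
      intro j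
      fin_cases j
      · exact signsP0 g1 g2 hr1.1 hr1.2
      · exact signsP1 g1 g2 hr2.1 hr2.2
      · exact signsP2 g1 g2 hr3.1 hr3.2
      · exact signsP3 g3 g4 hs1.1 hs1.2
      · exact signsP4 g3 g4 hs2.1 hs2.2
      · exact signsP5 g3 g4 hs3.1 hs3.2) AP_dec
  -- primes above 2 and 3
  have hπ3 := cube_of PP hf h1 h2 h3 3 pi3 u3 (by decide +kernel)
  have hπ2 := cube_of PP hf h1 h2 h3 2 pi2 u2 (by decide +kernel)
  have hu3 := isUnit_of PP hf h1 h2 h3 u3 u3' (by decide +kernel)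
  have hu2 := isUnit_of PP hf h1 h2 h3 u2 u2' (by decide +kernel)
  have hU3 : IsUnit (ev f v w u3) := IsUnit.of_mul_eq_one _ hu3
  have hU2 : IsUnit (ev f v w u2) := IsUnit.of_mul_eq_one _ hu2
  have h2Q : ∀ Q : Ideal (𝓞 X), Q.IsPrime → ((2 : ℕ) : 𝓞 X) ∈ Q → Q = span {ev f v w pi2} :=
    fun Q hQ hpQ => eq_span_of_cube hX Nat.prime_two f hf (by decide) _ _ hU2 hπ2 Q hpQ
  have hpi20 : ev f v w pi2 ≠ 0 := by
    intro h
    rw [h] at hπ2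
    have h5 : ((2 : ℕ) : 𝓞 X) * ev f v w u2 = 0 := by rw [← hπ2]; ring
    rcases mul_eq_zero.1 h5 with h6 | h6
    · norm_num at h6
    · exact hU2.ne_zero h6
  have hprime2 : Prime (ev f v w pi2) := prime_of_unique hX Nat.prime_two _ hpi20 h2Q
  have hmne : ∀ p : ℕ, p.Prime → ¬ (p : ℤ) ∣ 13122000 → ¬ (p : ℤ) ∣ m := by
    intro p _ h h'
    apply h
    rw [← hm]
    exact Dvd.dvd.mul_right (dvd_pow h' two_ne_zero) _
  have hpid : IsPrincipalIdealRing (𝓞 X) := by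
    refine pid_of hX hc hm hm0 55 (by norm_num) ?_
    intro Q hQ hQ0 hle
    obtain ⟨p, k, hp, hk, hNk, hpQ⟩ := exists_prime_pow Q hQ0
    by_cases hp2 : p = 2
    · subst hp2
      exact ⟨_, h2Q Q hQ hpQ⟩
    by_cases hp3 : p = 3
    · subst hp3
      exact ⟨_, eq_span_of_cube hX hp f hf (by decide) _ _ hU3 hπ3 Q hpQ⟩
    have h5 : 5 ≤ p := by
      rcases Nat.lt_or_ge p 5 with h | h
      · exfalso
        interval_cases p
        all_goals first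
          | exact absurd rfl hp2
          | exact absurd rfl hp3
          | exact absurd hp (by decide)
      · exact h
    have hp55 : p ≤ 55 := by
      calc p = p ^ 1 := (pow_one p).symm
        _ ≤ p ^ k := Nat.pow_le_pow_right hp.pos hk
        _ ≤ 55 := by rw [← hNk]; exact hle
    have hno : ∀ (p : ℕ), p.Prime → (p : 𝓞 X) ∈ Q → absNorm Q = p →
        ∃ a b : ZMod p, a ^ 2 = a + 1 ∧ b ^ 3 = 12 * b - 12 * a + 4 := by
      intro p hp hpQ hN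
      obtain ⟨a, b, c, -, ha, hb, hc, -⟩ := residues PP hf h1 h2 h3 Q hp hpQ hN
      refine ⟨a, b, ha, ?_⟩
      simp [PP, ev, ev5, E6.mk6] at hb hc
      linear_combination 2 * hc + b * hb
    have hmax := isMax Q hQ0
    letI : Field (𝓞 X ⧸ Q) := Ideal.Quotient.field Q
    have hfin : Finite (𝓞 X ⧸ Q) :=
      (absNorm_ne_zero_iff Q).1 (fun h => hQ0 (absNorm_eq_zero_iff.1 h))
    letI : Fintype (𝓞 X ⧸ Q) := Fintype.ofFinite _
    have hcard : Fintype.card (𝓞 X ⧸ Q) = absNorm Q := by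
      rw [← card_quot, Nat.card_eq_fintype_card]
    have ht2 : (Ideal.Quotient.mk Q f) ^ 2 = Ideal.Quotient.mk Q f + 1 := by
      rw [← map_pow, hf, map_add, map_one]
    have hx3 : (Ideal.Quotient.mk Q v) ^ 3 =
        12 * Ideal.Quotient.mk Q v - 12 * Ideal.Quotient.mk Q f + 4 := by
      rw [← map_pow, hv]
      simp only [map_sub, map_add, map_mul, map_ofNat]
    have hk2 : k ≤ 2 := by
      by_contra hne
      have h3k : 3 ≤ k := by omega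
      have : 125 ≤ p ^ k := by
        calc 125 = 5 ^ 3 := by norm_num
          _ ≤ p ^ 3 := Nat.pow_le_pow_left h5 3
          _ ≤ p ^ k := Nat.pow_le_pow_right hp.pos h3k
      omega
    by_cases hk1 : k = 1
    · rw [hk1, pow_one] at hNk
      by_cases h11 : p = 11
      · subst h11; exact cert11 hf h1 h2 h3 hz (hmne 11 hp (by decide)) Q hpQ hNk
      by_cases h29 : p = 29
      · subst h29; exact cert29 hf h1 h2 h3 hz (hmne 29 hp (by decide)) Q hpQ hNk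
      by_cases h31 : p = 31
      · subst h31; exact cert31 hf h1 h2 h3 hz (hmne 31 hp (by decide)) Q hpQ hNk
      by_cases h41 : p = 41
      · subst h41; exact cert41 hf h1 h2 h3 hz (hmne 41 hp (by decide)) Q hpQ hNk
      exfalso
      have := hno p hp hpQ hNk
      interval_cases p
      all_goals first
        | exact absurd rfl h11
        | exact absurd rfl h29
        | exact absurd rfl h31
        | exact absurd rfl h41
        | (exact absurd hp (by decide))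
        | (exact absurd this (by decide +kernel))
    · have hk' : k = 2 := by omega
      subst hk'
      exfalso
      have hp7 : p ≤ 7 := by
        by_contra hne
        have h8 : 8 ≤ p := by omega
        have : 64 ≤ p ^ 2 := by
          calc 64 = 8 ^ 2 := by norm_num
            _ ≤ p ^ 2 := Nat.pow_le_pow_left h8 2
        omega
      have hp57 : p = 5 ∨ p = 7 := by
        interval_cases p
        · exact Or.inl rfl
        · exact absurd hp (by decide)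
        · exact Or.inr rfl
      rcases hp57 with rfl | rfl
      · have c5 : (5 : 𝓞 X ⧸ Q) = 0 := by
          have := Ideal.Quotient.eq_zero_iff_mem.2 hpQ
          rw [map_natCast] at this
          exact_mod_cast this
        refine no25 c5 ht2 hx3 ?_
        have h6 := FiniteField.pow_card (Ideal.Quotient.mk Q v)
        rw [hcard, hNk] at h6
        exact h6
      · have c7 : ((7 : ℕ) : 𝓞 X ⧸ Q) = 0 := by
          have := Ideal.Quotient.eq_zero_iff_mem.2 hpQ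
          rw [map_natCast] at this
          exact_mod_cast this
        have : CharP (𝓞 X ⧸ Q) 7 := (CharP.charP_iff_prime_eq_zero (by norm_num)).2 c7
        exact no49 (by rw [hcard, hNk]) ht2 hx3
  refine twoRat_of (ev f v w pi2) (ev f v w u2') 3 hprime2 (by decide) ?_
    (IsUnit.of_mul_eq_one (ev f v w u2) (by rw [mul_comm]; exact hu2)) hunits
  rw [hπ2]
  push_cast
  linear_combination (-2) * hu2

theorem stmP : StmP := by
  intro X _ _ hX s u hs hu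
  have hφ : ((1 + s) / 2) ^ 2 = (1 + s) / 2 + 1 := by
    linear_combination hs / 4
  have hfi := isIntegral_of_quad hφ
  let f : 𝓞 X := ⟨(1 + s) / 2, hfi⟩
  have hvi : IsIntegral ℤ (2 * u) := by
    refine isIntegral_of_cubic (a := ((0 : ℤ) : X)) (b := ((-12 : ℤ) : X))
      (c := ((12 : ℤ) : X) * ((1 + s) / 2) - ((4 : ℤ) : X))
      (isIntegral_intCast _) (isIntegral_intCast _)
      (((isIntegral_intCast 12).mul hfi).sub (isIntegral_intCast 4)) ?_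
    push_cast
    linear_combination 2 * hu
  have hwi : IsIntegral ℤ (2 * u ^ 2) := by
    refine isIntegral_of_cubic (a := ((-12 : ℤ) : X)) (b := ((36 : ℤ) : X))
      (c := -(((6 : ℤ) : X) * ((1 + s) / 2)) - ((20 : ℤ) : X))
      (isIntegral_intCast _) (isIntegral_intCast _)
      ((((isIntegral_intCast 6).mul hfi).neg).sub (isIntegral_intCast 20)) ?_
    push_cast
    linear_combination ((1/2) * (4 * (u ^ 3 - 3 * u) - (1 + 3 * s))) * hu + (9/2) * hs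
  let v : 𝓞 X := ⟨2 * u, hvi⟩
  let w : 𝓞 X := ⟨2 * u ^ 2, hwi⟩
  have hf : f ^ 2 = f + 1 := O_ext (by rw [map_pow, map_add, map_one]; exact hφ)
  have cf : algebraMap (𝓞 X) X f = (1 + s) / 2 := rfl
  have cv : algebraMap (𝓞 X) X v = 2 * u := rfl
  have cw : algebraMap (𝓞 X) X w = 2 * u ^ 2 := rfl
  have c2 : algebraMap (𝓞 X) X 2 = 2 := map_ofNat _ 2
  have c3 : algebraMap (𝓞 X) X 3 = 3 := map_ofNat _ 3
  have c6 : algebraMap (𝓞 X) X 6 = 6 := map_ofNat _ 6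
  refine field_P hX f v w hf (O_ext ?_) (O_ext ?_) (O_ext ?_)
  · simp [PP, ev, ev5, E6.mk6, cf, cv, cw, c2, c3, c6]; ring
  · simp [PP, ev, ev5, E6.mk6, cf, cv, cw, c2, c3, c6]; linear_combination hu
  · simp [PP, ev, ev5, E6.mk6, cf, cv, cw, c2, c3, c6]; linear_combination u * hu

end field

end MZ413
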